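import Mathlib

set_option autoImplicit false

noncomputable section

namespace CX

/-- The vectors with coordinates in `1,…,M`. -/
def Bx (m M : ℕ) : Finset (Fin m → ℕ) := Fintype.piFinset fun _ => Finset.Icc 1 M

namespace SumL

theorem sum_pi_succ {α : Type*} [DecidableEq α] (m : ℕ) (S : Finset α)
    (f : (Fin (m + 1) → α) → ℝ) :
    ∑ ν ∈ Fintype.piFinset (fun _ : Fin (m + 1) => S), f ν =
      ∑ x ∈ S, ∑ ν ∈ Fintype.piFinset (fun _ : Fin m => S), f (Fin.cons x ν) := by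
  rw [← Finset.sum_product']
  refine Finset.sum_nbij' (fun ν => (ν 0, Fin.tail ν)) (fun p => Fin.cons p.1 p.2) ?_ ?_ ?_ ?_ ?_
  · intro ν hν
    rw [Fintype.mem_piFinset] at hν
    rw [Finset.mem_product, Fintype.mem_piFinset]
    exact ⟨hν 0, fun i => hν i.succ⟩
  · intro p hp
    rw [Finset.mem_product, Fintype.mem_piFinset] at hp
    rw [Fintype.mem_piFinset]
    intro i
    refine Fin.cases ?_ (fun j => ?_) i
    · exact hp.1
    · exact hp.2 j
  · intro ν _
    exact Fin.cons_self_tail ν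
  · intro p _
    simp
  · intro ν _
    rw [Fin.cons_self_tail]

theorem bern_up (s : ℕ) {u d : ℝ} (hu : 0 ≤ u) (hd : 0 ≤ d) :
    u ^ (s + 1) + (s + 1) * d * u ^ s ≤ (u + d) ^ (s + 1) := by
  induction s with
  | zero => simp
  | succ s ih =>
    have h1 := mul_le_mul_of_nonneg_left ih (add_nonneg hu hd)
    have h2 : 0 ≤ ((s : ℝ) + 1) * d ^ 2 * u ^ s := by positivity
    have h3 : (u + d) * (u ^ (s + 1) + (s + 1) * d * u ^ s) =
        u ^ (s + 1 + 1) + ((s + 1 : ℕ) + 1) * d * u ^ (s + 1) + ((s : ℝ) + 1) * d ^ 2 * u ^ s := by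
      push_cast
      ring
    have h4 : (u + d) * (u + d) ^ (s + 1) = (u + d) ^ (s + 1 + 1) := by ring
    rw [h3, h4] at h1
    linarith

theorem bern_low (r : ℕ) {u a : ℝ} (ha : 0 ≤ a) (hu : a ≤ u) :
    u ^ (r + 1) ≤ (u - a) ^ (r + 1) + (r + 1) * a * u ^ r := by
  have hu0 : 0 ≤ u := ha.trans hu
  induction r with
  | zero => simp
  | succ r ih =>
    have h1 := mul_le_mul_of_nonneg_left ih (sub_nonneg.2 hu)
    have h2 : 0 ≤ ((r : ℝ) + 1) * a ^ 2 * u ^ r := by positivity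
    have h3 : (u - a) * ((u - a) ^ (r + 1) + (r + 1) * a * u ^ r) =
        (u - a) ^ (r + 1 + 1) + (r + 1) * a * u ^ (r + 1) - ((r : ℝ) + 1) * a ^ 2 * u ^ r := by
      ring
    have h4 : (u - a) * u ^ (r + 1) = u ^ (r + 1 + 1) - a * u ^ (r + 1) := by ring
    rw [h3, h4] at h1
    push_cast
    linarith

theorem step_low (r : ℕ) {u a : ℝ} (ha : 0 < a) :
    max 0 u ^ (r + 1) ≤ max 0 (u - a) ^ (r + 1) + (r + 1) * a * max 0 u ^ r := by
  rcases le_total a u with h | h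
  · rw [max_eq_right (ha.le.trans h), max_eq_right (sub_nonneg.2 h)]
    exact bern_low r ha.le h
  · rw [max_eq_left (sub_nonpos.2 h), zero_pow (Nat.succ_ne_zero r), zero_add, pow_succ,
      mul_comm _ (max 0 u)]
    apply mul_le_mul_of_nonneg_right _ (pow_nonneg (le_max_left _ _) r)
    have h1 : max 0 u ≤ a := max_le ha.le h
    have h2 : (0 : ℝ) ≤ r * a := by positivity
    linarith

theorem step_up (s : ℕ) (hs : 1 ≤ s) {u d : ℝ} (hd : 0 ≤ d) :
    max 0 u ^ (s + 1) + (s + 1) * d * max 0 u ^ s ≤ max 0 (u + d) ^ (s + 1) := by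
  rcases le_total 0 u with h | h
  · rw [max_eq_right h, max_eq_right (add_nonneg h hd)]
    exact bern_up s h hd
  · rw [max_eq_left h, zero_pow (Nat.succ_ne_zero s), zero_pow (by omega), mul_zero, add_zero]
    exact pow_nonneg (le_max_left _ _) _

theorem one_low (r M : ℕ) {a : ℝ} (ha : 0 < a) (c : ℝ) (hM : c ≤ M * a) :
    max 0 (c - a) ^ (r + 1) ≤ (r + 1) * a * ∑ n ∈ Finset.Icc 1 M, max 0 (c - a * n) ^ r := by
  have key : ∀ N : ℕ, max 0 (c - a) ^ (r + 1) ≤ max 0 (c - a * (N + 1)) ^ (r + 1) +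
      (r + 1) * a * ∑ n ∈ Finset.Icc 1 N, max 0 (c - a * n) ^ r := by
    intro N
    induction N with
    | zero => simp
    | succ N ih =>
      rw [Finset.sum_Icc_succ_top (by omega)]
      have h1 := step_low r (u := c - a * (N + 1)) ha
      have h2 : c - a * ((N + 1 : ℕ) + 1) = c - a * (N + 1) - a := by
        push_cast
        ring
      rw [h2, mul_add ((r + 1 : ℝ) * a)]
      push_cast at h1 ⊢
      linarith
  have h1 := key M
  have h2 : c - a * (M + 1) ≤ 0 := by nlinarith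
  rw [max_eq_left h2, zero_pow (Nat.succ_ne_zero r), zero_add] at h1
  exact h1

theorem one_up' (s M : ℕ) (hs : 1 ≤ s) {d : ℝ} (hd : 0 ≤ d) (c : ℝ) :
    (s + 1) * d * ∑ n ∈ Finset.range (M + 1), max 0 (c - d * n) ^ s ≤
      max 0 (c + d) ^ (s + 1) := by
  have key : ∀ N : ℕ, max 0 (c + d - d * N) ^ (s + 1) +
      (s + 1) * d * ∑ n ∈ Finset.range N, max 0 (c - d * n) ^ s ≤ max 0 (c + d) ^ (s + 1) := by
    intro N
    induction N with
    | zero => simp
    | succ N ih =>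
      rw [Finset.sum_range_succ]
      have h1 := step_up s hs (u := c - d * N) hd
      have h2 : c + d - d * ((N + 1 : ℕ) : ℝ) = c - d * N := by
        push_cast
        ring
      have h3 : c - d * N + d = c + d - d * N := by ring
      rw [h2, mul_add]
      rw [h3] at h1
      linarith
  have h1 := key (M + 1)
  have h2 : (0 : ℝ) ≤ max 0 (c + d - d * (M + 1 : ℕ)) ^ (s + 1) :=
    pow_nonneg (le_max_left _ _) _
  linarith

theorem sum_abs (M : ℕ) (f : ℝ → ℝ) (hf : ∀ x, 0 ≤ f x) :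
    ∑ n ∈ Finset.Icc (-(M : ℤ)) M, f |(n : ℝ)| ≤ 2 * ∑ n ∈ Finset.range (M + 1), f n := by
  have h1 : Finset.Icc (-(M : ℤ)) M ⊆
      (Finset.range (M + 1)).image (fun n : ℕ => (n : ℤ)) ∪
        (Finset.range (M + 1)).image (fun n : ℕ => -(n : ℤ)) := by
    intro n hn
    rw [Finset.mem_Icc] at hn
    rw [Finset.mem_union, Finset.mem_image, Finset.mem_image]
    rcases le_total 0 n with h | h
    · left
      exact ⟨n.toNat, by rw [Finset.mem_range]; omega, by simp [h]⟩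
    · right
      exact ⟨(-n).toNat, by rw [Finset.mem_range]; omega, by omega⟩
  have hg : ∀ n : ℤ, 0 ≤ f |(n : ℝ)| := fun n => hf _
  have h2 := Finset.sum_le_sum_of_subset_of_nonneg h1 (f := fun n : ℤ => f |(n : ℝ)|)
    (fun n _ _ => hg n)
  have h3 := Finset.sum_union_inter (s₁ := (Finset.range (M + 1)).image (fun n : ℕ => (n : ℤ)))
    (s₂ := (Finset.range (M + 1)).image (fun n : ℕ => -(n : ℤ)))
    (f := fun n : ℤ => f |(n : ℝ)|)
  have h4 : 0 ≤ ∑ n ∈ (Finset.range (M + 1)).image (fun n : ℕ => (n : ℤ)) ∩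
      (Finset.range (M + 1)).image (fun n : ℕ => -(n : ℤ)), f |(n : ℝ)| :=
    Finset.sum_nonneg fun n _ => hg n
  have h5 : ∑ n ∈ (Finset.range (M + 1)).image (fun n : ℕ => (n : ℤ)), f |(n : ℝ)| =
      ∑ n ∈ Finset.range (M + 1), f n := by
    rw [Finset.sum_image (fun a _ b _ h => by simpa using h)]
    refine Finset.sum_congr rfl fun n _ => ?_
    simp
  have h6 : ∑ n ∈ (Finset.range (M + 1)).image (fun n : ℕ => -(n : ℤ)), f |(n : ℝ)| =
      ∑ n ∈ Finset.range (M + 1), f n := by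
    rw [Finset.sum_image (fun a _ b _ h => by simpa using h)]
    refine Finset.sum_congr rfl fun n _ => ?_
    simp
  linarith

theorem one_up (s M : ℕ) (hs : 1 ≤ s) {d : ℝ} (hd : 0 ≤ d) (c : ℝ) :
    (s + 1) * d * ∑ n ∈ Finset.Icc (-(M : ℤ)) M, max 0 (c - d * |(n : ℝ)|) ^ s ≤
      2 * max 0 (c + d) ^ (s + 1) := by
  have h1 := sum_abs M (fun x => max 0 (c - d * x) ^ s) fun x =>
    pow_nonneg (le_max_left _ _) _
  have h2 := one_up' s M hs hd c
  have h3 := mul_le_mul_of_nonneg_left h1 (show (0 : ℝ) ≤ (s + 1) * d by positivity)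
  linarith

theorem up (m r M : ℕ) (hr : 1 ≤ r) (d : Fin m → ℕ) (c : ℝ) :
    ((r + m).factorial : ℝ) * (∏ i, (d i : ℝ)) *
      ∑ ν ∈ Fintype.piFinset (fun _ : Fin m => Finset.Icc (-(M : ℤ)) M),
        max 0 (c - ∑ i, (d i : ℝ) * |(ν i : ℝ)|) ^ r ≤
      2 ^ m * (r.factorial : ℝ) * max 0 (c + ∑ i, (d i : ℝ)) ^ (r + m) := by
  induction m generalizing c with
  | zero => simp
  | succ m ih =>
    rw [sum_pi_succ]
    have h1 : ∀ x ∈ Finset.Icc (-(M : ℤ)) M, ((r + m).factorial : ℝ) *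
        (∏ i, (d (Fin.succ i) : ℝ)) *
        ∑ ν ∈ Fintype.piFinset (fun _ : Fin m => Finset.Icc (-(M : ℤ)) M),
        max 0 (c - ∑ i, (d i : ℝ) * |((Fin.cons x ν : Fin (m + 1) → ℤ) i : ℝ)|) ^ r ≤
        2 ^ m * (r.factorial : ℝ) *
          max 0 (c + ∑ i, (d (Fin.succ i) : ℝ) - d 0 * |(x : ℝ)|) ^ (r + m) := by
      intro x _
      have h2 := ih (fun i => d i.succ) (c - d 0 * |(x : ℝ)|)
      have h3 : ∀ ν : Fin m → ℤ,
          c - ∑ i, (d i : ℝ) * |((Fin.cons x ν : Fin (m + 1) → ℤ) i : ℝ)| =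
          c - d 0 * |(x : ℝ)| - ∑ i, (d (Fin.succ i) : ℝ) * |(ν i : ℝ)| := by
        intro ν
        rw [Fin.sum_univ_succ]
        simp only [Fin.cons_zero, Fin.cons_succ]
        ring
      simp_rw [h3]
      have h4 : c + ∑ i, (d (Fin.succ i) : ℝ) - d 0 * |(x : ℝ)| =
          c - d 0 * |(x : ℝ)| + ∑ i, (d (Fin.succ i) : ℝ) := by ring
      rw [h4]
      exact h2
    have h2 := Finset.sum_le_sum h1
    rw [← Finset.mul_sum, ← Finset.mul_sum] at h2
    have h3 := one_up (r + m) M (by omega) (d := d 0) (Nat.cast_nonneg _)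
      (c + ∑ i, (d (Fin.succ i) : ℝ))
    have h4 := mul_le_mul_of_nonneg_left h2 (show (0 : ℝ) ≤ (r + m + 1) * d 0 by positivity)
    have h5 := mul_le_mul_of_nonneg_left h3 (show (0 : ℝ) ≤ 2 ^ m * (r.factorial : ℝ) by positivity)
    have h6 : (((r + (m + 1)).factorial : ℕ) : ℝ) = (r + m + 1) * ((r + m).factorial : ℝ) := by
      rw [← add_assoc, Nat.factorial_succ]
      push_cast
      ring
    have h7 : c + ∑ i, (d i : ℝ) = c + ∑ i, (d (Fin.succ i) : ℝ) + d 0 := by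
      rw [Fin.sum_univ_succ]
      ring
    rw [h6, Fin.prod_univ_succ, h7, ← add_assoc r m 1]
    push_cast at h5
    refine le_trans (le_of_eq ?_) (h4.trans (le_trans (le_of_eq ?_) (h5.trans (le_of_eq ?_))))
    · ring
    · ring
    · ring

end SumL

theorem sum_low (m r M : ℕ) (a : Fin m → ℝ) (ha : ∀ i, 0 < a i) (c : ℝ)
    (hM : ∀ i, c ≤ M * a i) :
    (r.factorial : ℝ) * max 0 (c - ∑ i, a i) ^ (r + m) ≤
      ((r + m).factorial : ℝ) * (∏ i, a i) * ∑ ν ∈ Bx m M, max 0 (c - ∑ i, a i * ν i) ^ r := by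
  induction m generalizing c with
  | zero => simp [Bx]
  | succ m ih =>
    rw [Bx, SumL.sum_pi_succ]
    have h1 : ∀ x ∈ Finset.Icc 1 M, (r.factorial : ℝ) *
          max 0 (c - ∑ i, a (Fin.succ i) - a 0 * x) ^ (r + m) ≤
        ((r + m).factorial : ℝ) * (∏ i, a (Fin.succ i)) *
        ∑ ν ∈ Fintype.piFinset (fun _ : Fin m => Finset.Icc 1 M),
        max 0 (c - ∑ i, a i * (((Fin.cons x ν : Fin (m + 1) → ℕ) i : ℕ) : ℝ)) ^ r := by
      intro x hx
      have hx0 : (0 : ℝ) ≤ a 0 * x := mul_nonneg (ha 0).le (Nat.cast_nonneg x)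
      have h2 := ih (fun i => a i.succ) (fun i => ha _) (c - a 0 * x)
        (fun i => by have := hM i.succ; linarith)
      have h3 : ∀ ν : Fin m → ℕ,
          c - ∑ i, a i * (((Fin.cons x ν : Fin (m + 1) → ℕ) i : ℕ) : ℝ) =
          c - a 0 * x - ∑ i, a (Fin.succ i) * ν i := by
        intro ν
        rw [Fin.sum_univ_succ]
        simp only [Fin.cons_zero, Fin.cons_succ]
        ring
      simp_rw [h3]
      have h4 : c - ∑ i, a (Fin.succ i) - a 0 * x =
          c - a 0 * x - ∑ i, a (Fin.succ i) := by ring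
      rw [h4]
      exact h2
    have h2 := Finset.sum_le_sum h1
    rw [← Finset.mul_sum, ← Finset.mul_sum] at h2
    have hs : (0 : ℝ) ≤ ∑ i, a (Fin.succ i) := Finset.sum_nonneg fun i _ => (ha _).le
    have h3 := SumL.one_low (r + m) M (ha 0) (c - ∑ i, a (Fin.succ i))
      (by have := hM 0; linarith)
    have ha0 := (ha 0).le
    have h4 := mul_le_mul_of_nonneg_left h2 (show (0 : ℝ) ≤ (r + m + 1) * a 0 by positivity)
    have h5 := mul_le_mul_of_nonneg_left h3 (show (0 : ℝ) ≤ (r.factorial : ℝ) by positivity)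
    have h6 : (((r + (m + 1)).factorial : ℕ) : ℝ) = (r + m + 1) * ((r + m).factorial : ℝ) := by
      rw [← add_assoc, Nat.factorial_succ]
      push_cast
      ring
    have h7 : c - ∑ i, a i = c - ∑ i, a (Fin.succ i) - a 0 := by
      rw [Fin.sum_univ_succ]
      ring
    rw [h6, Fin.prod_univ_succ, h7, ← add_assoc r m 1]
    push_cast at h5
    refine le_trans h5 (le_trans (le_of_eq ?_) (h4.trans (le_of_eq ?_)))
    · ring
    · ring

theorem count_low (m M : ℕ) (a : Fin m → ℝ) (ha : ∀ i, 0 < a i) (c : ℝ) (hc : 0 < c) :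
    (∏ i, a i) * (((Bx m M).filter fun ν => ∑ i, a i * ν i < c).card : ℝ) ≤ c ^ m := by
  have h1 : ((Bx m M).filter fun ν => ∑ i, a i * ν i < c) ⊆
      Fintype.piFinset fun i => Finset.Icc 1 ⌊c / a i⌋₊ := by
    intro ν hν
    rw [Finset.mem_filter, Bx, Fintype.mem_piFinset] at hν
    rw [Fintype.mem_piFinset]
    intro i
    rw [Finset.mem_Icc]
    refine ⟨(Finset.mem_Icc.1 (hν.1 i)).1, Nat.le_floor ?_⟩
    rw [le_div_iff₀ (ha i)]
    have h2 := Finset.single_le_sum (f := fun i => a i * (ν i : ℝ))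
      (fun j _ => mul_nonneg (ha j).le (Nat.cast_nonneg _)) (Finset.mem_univ i)
    have h3 := hν.2
    linarith [mul_comm (a i) (ν i : ℝ)]
  have h2 := Finset.card_le_card h1
  rw [Fintype.card_piFinset] at h2
  have h3 : (((Bx m M).filter fun ν => ∑ i, a i * ν i < c).card : ℝ) ≤
      ∏ i, (c / a i) := by
    refine le_trans (Nat.cast_le.2 h2) ?_
    push_cast
    refine Finset.prod_le_prod (fun i _ => Nat.cast_nonneg _) fun i _ => ?_
    rw [Nat.card_Icc, Nat.add_sub_cancel]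
    exact Nat.floor_le (div_nonneg hc.le (ha i).le)
  calc (∏ i, a i) * (((Bx m M).filter fun ν => ∑ i, a i * ν i < c).card : ℝ)
      ≤ (∏ i, a i) * ∏ i, (c / a i) :=
        mul_le_mul_of_nonneg_left h3 (Finset.prod_nonneg fun i _ => (ha i).le)
    _ = c ^ m := by
        rw [← Finset.prod_mul_distrib, Finset.prod_congr rfl fun i _ =>
          mul_div_cancel₀ c (ha i).ne']
        simp

/-- Sums over all integer vectors in a box. -/
theorem sum_up (m r M : ℕ) (hr : 1 ≤ r) (d : Fin m → ℕ) (hd : ∀ i, 1 ≤ d i) (c : ℝ) (hc : 0 ≤ c) :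
    ((r + m).factorial : ℝ) * (∏ i, (d i : ℝ)) *
      ∑ ν ∈ Fintype.piFinset (fun _ : Fin m => Finset.Icc (-(M : ℤ)) M),
        max 0 (c - ∑ i, (d i : ℝ) * |(ν i : ℝ)|) ^ r ≤
      2 ^ m * (r.factorial : ℝ) * (c + ∑ i, (d i : ℝ)) ^ (r + m) := by
  have h1 := SumL.up m r M hr d c
  have h2 : 0 ≤ c + ∑ i, (d i : ℝ) := add_nonneg hc (Finset.sum_nonneg fun i _ => Nat.cast_nonneg _)
  rw [max_eq_right h2] at h1
  exact h1

end CX

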