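import Pool.Agent.Lib.MP_9e8926_ag_CX.Defs
import Pool.Agent.Lib.MP_9e8926_ag_LP.Defs

set_option autoImplicit false

noncomputable section

namespace CX

open MvPolynomial

variable {k : Type*} [CommRing k] {m : ℕ}

/-- Polynomials in `z, w`. -/
abbrev P (k : Type*) [CommRing k] : Type _ := MvPolynomial (Fin 2) k

/-- Laurent polynomials in `x₁,…,x_m` over `k[z,w]`. -/
abbrev Lam (k : Type*) [CommRing k] (m : ℕ) : Type _ := AddMonoidAlgebra (P k) (Fin m → ℤ)

/-- `∏ g_i ^ (ν_i)^-`. -/
def gam (g : Fin m → P k) (ν : Fin m → ℤ) : P k := ∏ i, g i ^ (-(ν i)).toNat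

/-- The map `x_i ↦ x_i`, `y_i ↦ g_i / x_i`. -/
def Th (g : Fin m → P k) : MvPolynomial (Vr m) k →ₐ[k] Lam k m :=
  aeval (Sum.elim (fun i => AddMonoidAlgebra.single (Pi.single i 1) 1)
    (Sum.elim (fun i => AddMonoidAlgebra.single (Pi.single i (-1)) (g i))
      (fun j => AddMonoidAlgebra.single 0 (X j))))

theorem Th_rename (g : Fin m → P k) (a : P k) :
    Th g (rename (fun j => Sum.inr (Sum.inr j)) a) = AddMonoidAlgebra.single 0 a := by
  induction a using MvPolynomial.induction_on with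
  | C c =>
    rw [rename_C, Th, aeval_C]
    simp [AddMonoidAlgebra.coe_algebraMap, MvPolynomial.algebraMap_eq]
  | add a b ha hb => rw [map_add, map_add, ha, hb, AddMonoidAlgebra.single_add]
  | mul_X a j ha =>
    rw [map_mul, map_mul, ha, rename_X, Th, aeval_X]
    simp [AddMonoidAlgebra.single_mul_single]

theorem Th_rel (g : Fin m → P k) (a : MvPolynomial (Vr m) k) (ha : a ∈ rel g) : Th g a = 0 := by
  have h : rel g ≤ RingHom.ker (Th g) := by
    unfold rel
    rw [Ideal.span_le]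
    rintro _ ⟨i, rfl⟩
    rw [SetLike.mem_coe, RingHom.mem_ker, map_sub, map_mul, Th_rename]
    have h1 : Th g (X (Sum.inl i)) = AddMonoidAlgebra.single (Pi.single i 1) 1 := by
      rw [Th, aeval_X, Sum.elim_inl]
    have h2 : Th g (X (Sum.inr (Sum.inl i))) =
        AddMonoidAlgebra.single (Pi.single i (-1)) (g i) := by
      rw [Th, aeval_X, Sum.elim_inr, Sum.elim_inl]
    rw [h1, h2, AddMonoidAlgebra.single_mul_single, one_mul]
    have h3 : (Pi.single i (1 : ℤ) + Pi.single i (-1 : ℤ) : Fin m → ℤ) = 0 := by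
      rw [← Pi.single_add]
      simp
    rw [h3, sub_self]
  exact h ha

/-- The coordinate ring as a subring of the Laurent polynomials. -/
def jj (g : Fin m → P k) : Rg g →ₐ[k] Lam k m := Ideal.Quotient.liftₐ (rel g) (Th g) (Th_rel g)

/-- The coefficient of `x^ν`. -/
def cf (g : Fin m → P k) (ν : Fin m → ℤ) : Rg g →ₗ[k] P k where
  toFun r := (jj g r).coeff ν
  map_add' a b := by rw [map_add, AddMonoidAlgebra.coeff_add, Finsupp.add_apply]
  map_smul' c a := by
    rw [map_smul, AddMonoidAlgebra.coeff_smul, Finsupp.smul_apply, RingHom.id_apply]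

/-- The polynomial `a(z,w)` as an element of the coordinate ring. -/
def ci (g : Fin m → P k) (a : P k) : Rg g :=
  Ideal.Quotient.mk (rel g) (rename (fun j => Sum.inr (Sum.inr j)) a)

/-- The element `x^(ν^+) y^(ν^-)`. -/
def E (g : Fin m → P k) (ν : Fin m → ℤ) : Rg g :=
  Ideal.Quotient.mk (rel g) (∏ i, (X (Sum.inl i) ^ (ν i).toNat *
    X (Sum.inr (Sum.inl i)) ^ (-(ν i)).toNat))

end CX
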