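import Pool.Agent.Lib.MP_9e8926_ag_CX.Ker

set_option autoImplicit false

noncomputable section

namespace CX

open MvPolynomial

variable {k : Type*} [Field k] {m : ℕ} (g : Fin m → P k)

theorem gam_zero : gam g 0 = 1 := by
  unfold gam
  simp

theorem gam_ne_zero (hg : ∀ i, g i ≠ 0) (ν : Fin m → ℤ) : gam g ν ≠ 0 := by
  unfold gam
  exact Finset.prod_ne_zero_iff.mpr fun i _ => pow_ne_zero _ (hg i)

theorem gam_add_dvd (ν μ : Fin m → ℤ) : gam g (ν + μ) ∣ gam g ν * gam g μ := by
  unfold gam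
  rw [← Finset.prod_mul_distrib]
  refine Finset.prod_dvd_prod_of_dvd _ _ fun i _ => ?_
  rw [← pow_add]
  refine pow_dvd_pow _ ?_
  rw [Pi.add_apply]
  omega

theorem gam_nsmul (q : ℕ) (ν : Fin m → ℤ) : gam g (q • ν) = gam g ν ^ q := by
  unfold gam
  rw [← Finset.prod_pow]
  refine Finset.prod_congr rfl fun i _ => ?_
  rw [← pow_mul]
  congr 1
  rw [Pi.smul_apply, nsmul_eq_mul, ← mul_neg, mul_comm]
  rcases le_or_gt 0 (-(ν i)) with h | h
  · rw [Int.toNat_mul h (Int.natCast_nonneg q), Int.toNat_natCast]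
  · have h1 : (-(ν i)).toNat = 0 := Int.toNat_eq_zero.mpr h.le
    rw [h1, zero_mul, Int.toNat_eq_zero]
    exact mul_nonpos_of_nonpos_of_nonneg h.le (Int.natCast_nonneg q)

private theorem cf_def (ν : Fin m → ℤ) (r : Rg g) : cf g ν r = (jj g r).coeff ν := rfl

theorem cf_ext (hg : ∀ i, g i ≠ 0) (r s : Rg g) (h : ∀ ν, cf g ν r = cf g ν s) : r = s := by
  apply jj_injective g hg
  apply AddMonoidAlgebra.ext
  ext1 ν
  exact h ν

theorem cf_finite (r : Rg g) : {ν | cf g ν r ≠ 0}.Finite := by
  have : {ν | cf g ν r ≠ 0} = ↑((jj g r).coeff.support) := by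
    ext ν
    rw [Finset.mem_coe, Finsupp.mem_support_iff]
    rfl
  rw [this]
  exact Finset.finite_toSet _

private theorem cf_coeff_single_mul (ν μ : Fin m → ℤ) (a : P k) (x : Lam k m) :
    (AddMonoidAlgebra.single ν a * x).coeff μ = a * x.coeff (μ - ν) :=
  AddMonoidAlgebra.coeff_single_mul_eq_mul_coeff (μ - ν) (fun c _ => by
    constructor
    · rintro rfl
      abel
    · rintro rfl
      abel)

theorem cf_E_mul (ν μ : Fin m → ℤ) (r : Rg g) :
    cf g μ (E g ν * r) = gam g ν * cf g (μ - ν) r := by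
  rw [cf_def, map_mul, jj_E, cf_coeff_single_mul]
  rfl

theorem cf_ci_mul (a : P k) (ν : Fin m → ℤ) (r : Rg g) : cf g ν (ci g a * r) = a * cf g ν r := by
  rw [cf_def, map_mul, jj_ci, cf_coeff_single_mul, sub_zero]
  rfl

theorem cf_one (ν : Fin m → ℤ) : cf g ν (1 : Rg g) = if ν = 0 then 1 else 0 := by
  rw [cf_def, map_one, AddMonoidAlgebra.one_def, AddMonoidAlgebra.coeff_single]
  by_cases h : ν = 0
  · rw [if_pos h, h, Finsupp.single_eq_same]
  · rw [if_neg h, Finsupp.single_eq_of_ne h]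

theorem cf_E (ν μ : Fin m → ℤ) : cf g μ (E g ν) = if μ = ν then gam g ν else 0 := by
  rw [cf_def, jj_E, AddMonoidAlgebra.coeff_single]
  by_cases h : μ = ν
  · rw [if_pos h, h, Finsupp.single_eq_same]
  · rw [if_neg h, Finsupp.single_eq_of_ne h]

private theorem cf_ci_mul_E (a : P k) (ν μ : Fin m → ℤ) :
    cf g μ (ci g a * E g ν) = if μ = ν then a * gam g ν else 0 := by
  rw [cf_ci_mul, cf_E]
  split_ifs <;> simp

private theorem cf_sum_normal (s : Finset (Fin m → ℤ)) (δ : (Fin m → ℤ) → P k) (μ : Fin m → ℤ) :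
    cf g μ (∑ ν ∈ s, ci g (δ ν) * E g ν) = if μ ∈ s then δ μ * gam g μ else 0 := by
  rw [map_sum]
  simp only [cf_ci_mul_E]
  by_cases h : μ ∈ s
  · rw [if_pos h, Finset.sum_eq_single μ]
    · rw [if_pos rfl]
    · intro ν _ hν
      rw [if_neg (Ne.symm hν)]
    · intro h'
      exact absurd h h'
  · rw [if_neg h]
    refine Finset.sum_eq_zero fun ν hν => ?_
    rw [if_neg]
    rintro rfl
    exact h hν

theorem gam_dvd_cf (ν : Fin m → ℤ) (r : Rg g) : gam g ν ∣ cf g ν r := by
  obtain ⟨s, δ, rfl⟩ := exists_normal g r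
  rw [cf_sum_normal]
  split_ifs
  · exact Dvd.intro_left _ rfl
  · exact dvd_zero _

/-- Elements with prescribed coefficients. -/
theorem exists_cf (s : Finset (Fin m → ℤ)) (h : (Fin m → ℤ) → P k)
    (hs : ∀ ν, ν ∉ s → h ν = 0) (hd : ∀ ν, gam g ν ∣ h ν) : ∃ r : Rg g, ∀ ν, cf g ν r = h ν := by
  choose δ hδ using hd
  refine ⟨∑ ν ∈ s, ci g (δ ν) * E g ν, fun ν => ?_⟩
  rw [cf_sum_normal]
  split_ifs with h1
  · rw [hδ ν, mul_comm]
  · rw [hs ν h1]

theorem cf_mul (r s : Rg g) (t : Finset (Fin m → ℤ)) (ht : ∀ ν, ν ∉ t → cf g ν r = 0)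
    (ν : Fin m → ℤ) : cf g ν (r * s) = ∑ μ ∈ t, cf g μ r * cf g (ν - μ) s := by
  have h1 : jj g r = ∑ μ ∈ t, AddMonoidAlgebra.single μ (cf g μ r) := by
    apply AddMonoidAlgebra.ext
    ext1 μ
    rw [AddMonoidAlgebra.coeff_sum, Finsupp.finset_sum_apply]
    simp only [AddMonoidAlgebra.coeff_single]
    by_cases h : μ ∈ t
    · rw [Finset.sum_eq_single μ (fun κ _ hκ => Finsupp.single_eq_of_ne (Ne.symm hκ))
        (fun h' => absurd h h'), Finsupp.single_eq_same]
      rfl
    · rw [Finset.sum_eq_zero]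
      · exact ht μ h
      · intro κ hκ
        refine Finsupp.single_eq_of_ne ?_
        rintro rfl
        exact h hκ
  rw [cf_def, map_mul, h1, Finset.sum_mul, AddMonoidAlgebra.coeff_sum, Finsupp.finset_sum_apply]
  exact Finset.sum_congr rfl fun μ _ => cf_coeff_single_mul μ ν _ _

/-- The expansion of an element. -/
theorem expand (hg : ∀ i, g i ≠ 0) (r : Rg g) (s : Finset (Fin m → ℤ))
    (hs : ∀ ν, ν ∉ s → cf g ν r = 0) :
    ∃ δ : (Fin m → ℤ) → P k, (∀ ν, cf g ν r = gam g ν * δ ν) ∧
      r = ∑ ν ∈ s, ci g (δ ν) * E g ν := by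
  choose δ hδ using fun ν => gam_dvd_cf g ν r
  refine ⟨δ, hδ, ?_⟩
  apply cf_ext g hg
  intro ν
  rw [cf_sum_normal]
  split_ifs with h1
  · rw [hδ ν, mul_comm]
  · rw [hs ν h1]

private theorem ci_mem_of_const (a : P k) (ha : constantCoeff a = 0) : ci g a ∈ mX g := by
  let f : P k →+* Rg g := (Ideal.Quotient.mk (rel g)).comp
    (rename (fun j => Sum.inr (Sum.inr j)) : P k →ₐ[k] MvPolynomial (Vr m) k).toRingHom
  have hX : ∀ j, X j ∈ (mX g).comap f := by
    intro j
    rw [Ideal.mem_comap]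
    have : f (X j) = Ideal.Quotient.mk (rel g) (X (Sum.inr (Sum.inr j))) := by
      show Ideal.Quotient.mk (rel g) (rename (fun j => Sum.inr (Sum.inr j)) (X j)) = _
      rw [rename_X]
    rw [this]
    exact Ideal.subset_span ⟨Sum.inr (Sum.inr j), rfl⟩
  have h1 : a ∈ (mX g).comap f := by
    rw [a.as_sum]
    refine Ideal.sum_mem _ fun u hu => ?_
    have hu0 : u ≠ 0 := by
      rintro rfl
      exact (mem_support_iff.mp hu) ha
    obtain ⟨j, hj⟩ := Finsupp.ne_iff.mp hu0
    have h2 : monomial u (coeff u a) = monomial (u - Finsupp.single j 1) (coeff u a) * X j := by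
      rw [X, monomial_mul, mul_one]
      congr 1
      rw [tsub_add_cancel_of_le]
      rw [Finsupp.single_le_iff]
      exact Nat.one_le_iff_ne_zero.mpr hj
    rw [h2]
    exact Ideal.mul_mem_left _ _ (hX j)
  exact h1

private theorem E_mem_of_ne (ν : Fin m → ℤ) (hν : ν ≠ 0) : E g ν ∈ mX g := by
  obtain ⟨i, hi⟩ := Function.ne_iff.mp hν
  rw [Pi.zero_apply] at hi
  rw [E, map_prod]
  refine Ideal.prod_mem _ (i := i) (Finset.mem_univ i) ?_
  rw [map_mul, map_pow, map_pow]
  rcases lt_or_gt_of_ne hi with h | h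
  · have hx : Ideal.Quotient.mk (rel g) (X (Sum.inr (Sum.inl i))) ∈ mX g :=
      Ideal.subset_span ⟨Sum.inr (Sum.inl i), rfl⟩
    refine Ideal.mul_mem_left _ _ (Ideal.pow_mem_of_mem _ hx _ ?_)
    omega
  · have hx : Ideal.Quotient.mk (rel g) (X (Sum.inl i)) ∈ mX g :=
      Ideal.subset_span ⟨Sum.inl i, rfl⟩
    refine Ideal.mul_mem_right _ _ (Ideal.pow_mem_of_mem _ hx _ ?_)
    omega

theorem mem_mX (hg0 : ∀ i, constantCoeff (g i) = 0) (r : Rg g) :
    r ∈ mX g ↔ constantCoeff (cf g 0 r) = 0 := by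
  classical
  constructor
  · intro h
    unfold mX at h
    refine Submodule.span_induction ?_ ?_ ?_ ?_ h
    · rintro _ ⟨v, rfl⟩
      rcases v with i | i | j
      · have h1 : Ideal.Quotient.mk (rel g) (X (Sum.inl i)) = E g (Pi.single i 1) := by
          rw [E, map_prod]
          rw [Finset.prod_eq_single i]
          · simp
          · intro j _ hj
            simp [Pi.single_eq_of_ne hj]
          · intro h'
            exact absurd (Finset.mem_univ i) h'
        show constantCoeff (cf g 0 (Ideal.Quotient.mk (rel g) (X (Sum.inl i)))) = 0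
        rw [h1, cf_E, if_neg, map_zero]
        intro h2
        have h3 := congrFun h2 i
        rw [Pi.zero_apply, Pi.single_eq_same] at h3
        exact zero_ne_one h3
      · have h1 : Ideal.Quotient.mk (rel g) (X (Sum.inr (Sum.inl i))) = E g (Pi.single i (-1)) := by
          rw [E, map_prod]
          rw [Finset.prod_eq_single i]
          · simp
          · intro j _ hj
            simp [Pi.single_eq_of_ne hj]
          · intro h'
            exact absurd (Finset.mem_univ i) h'
        show constantCoeff (cf g 0 (Ideal.Quotient.mk (rel g) (X (Sum.inr (Sum.inl i))))) = 0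
        rw [h1, cf_E, if_neg, map_zero]
        intro h2
        have h3 := congrFun h2 i
        rw [Pi.zero_apply, Pi.single_eq_same] at h3
        omega
      · have h1 : Ideal.Quotient.mk (rel g) (X (Sum.inr (Sum.inr j))) = ci g (X j) * 1 := by
          rw [mul_one, ci, rename_X]
        show constantCoeff (cf g 0 (Ideal.Quotient.mk (rel g) (X (Sum.inr (Sum.inr j))))) = 0
        rw [h1, cf_ci_mul, map_mul, constantCoeff_X, zero_mul]
    · rw [map_zero, map_zero]
    · intro a b _ _ ha hb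
      rw [map_add, map_add, ha, hb, add_zero]
    · intro a b _ hb
      rw [smul_eq_mul, mul_comm]
      obtain ⟨s, hs⟩ := (cf_finite g b).exists_finset_coe
      have hs' : ∀ ν, ν ∉ s → cf g ν b = 0 := by
        intro ν hν
        by_contra h'
        exact hν (by
          have : ν ∈ (↑s : Set (Fin m → ℤ)) := by rw [hs]; exact h'
          exact this)
      rw [cf_mul g b a s hs', map_sum]
      refine Finset.sum_eq_zero fun μ _ => ?_
      rw [zero_sub, map_mul]
      by_cases hμ : μ = 0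
      · rw [hμ, hb, zero_mul]
      · obtain ⟨c, hc⟩ := gam_dvd_cf g μ b
        obtain ⟨c', hc'⟩ := gam_dvd_cf g (-μ) a
        rw [hc, hc', map_mul, map_mul]
        obtain ⟨i, hi⟩ := Function.ne_iff.mp hμ
        rw [Pi.zero_apply] at hi
        rcases lt_or_gt_of_ne hi with h | h
        · have : constantCoeff (gam g μ) = 0 := by
            unfold gam
            rw [map_prod]
            refine Finset.prod_eq_zero (Finset.mem_univ i) ?_
            rw [map_pow, hg0 i, zero_pow]
            omega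
          rw [this]
          ring
        · have : constantCoeff (gam g (-μ)) = 0 := by
            unfold gam
            rw [map_prod]
            refine Finset.prod_eq_zero (Finset.mem_univ i) ?_
            rw [map_pow, hg0 i, zero_pow]
            rw [Pi.neg_apply]
            omega
          rw [this]
          ring
  · intro h
    obtain ⟨s, δ, hs⟩ := exists_normal g r
    rw [hs]
    refine Ideal.sum_mem _ fun ν hν => ?_
    by_cases h0 : ν = 0
    · refine Ideal.mul_mem_right _ _ (ci_mem_of_const g _ ?_)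
      rw [hs, cf_sum_normal, if_pos (h0 ▸ hν), gam_zero, mul_one] at h
      rw [h0]
      exact h
    · exact Ideal.mul_mem_left _ _ (E_mem_of_ne g ν h0)

theorem cf_zero_mem_pow (hg0 : ∀ i, constantCoeff (g i) = 0) (a : P k) (N : ℕ)
    (ha : a ∈ LP.m0 2 k ^ N) (r : Rg g) : ci g a * r ∈ mX g ^ N := by
  let f : P k →+* Rg g := (Ideal.Quotient.mk (rel g)).comp
    (rename (fun j => Sum.inr (Sum.inr j)) : P k →ₐ[k] MvPolynomial (Vr m) k).toRingHom
  have h1 : LP.m0 2 k ≤ (mX g).comap f := by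
    intro b hb
    exact ci_mem_of_const g b (RingHom.mem_ker.mp hb)
  have h2 : (LP.m0 2 k ^ N).map f ≤ mX g ^ N := by
    rw [Ideal.map_pow]
    exact Ideal.pow_right_mono (Ideal.map_le_iff_le_comap.mpr h1) N
  exact Ideal.mul_mem_right _ _ (h2 (Ideal.mem_map_of_mem f ha))

end CX
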