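import Pool.Agent.Lib.MP_9e8926_ag_CX.Cf

set_option autoImplicit false

noncomputable section

namespace CX

open MvPolynomial

variable {k : Type*} [Field k] {m : ℕ} (g : Fin m → P k) (p : ℕ) [Fact p.Prime] [CharP k p]

private theorem cfF_smul_inj (hp : 0 < p) (e : ℕ) {ν μ : Fin m → ℤ}
    (h : p ^ e • ν = p ^ e • μ) : ν = μ := by
  have hq : (0:ℤ) < ((p ^ e : ℕ) : ℤ) := by exact_mod_cast pow_pos hp e
  funext i
  have h1 := congrFun h i
  simp only [Pi.smul_apply, nsmul_eq_mul] at h1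
  exact mul_left_cancel₀ hq.ne' h1

private theorem cfF_pow (e : ℕ) (f : Lam k m) :
    f ^ p ^ e = ∑ ν ∈ f.coeff.support,
      AddMonoidAlgebra.single (p ^ e • ν) (f.coeff ν ^ p ^ e) := by
  haveI : CharP (Lam k m) p := charP_of_injective_algebraMap
    (algebraMap k (Lam k m)).injective p
  haveI : ExpChar (Lam k m) p := ExpChar.prime Fact.out
  have h1 : f = ∑ ν ∈ f.coeff.support, AddMonoidAlgebra.single ν (f.coeff ν) :=
    (AddMonoidAlgebra.sum_coeff_single f).symm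
  conv_lhs => rw [h1]
  rw [sum_pow_char_pow]
  exact Finset.sum_congr rfl fun ν _ => AddMonoidAlgebra.single_pow _ _ _

theorem cf_pow (e : ℕ) (ν : Fin m → ℤ) (r : Rg g) :
    cf g (p ^ e • ν) (r ^ p ^ e) = cf g ν r ^ p ^ e := by
  have hp : 0 < p := (Fact.out : p.Prime).pos
  have hq : p ^ e ≠ 0 := (pow_pos hp e).ne'
  show (jj g (r ^ p ^ e)).coeff (p ^ e • ν) = (jj g r).coeff ν ^ p ^ e
  rw [map_pow, cfF_pow p e (jj g r), AddMonoidAlgebra.coeff_sum, Finsupp.finset_sum_apply]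
  simp only [AddMonoidAlgebra.coeff_single_apply]
  by_cases hν : ν ∈ (jj g r).coeff.support
  · rw [Finset.sum_eq_single_of_mem ν hν]
    · rw [if_pos rfl]
    · intro μ _ hμ
      rw [if_neg]
      intro h
      exact hμ (cfF_smul_inj p hp e h)
  · rw [Finsupp.notMem_support_iff.1 hν, zero_pow hq]
    refine Finset.sum_eq_zero fun μ hμ => ?_
    rw [if_neg]
    intro h
    rw [cfF_smul_inj p hp e h] at hμ
    exact hν hμ

theorem cf_pow_zero (e : ℕ) (μ : Fin m → ℤ) (hμ : ∀ ν : Fin m → ℤ, μ ≠ p ^ e • ν) (r : Rg g) :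
    cf g μ (r ^ p ^ e) = 0 := by
  show (jj g (r ^ p ^ e)).coeff μ = 0
  rw [map_pow, cfF_pow p e (jj g r), AddMonoidAlgebra.coeff_sum, Finsupp.finset_sum_apply]
  simp only [AddMonoidAlgebra.coeff_single_apply]
  refine Finset.sum_eq_zero fun ν _ => ?_
  rw [if_neg]
  intro h
  exact hμ ν h.symm

/-- A `p^{-e}`-linear map of `k[z,w]` extends to the coordinate ring. -/
theorem exists_ext (hg : ∀ i, g i ≠ 0) (e : ℕ) (ψ : P k →+ P k)
    (hψ : ∀ a b, ψ (a ^ p ^ e * b) = a * ψ b) :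
    ∃ φ : Rg g →+ Rg g, (∀ a b, φ (a ^ p ^ e * b) = a * φ b) ∧
      ∀ (r : Rg g) (ν : Fin m → ℤ), cf g ν (φ r) = ψ (cf g (p ^ e • ν) r) := by
  classical
  have hp : 0 < p := (Fact.out : p.Prime).pos
  have hq : p ^ e ≠ 0 := (pow_pos hp e).ne'
  have hex : ∀ r : Rg g, ∃ r' : Rg g, ∀ ν, cf g ν r' = ψ (cf g (p ^ e • ν) r) := by
    intro r
    refine exists_cf g ((cf_finite g r).toFinset.preimage (fun ν => p ^ e • ν) ?_)
      (fun ν => ψ (cf g (p ^ e • ν) r)) ?_ ?_
    · intro a _ b _ hab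
      exact cfF_smul_inj p hp e hab
    · intro ν hν
      rw [Finset.mem_preimage, Set.Finite.mem_toFinset] at hν
      have h1 : cf g (p ^ e • ν) r = 0 := by
        by_contra hcon
        exact hν hcon
      rw [h1, map_zero]
    · intro ν
      obtain ⟨b, hb⟩ := gam_dvd_cf g (p ^ e • ν) r
      rw [hb, gam_nsmul, hψ]
      exact Dvd.intro _ rfl
  choose φ hφ using hex
  refine ⟨⟨⟨φ, ?_⟩, ?_⟩, ?_, ?_⟩
  · refine cf_ext g hg _ _ fun ν => ?_
    rw [hφ, map_zero, map_zero, map_zero]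
  · intro a b
    refine cf_ext g hg _ _ fun ν => ?_
    show cf g ν (φ (a + b)) = cf g ν (φ a + φ b)
    rw [hφ, map_add, map_add, map_add, hφ, hφ]
  · intro a b
    show φ (a ^ p ^ e * b) = a * φ b
    refine cf_ext g hg _ _ fun ν => ?_
    have ha0 : ∀ μ, μ ∉ (cf_finite g a).toFinset → cf g μ a = 0 := by
      intro μ hμ
      rw [Set.Finite.mem_toFinset] at hμ
      by_contra hcon
      exact hμ hcon
    have hinj : Set.InjOn (fun ν : Fin m → ℤ => p ^ e • ν)
        ((cf_finite g a).toFinset : Set (Fin m → ℤ)) := by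
      intro x _ y _ hxy
      exact cfF_smul_inj p hp e hxy
    rw [hφ, cf_mul g (a ^ p ^ e) b ((cf_finite g a).toFinset.image (fun ν => p ^ e • ν)) ?_
      (p ^ e • ν), cf_mul g a (φ b) (cf_finite g a).toFinset ha0 ν, Finset.sum_image hinj,
      map_sum]
    · refine Finset.sum_congr rfl fun μ _ => ?_
      rw [cf_pow, hψ, hφ, smul_sub]
    · intro μ hμ
      by_cases h1 : ∃ ν : Fin m → ℤ, μ = p ^ e • ν
      · obtain ⟨ν', rfl⟩ := h1
        rw [cf_pow, ha0 ν', zero_pow hq]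
        intro h2
        exact hμ (Finset.mem_image_of_mem _ h2)
      · push Not at h1
        exact cf_pow_zero g p e μ h1 a
  · intro r ν
    exact hφ r ν

end CX
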