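import Mathlib

/-!
# Frobenius volumes and normalized volumes of the singularities `x_i y_i = g_i(z, w)`
-/

set_option autoImplicit false

noncomputable section

namespace CX

open MvPolynomial Filter MeasureTheory

/-! ## Ideals -/

/-- An ideal `I` which is primary to the maximal ideal `𝔪`. -/
def IsPrim {R : Type*} [CommRing R] (𝔪 I : Ideal R) : Prop := I ≤ 𝔪 ∧ ∃ N : ℕ, 𝔪 ^ N ≤ I

/-- The Hilbert-Samuel multiplicity of an ideal in a ring of dimension `n` over `k`. -/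
def emult (k : Type*) [CommRing k] (n : ℕ) {R : Type*} [CommRing R] [Algebra k R]
    (I : Ideal R) : ℝ :=
  limsup (fun N : ℕ => (n.factorial : ℝ) * (Module.finrank k (R ⧸ I ^ N) : ℝ) / (N : ℝ) ^ n) atTop

/-! ## Characteristic `p` -/

/-- Strong `F`-regularity of the pair `(Spec R, I^t)` at the point with maximal ideal `𝔪`. -/
def SFR {R : Type*} [CommRing R] (p : ℕ) (𝔪 I : Ideal R) (t : ℝ) : Prop :=
  ∀ d : R, d ≠ 0 → ∃ e : ℕ, 1 ≤ e ∧ ∃ φ : R →+ R, (∀ a b, φ (a ^ p ^ e * b) = a * φ b) ∧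
    ∃ a ∈ I ^ ⌈t * ((p ^ e : ℕ) - 1 : ℝ)⌉₊, φ (d * a) ∉ 𝔪

/-- The `F`-pure threshold of `I`. -/
def fpt {R : Type*} [CommRing R] (p : ℕ) (𝔪 I : Ideal R) : ℝ := sSup {t : ℝ | 0 ≤ t ∧ SFR p 𝔪 I t}

/-- The Frobenius volume of a ring of dimension `n` over `k` at a maximal ideal. -/
def FvolR (k : Type*) [CommRing k] (n : ℕ) {R : Type*} [CommRing R] [Algebra k R] (p : ℕ)
    (𝔪 : Ideal R) : ℝ :=
  sInf {v : ℝ | ∃ I : Ideal R, IsPrim 𝔪 I ∧ v = emult k n I * fpt p 𝔪 I ^ n}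

/-! ## The singularities -/

/-- The variables `x₁,…,x_m`, `y₁,…,y_m` and `z, w`. -/
abbrev Vr (m : ℕ) : Type := Fin m ⊕ Fin m ⊕ Fin 2

/-- The ideal generated by the polynomials `x_i y_i - g_i(z,w)`. -/
def rel {k : Type*} [CommRing k] {m : ℕ} (g : Fin m → MvPolynomial (Fin 2) k) :
    Ideal (MvPolynomial (Vr m) k) :=
  Ideal.span (Set.range fun i => X (Sum.inl i) * X (Sum.inr (Sum.inl i)) -
    rename (fun j => Sum.inr (Sum.inr j)) (g i))

/-- The coordinate ring of `x_i y_i = g_i(z,w)`, `i = 1,…,m`. -/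
abbrev Rg {k : Type*} [CommRing k] {m : ℕ} (g : Fin m → MvPolynomial (Fin 2) k) : Type _ :=
  MvPolynomial (Vr m) k ⧸ rel g

/-- The maximal ideal of the origin. -/
def mX {k : Type*} [CommRing k] {m : ℕ} (g : Fin m → MvPolynomial (Fin 2) k) : Ideal (Rg g) :=
  Ideal.span (Set.range fun v => Ideal.Quotient.mk (rel g) (X v))

/-- The Frobenius volume of `x_i y_i = g_i(z,w)` at the origin. -/
def Fvol {k : Type*} [CommRing k] (p : ℕ) {m : ℕ} (g : Fin m → MvPolynomial (Fin 2) k) : ℝ :=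
  FvolR k (m + 2) p (mX g)

/-! ## Characteristic zero -/

/-- The point `(x, g(z,w)/x, z, w)`. -/
def pt {m : ℕ} (g : Fin m → MvPolynomial (Fin 2) ℂ) (u : (Fin m → ℂ) × (Fin 2 → ℂ)) : Vr m → ℂ :=
  Sum.elim u.1 (Sum.elim (fun i => eval u.2 (g i) / u.1 i) u.2)

/-- The points `(x,z,w)` with all `x_i ≠ 0` for which `(x, g(z,w)/x, z, w)` has distance less than
`ρ` from the origin. -/
def nbh {m : ℕ} (g : Fin m → MvPolynomial (Fin 2) ℂ) (ρ : ℝ) : Set ((Fin m → ℂ) × (Fin 2 → ℂ)) :=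
  {u | (∀ i, u.1 i ≠ 0) ∧ ∀ v, ‖pt g u v‖ < ρ}

/-- The log canonical threshold of an ideal `I` at the origin: the supremum of all `t ≥ 0` such
that, for generators `h` of `I`, the function `(∑ |h|²)^{-t}` is integrable near the origin with
respect to the volume form of `∏ dx_i/x_i ∧ dz ∧ dw`. -/
def lct {m : ℕ} (g : Fin m → MvPolynomial (Fin 2) ℂ) (I : Ideal (Rg g)) : ℝ :=
  sSup {t : ℝ | 0 ≤ t ∧ ∃ Γ : Finset (MvPolynomial (Vr m) ℂ),
    Ideal.span (Ideal.Quotient.mk (rel g) '' (Γ : Set (MvPolynomial (Vr m) ℂ))) = I ∧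
    ∃ ρ : ℝ, 0 < ρ ∧ IntegrableOn (fun u => (∏ i, ‖u.1 i‖ ^ (-2 : ℝ)) *
      (∑ h ∈ Γ, ‖eval (pt g u) h‖ ^ 2) ^ (-t)) (nbh g ρ)}

/-- The normalized volume of `x_i y_i = g_i(z,w)` at the origin (Liu's formula). -/
def volhat {m : ℕ} (g : Fin m → MvPolynomial (Fin 2) ℂ) : ℝ :=
  sInf {v : ℝ | ∃ I : Ideal (Rg g), IsPrim (mX g) I ∧ v = emult ℂ (m + 2) I * lct g I ^ (m + 2)}

end CX
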