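import Pool.Agent.Lib.MP_9e8926_ag_CX.WtX

set_option autoImplicit false

noncomputable section

namespace CX

open MvPolynomial

variable {m : ℕ}

namespace EvX

/-- The monomial `x^ν` at a point with non-zero coordinates. -/
def mon (x : Fin m → ℂ) (hx : ∀ i, x i ≠ 0) : Multiplicative (Fin m → ℤ) →* ℂ where
  toFun ν := ∏ i, x i ^ (Multiplicative.toAdd ν i)
  map_one' := by simp
  map_mul' a b := by
    rw [← Finset.prod_mul_distrib]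
    refine Finset.prod_congr rfl fun i _ => ?_
    rw [toAdd_mul, Pi.add_apply, zpow_add₀ (hx i)]

theorem mon_single (x : Fin m → ℂ) (hx : ∀ i, x i ≠ 0) (i : Fin m) (n : ℤ) :
    mon x hx (Multiplicative.ofAdd (Pi.single i n)) = x i ^ n := by
  change ∏ j, x j ^ ((Pi.single i n : Fin m → ℤ) j) = x i ^ n
  rw [Finset.prod_eq_single i]
  · rw [Pi.single_eq_same]
  · intro j _ hj
    rw [Pi.single_eq_of_ne hj, zpow_zero]
  · intro h
    exact absurd (Finset.mem_univ i) h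

/-- The evaluation of Laurent polynomials. -/
def evL (u : (Fin m → ℂ) × (Fin 2 → ℂ)) (hu : ∀ i, u.1 i ≠ 0) : Lam ℂ m →+* ℂ :=
  AddMonoidAlgebra.liftNCRingHom (eval u.2) (mon u.1 hu) fun _ _ => Commute.all _ _

theorem evL_single (u : (Fin m → ℂ) × (Fin 2 → ℂ)) (hu : ∀ i, u.1 i ≠ 0) (ν : Fin m → ℤ)
    (a : P ℂ) : evL u hu (AddMonoidAlgebra.single ν a) = eval u.2 a * ∏ i, u.1 i ^ ν i :=
  AddMonoidAlgebra.liftNC_single _ _ _ _

theorem evL_X (g : Fin m → P ℂ) (u : (Fin m → ℂ) × (Fin 2 → ℂ)) (hu : ∀ i, u.1 i ≠ 0)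
    (v : Vr m) : evL u hu (Th g (X v)) = pt g u v := by
  have hs : ∀ (i : Fin m) (n : ℤ), ∏ j, u.1 j ^ ((Pi.single i n : Fin m → ℤ) j) =
      u.1 i ^ n := fun i n => mon_single u.1 hu i n
  rcases v with i | i | l
  · rw [Th, aeval_X, Sum.elim_inl, evL_single, hs, map_one, one_mul, zpow_one]
    rfl
  · rw [Th, aeval_X, Sum.elim_inr, Sum.elim_inl, evL_single, hs, zpow_neg_one]
    rfl
  · rw [Th, aeval_X, Sum.elim_inr, Sum.elim_inr, evL_single, eval_X]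
    simp only [Pi.zero_apply, zpow_zero, Finset.prod_const_one, mul_one]
    rfl

theorem evL_C (g : Fin m → P ℂ) (u : (Fin m → ℂ) × (Fin 2 → ℂ)) (hu : ∀ i, u.1 i ≠ 0)
    (c : ℂ) : evL u hu (Th g (C c)) = c := by
  rw [Th, aeval_C]
  have e : algebraMap ℂ (Lam ℂ m) c = AddMonoidAlgebra.single 0 (C c) := by
    simp [AddMonoidAlgebra.coe_algebraMap, MvPolynomial.algebraMap_eq]
  rw [e, evL_single, eval_C]
  simp

theorem evL_Th (g : Fin m → P ℂ) (u : (Fin m → ℂ) × (Fin 2 → ℂ)) (hu : ∀ i, u.1 i ≠ 0)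
    (h : MvPolynomial (Vr m) ℂ) : evL u hu (Th g h) = eval (pt g u) h := by
  have key : (evL u hu).comp (Th g : MvPolynomial (Vr m) ℂ →+* Lam ℂ m) = eval (pt g u) := by
    apply MvPolynomial.ringHom_ext
    · intro c
      rw [eval_C]
      exact evL_C g u hu c
    · intro v
      rw [eval_X]
      exact evL_X g u hu v
  exact DFunLike.congr_fun key h

/-- A bound for the values of a polynomial. -/
theorem norm_eval_le (a : P ℂ) (x : Fin 2 → ℂ) {r : ℝ} (h0 : ‖x 0‖ ≤ r) (h1 : ‖x 1‖ ≤ r) :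
    ‖eval x a‖ ≤ ∑ μ ∈ a.support, ‖coeff μ a‖ * r ^ (μ 0 + μ 1) := by
  rw [MvPolynomial.eval_eq']
  refine (norm_sum_le _ _).trans (Finset.sum_le_sum fun μ _ => ?_)
  rw [norm_mul, Fin.prod_univ_two, norm_mul, norm_pow, norm_pow, pow_add]
  refine mul_le_mul_of_nonneg_left ?_ (norm_nonneg _)
  exact mul_le_mul (pow_le_pow_left₀ (norm_nonneg _) h0 _)
    (pow_le_pow_left₀ (norm_nonneg _) h1 _) (pow_nonneg (norm_nonneg _) _)
    (pow_nonneg ((norm_nonneg _).trans h0) _)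

/-- A bound for the powers of a number of size between `r / 2` and `r`. -/
theorem norm_zpow_le {x : ℂ} {r : ℝ} (hr : 0 < r) (h0 : r / 2 < ‖x‖) (h1 : ‖x‖ ≤ r) (n : ℤ) :
    ‖x‖ ^ n ≤ 2 ^ n.natAbs * r ^ n := by
  rcases Int.eq_nat_or_neg n with ⟨k, rfl | rfl⟩
  · rw [zpow_natCast, zpow_natCast, Int.natAbs_natCast]
    have h2 : ‖x‖ ^ k ≤ r ^ k := pow_le_pow_left₀ (norm_nonneg _) h1 k
    have h3 : (1 : ℝ) ≤ 2 ^ k := one_le_pow₀ (by norm_num)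
    have h4 : 0 ≤ r ^ k := pow_nonneg hr.le k
    nlinarith
  · rw [zpow_neg, zpow_neg, zpow_natCast, zpow_natCast, Int.natAbs_neg, Int.natAbs_natCast]
    have h2 : (r / 2) ^ k ≤ ‖x‖ ^ k := pow_le_pow_left₀ (by positivity) h0.le k
    have h3 : 0 < (r / 2) ^ k := by positivity
    have h4 : (‖x‖ ^ k)⁻¹ ≤ ((r / 2) ^ k)⁻¹ := inv_anti₀ h3 h2
    refine h4.trans (le_of_eq ?_)
    rw [div_pow, inv_div, div_eq_mul_inv]

end EvX

/-- The values of an element of the coordinate ring. -/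
theorem eval_pt (g : Fin m → P ℂ) (u : (Fin m → ℂ) × (Fin 2 → ℂ)) (hu : ∀ i, u.1 i ≠ 0)
    (h : MvPolynomial (Vr m) ℂ) (s : Finset (Fin m → ℤ))
    (hs : ∀ ν, ν ∉ s → cf g ν (Ideal.Quotient.mk (rel g) h) = 0) :
    eval (pt g u) h =
      ∑ ν ∈ s, eval u.2 (cf g ν (Ideal.Quotient.mk (rel g) h)) * ∏ i, u.1 i ^ ν i := by
  classical
  have h0 : ∀ ν, cf g ν (Ideal.Quotient.mk (rel g) h) = (Th g h).coeff ν := fun ν => rfl
  have h1 : Th g h = ∑ ν ∈ s, AddMonoidAlgebra.single ν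
      (cf g ν (Ideal.Quotient.mk (rel g) h)) := by
    apply AddMonoidAlgebra.ext
    ext1 μ
    rw [AddMonoidAlgebra.coeff_sum, Finsupp.finsetSum_apply]
    simp only [AddMonoidAlgebra.coeff_single]
    by_cases hμ : μ ∈ s
    · rw [Finset.sum_eq_single μ (fun κ _ hκ => Finsupp.single_eq_of_ne (Ne.symm hκ))
        (fun h' => absurd hμ h'), Finsupp.single_eq_same]
      rfl
    · rw [Finset.sum_eq_zero]
      · rw [← h0]
        exact hs μ hμ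
      · intro κ hκ
        refine Finsupp.single_eq_of_ne ?_
        rintro rfl
        exact hμ hκ
  rw [← EvX.evL_Th g u hu h, h1, map_sum]
  exact Finset.sum_congr rfl fun ν _ => EvX.evL_single u hu ν _

/-- The polydiscs adapted to the weights. -/
def Sh (d : Fin m → ℕ) (ρ : ℝ) : Set ((Fin m → ℂ) × (Fin 2 → ℂ)) :=
  {u | (∀ i, ρ ^ d i / 2 < ‖u.1 i‖ ∧ ‖u.1 i‖ ≤ ρ ^ d i) ∧ ρ ^ 2 / 2 < ‖u.2 0‖ ∧
    ‖u.2 0‖ ≤ ρ ^ 2 ∧ ‖u.2 1‖ ≤ ρ ^ 2}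

theorem EvX.ne_zero {d : Fin m → ℕ} {ρ : ℝ} (hρ : 0 < ρ) {u : (Fin m → ℂ) × (Fin 2 → ℂ)}
    (hu : u ∈ Sh d ρ) (i : Fin m) : u.1 i ≠ 0 := by
  intro hc
  have h1 := (hu.1 i).1
  rw [hc, norm_zero] at h1
  have h2 : 0 < ρ ^ d i / 2 := by positivity
  linarith

theorem EvX.prod_zpow {ρ : ℝ} (hρ : 0 < ρ) (s : Finset (Fin m)) (f : Fin m → ℤ) :
    ∏ i ∈ s, ρ ^ f i = ρ ^ (∑ i ∈ s, f i) := by
  classical
  induction s using Finset.induction_on with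
  | empty => simp
  | insert i s hi ih => rw [Finset.prod_insert hi, Finset.sum_insert hi, zpow_add₀ hρ.ne', ih]

theorem bound_Sh (g : Fin m → P ℂ) (d : Fin m → ℕ) (j : ℕ) (h : MvPolynomial (Vr m) ℂ)
    (hh : WGe g d j (Ideal.Quotient.mk (rel g) h)) :
    ∃ C : ℝ, 0 < C ∧ ∀ ρ : ℝ, 0 < ρ → ρ ≤ 1 → ∀ u ∈ Sh d ρ, ‖eval (pt g u) h‖ ≤ C * ρ ^ j := by
  classical
  obtain ⟨r, hr⟩ : ∃ r, r = Ideal.Quotient.mk (rel g) h := ⟨_, rfl⟩
  obtain ⟨s, hs⟩ : ∃ s : Finset (Fin m → ℤ), s = (cf_finite g r).toFinset := ⟨_, rfl⟩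
  have hs' : ∀ ν, ν ∉ s → cf g ν r = 0 := by
    intro ν hν
    by_contra hne
    exact hν (by rw [hs]; exact (Set.Finite.mem_toFinset _).2 hne)
  refine ⟨1 + ∑ ν ∈ s, ∑ μ ∈ (cf g ν r).support,
    ‖coeff μ (cf g ν r)‖ * ∏ i, (2 : ℝ) ^ (ν i).natAbs, by positivity, ?_⟩
  intro ρ hρ hρ1 u hu
  have hne := EvX.ne_zero hρ hu
  rw [eval_pt g u hne h s (by rw [← hr]; exact hs'), ← hr]
  have hmain : ‖∑ ν ∈ s, eval u.2 (cf g ν r) * ∏ i, u.1 i ^ ν i‖ ≤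
      ∑ ν ∈ s, (∑ μ ∈ (cf g ν r).support,
        ‖coeff μ (cf g ν r)‖ * ∏ i, (2 : ℝ) ^ (ν i).natAbs) * ρ ^ j := by
    refine (norm_sum_le _ _).trans (Finset.sum_le_sum fun ν _ => ?_)
    rw [norm_mul]
    have h1 := EvX.norm_eval_le (cf g ν r) u.2 hu.2.2.1 hu.2.2.2
    have h2 : ‖∏ i, u.1 i ^ ν i‖ ≤ ∏ i, ((2 : ℝ) ^ (ν i).natAbs * (ρ ^ d i) ^ ν i) := by
      rw [norm_prod]
      refine Finset.prod_le_prod (fun i _ => norm_nonneg _) fun i _ => ?_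
      rw [norm_zpow]
      exact EvX.norm_zpow_le (by positivity) (hu.1 i).1 (hu.1 i).2 _
    have h3 : ∏ i, ((2 : ℝ) ^ (ν i).natAbs * (ρ ^ d i) ^ ν i) =
        (∏ i, (2 : ℝ) ^ (ν i).natAbs) * ρ ^ (∑ i, ν i * (d i : ℤ)) := by
      rw [Finset.prod_mul_distrib, ← EvX.prod_zpow hρ]
      congr 1
      refine Finset.prod_congr rfl fun i _ => ?_
      rw [mul_comm, zpow_mul, zpow_natCast]
    rw [h3] at h2
    have h4 : 0 ≤ ∏ i, (2 : ℝ) ^ (ν i).natAbs := by positivity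
    have h5 : 0 ≤ ρ ^ (∑ i, ν i * (d i : ℤ)) := (zpow_pos hρ _).le
    refine (mul_le_mul h1 h2 (norm_nonneg _) (Finset.sum_nonneg fun μ _ => by positivity)).trans ?_
    rw [Finset.sum_mul, Finset.sum_mul]
    refine Finset.sum_le_sum fun μ hμ => ?_
    have hw := hh ν μ (by rw [← hr]; exact hμ)
    have h6 : (ρ ^ 2) ^ (μ 0 + μ 1) * ρ ^ (∑ i, ν i * (d i : ℤ)) ≤ ρ ^ j := by
      rw [← pow_mul, ← zpow_natCast, ← zpow_natCast, ← zpow_add₀ hρ.ne']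
      apply zpow_le_zpow_right_of_le_one₀ hρ hρ1
      push_cast
      exact hw
    calc ‖coeff μ (cf g ν r)‖ * (ρ ^ 2) ^ (μ 0 + μ 1) *
          ((∏ i, (2 : ℝ) ^ (ν i).natAbs) * ρ ^ (∑ i, ν i * (d i : ℤ)))
        = (‖coeff μ (cf g ν r)‖ * ∏ i, (2 : ℝ) ^ (ν i).natAbs) *
          ((ρ ^ 2) ^ (μ 0 + μ 1) * ρ ^ (∑ i, ν i * (d i : ℤ))) := by ring
      _ ≤ _ := mul_le_mul_of_nonneg_left h6 (mul_nonneg (norm_nonneg _) h4)
  refine hmain.trans ?_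
  rw [← Finset.sum_mul]
  have hρj : 0 ≤ ρ ^ j := pow_nonneg hρ.le j
  refine mul_le_mul_of_nonneg_right ?_ hρj
  linarith

theorem Sh_subset (g G : Fin m → P ℂ) (d : Fin m → ℕ) (h : Semi g G d) (ρ' : ℝ) (hρ' : 0 < ρ') :
    ∃ ρ₀ : ℝ, 0 < ρ₀ ∧ ρ₀ ≤ 1 ∧ ∀ ρ : ℝ, 0 < ρ → ρ ≤ ρ₀ → Sh d ρ ⊆ nbh g ρ' := by
  classical
  obtain ⟨A, hA⟩ : ∃ A : Fin m → ℝ, A = fun i => ∑ μ ∈ (g i).support, ‖coeff μ (g i)‖ := ⟨_, rfl⟩
  have hA0 : ∀ i, 0 ≤ A i := fun i => by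
    rw [hA]
    exact Finset.sum_nonneg fun μ _ => norm_nonneg _
  obtain ⟨K, hK⟩ : ∃ K : ℝ, K = 1 + 2 * ∑ i, A i := ⟨_, rfl⟩
  have hS0 : 0 ≤ ∑ i, A i := Finset.sum_nonneg fun i _ => hA0 i
  have hK1 : 1 ≤ K := by linarith
  have hAK : ∀ i, 2 * A i ≤ K := fun i => by
    have := Finset.single_le_sum (f := A) (fun i _ => hA0 i) (Finset.mem_univ i)
    linarith
  have hK0 : 0 < K := by linarith
  refine ⟨min 1 (ρ' / (2 * K)), lt_min one_pos (by positivity), min_le_left _ _, ?_⟩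
  intro ρ hρ hρle u hu
  have hρ1 : ρ ≤ 1 := hρle.trans (min_le_left _ _)
  have hKρ : K * ρ < ρ' := by
    have h1 : ρ ≤ ρ' / (2 * K) := hρle.trans (min_le_right _ _)
    rw [le_div_iff₀ (by positivity)] at h1
    nlinarith
  have hρK : ρ ≤ K * ρ := le_mul_of_one_le_left hρ.le hK1
  have hpow : ∀ n : ℕ, 1 ≤ n → ρ ^ n ≤ ρ := fun n hn => by
    calc ρ ^ n ≤ ρ ^ 1 := pow_le_pow_of_le_one hρ.le hρ1 hn
      _ = ρ := pow_one ρ
  refine ⟨EvX.ne_zero hρ hu, fun v => ?_⟩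
  rcases v with i | i | l
  · have h1 := (hu.1 i).2
    have h2 := hpow (d i) (h i).1
    change ‖u.1 i‖ < ρ'
    linarith
  · have hne := EvX.ne_zero hρ hu i
    have hpos : 0 < ‖u.1 i‖ := norm_pos_iff.2 hne
    change ‖eval u.2 (g i) / u.1 i‖ < ρ'
    rw [norm_div, div_lt_iff₀ hpos]
    have h1 := EvX.norm_eval_le (g i) u.2 hu.2.2.1 hu.2.2.2
    have h2 : ∑ μ ∈ (g i).support, ‖coeff μ (g i)‖ * (ρ ^ 2) ^ (μ 0 + μ 1) ≤
        A i * (ρ ^ d i * ρ ^ d i) := by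
      rw [hA]
      dsimp only
      rw [Finset.sum_mul]
      refine Finset.sum_le_sum fun μ hμ => mul_le_mul_of_nonneg_left ?_ (norm_nonneg _)
      have h3 := WtX.Og.of_init (h i).2.1 μ hμ
      rw [← pow_mul, ← pow_add]
      exact pow_le_pow_of_le_one hρ.le hρ1 (by omega)
    have h3 := (hu.1 i).1
    have h4 := hpow (d i) (h i).1
    have h5 : 0 < ρ ^ d i := by positivity
    have h6 : A i * (ρ ^ d i * ρ ^ d i) ≤ K * ρ * (ρ ^ d i / 2) := by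
      have h7 : A i * ρ ^ d i ≤ K / 2 * ρ := by
        have h8 := hAK i
        have h9 := hA0 i
        nlinarith
      nlinarith
    calc ‖eval u.2 (g i)‖ ≤ K * ρ * (ρ ^ d i / 2) := h1.trans (h2.trans h6)
      _ ≤ K * ρ * ‖u.1 i‖ := mul_le_mul_of_nonneg_left h3.le (by positivity)
      _ < ρ' * ‖u.1 i‖ := mul_lt_mul_of_pos_right hKρ hpos
  · have h1 := hpow 2 (by norm_num)
    change ‖u.2 l‖ < ρ'
    have h2 : ‖u.2 l‖ ≤ ρ ^ 2 := by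
      fin_cases l
      · exact hu.2.2.1
      · exact hu.2.2.2
    linarith

end CX
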