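import Pool.Agent.Lib.MP_9e8926_ag_CX.CfF
import Pool.Agent.Lib.MP_9e8926_ag_LP.FrobN

set_option autoImplicit false

noncomputable section

namespace CX

open MvPolynomial

variable {k : Type*} [Field k] {m : ℕ} (g : Fin m → P k) (p : ℕ) [Fact p.Prime] [CharP k p]

private theorem fptX_bound (D : Rg g) : ∃ B : ℕ, ∀ ν : Fin m → ℤ, cf g ν D ≠ 0 →
    ∀ i, (ν i).natAbs < B := by
  refine ⟨∑ ν ∈ (cf_finite g D).toFinset, ∑ i, (ν i).natAbs + 1, fun ν hν i => ?_⟩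
  have h1 : ν ∈ (cf_finite g D).toFinset := (Set.Finite.mem_toFinset _).2 hν
  have h2 : (ν i).natAbs ≤ ∑ i, (ν i).natAbs :=
    Finset.single_le_sum (f := fun i => (ν i).natAbs) (fun _ _ => Nat.zero_le _)
      (Finset.mem_univ i)
  have h3 : ∑ i, (ν i).natAbs ≤ ∑ ν ∈ (cf_finite g D).toFinset, ∑ i, (ν i).natAbs :=
    Finset.single_le_sum (f := fun ν : Fin m → ℤ => ∑ i, (ν i).natAbs)
      (fun _ _ => Nat.zero_le _) h1
  omega

private theorem fptX_cf (e1 : ℕ) (u D : Rg g)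
    (hD : ∀ ν : Fin m → ℤ, ν ≠ 0 → cf g (-(p ^ e1 • ν)) D = 0) :
    cf g 0 (D * u ^ p ^ e1) = cf g 0 D * cf g 0 u ^ p ^ e1 := by
  classical
  have ht : ∀ ν, ν ∉ (cf_finite g (u ^ p ^ e1)).toFinset → cf g ν (u ^ p ^ e1) = 0 := by
    intro ν hν
    rw [Set.Finite.mem_toFinset] at hν
    by_contra hcon
    exact hν hcon
  rw [mul_comm D, cf_mul g (u ^ p ^ e1) D _ ht 0, Finset.sum_eq_single 0]
  · have h1 := cf_pow g p e1 0 u
    rw [smul_zero] at h1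
    rw [h1, sub_zero, mul_comm]
  · intro μ _ hμ
    by_cases h1 : ∃ ν : Fin m → ℤ, μ = p ^ e1 • ν
    · obtain ⟨ν, rfl⟩ := h1
      have hν : ν ≠ 0 := by
        rintro rfl
        exact hμ (smul_zero _)
      rw [zero_sub, hD ν hν, mul_zero]
    · push Not at h1
      rw [cf_pow_zero g p e1 μ h1 u, zero_mul]
  · intro h0
    rw [ht 0 h0, zero_mul]

/-- Non-membership in Frobenius powers implies strong `F`-regularity. -/
theorem sfr_of_not_mem [PerfectField k] (hg : ∀ i, g i ≠ 0)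
    (hg0 : ∀ i, constantCoeff (g i) = 0) {I : Ideal (Rg g)} {t : ℝ} (ht : 0 ≤ t) {e : ℕ}
    (he : 1 ≤ e) {u : Rg g} (hu : u ∈ I ^ ⌈t * (p ^ e : ℕ)⌉₊) (h : cf g 0 u ∉ LP.J 2 k (p ^ e)) :
    SFR p (mX g) I t := by
  classical
  have hp : 1 < p := (Fact.out : p.Prime).one_lt
  intro d hd
  -- a coefficient of `d`
  obtain ⟨ν0, hν0⟩ : ∃ ν0, cf g ν0 d ≠ 0 := by
    by_contra hcon
    push Not at hcon
    exact hd (cf_ext g hg d 0 fun ν => by rw [hcon, map_zero])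
  obtain ⟨D, hDd⟩ : ∃ D : Rg g, D = E g (-ν0) * d := ⟨_, rfl⟩
  have hD0 : cf g 0 D ≠ 0 := by
    rw [hDd, cf_E_mul, zero_sub, neg_neg]
    exact mul_ne_zero (gam_ne_zero g hg _) hν0
  obtain ⟨μ, hμ⟩ : ∃ μ, μ ∈ (cf g 0 D).support := by
    by_contra hcon
    push Not at hcon
    exact hD0 (support_eq_empty.1 (Finset.eq_empty_of_forall_notMem hcon))
  obtain ⟨B, hB⟩ := fptX_bound g D
  obtain ⟨e1, he1⟩ : ∃ e1 : ℕ, e1 = B + μ 0 + μ 1 + 1 := ⟨_, rfl⟩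
  have hq1 : e1 < p ^ e1 := Nat.lt_pow_self hp
  have hDJ : cf g 0 D ∉ LP.J 2 k (p ^ e1) := by
    rw [LP.mem_J]
    intro hcon
    obtain ⟨i, hi⟩ := hcon μ hμ
    have h2 : ∀ i : Fin 2, μ i < p ^ e1 := by
      intro i
      fin_cases i
      · show μ 0 < p ^ e1
        omega
      · show μ 1 < p ^ e1
        omega
    exact absurd hi (not_le.2 (h2 i))
  have hDν : ∀ ν : Fin m → ℤ, ν ≠ 0 → cf g (-(p ^ e1 • ν)) D = 0 := by
    intro ν hν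
    by_contra hcon
    obtain ⟨i, hi⟩ := Function.ne_iff.1 hν
    rw [Pi.zero_apply] at hi
    have h1 := hB _ hcon i
    rw [Pi.neg_apply, Pi.smul_apply, Int.natAbs_neg, nsmul_eq_mul, Int.natAbs_mul,
      Int.natAbs_natCast] at h1
    have h2 : p ^ e1 * 1 ≤ p ^ e1 * (ν i).natAbs :=
      Nat.mul_le_mul_left _ (Nat.one_le_iff_ne_zero.2 (Int.natAbs_ne_zero.2 hi))
    omega
  have hX := fptX_cf g p e1 u D hDν
  have hXJ : cf g 0 (D * u ^ p ^ e1) ∉ LP.J 2 k (p ^ (e1 + e)) := by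
    rw [hX, pow_add]
    intro hcon
    exact h (LP.flat p e1 (p ^ e) _ _ hDJ hcon)
  obtain ⟨ψ, hψ1, hψ2⟩ := LP.exists_psi_unit p (e1 + e) _ hXJ
  obtain ⟨φ, hφ1, hφ2⟩ := exists_ext g p hg (e1 + e) ψ hψ1
  refine ⟨e1 + e, by omega, φ, hφ1, E g (-ν0) * u ^ p ^ e1, ?_, ?_⟩
  · refine Ideal.mul_mem_left _ _ ?_
    have h1 : u ^ p ^ e1 ∈ I ^ (⌈t * (p ^ e : ℕ)⌉₊ * p ^ e1) := by
      have h0 := Ideal.pow_mem_pow hu (p ^ e1)
      have h6 : (I ^ ⌈t * (p ^ e : ℕ)⌉₊) ^ p ^ e1 = I ^ (⌈t * (p ^ e : ℕ)⌉₊ * p ^ e1) :=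
        (pow_mul I _ _).symm
      rwa [h6] at h0
    refine Ideal.pow_le_pow_right ?_ h1
    rw [Nat.ceil_le]
    have h2 : t * (p ^ e : ℕ) ≤ (⌈t * (p ^ e : ℕ)⌉₊ : ℝ) := Nat.le_ceil _
    have h3 : (0:ℝ) ≤ ((p ^ e1 : ℕ) : ℝ) := Nat.cast_nonneg _
    have h4 := mul_le_mul_of_nonneg_right h2 h3
    rw [Nat.cast_mul]
    refine le_trans ?_ h4
    rw [pow_add, Nat.cast_mul, mul_sub, mul_one]
    have h5 : t * (((p ^ e1 : ℕ) : ℝ) * ((p ^ e : ℕ) : ℝ)) =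
        t * ((p ^ e : ℕ) : ℝ) * ((p ^ e1 : ℕ) : ℝ) := by ring
    rw [h5]
    linarith
  · rw [mem_mX g hg0]
    have h1 : d * (E g (-ν0) * u ^ p ^ e1) = D * u ^ p ^ e1 := by
      rw [hDd]
      ring
    rw [h1, hφ2, smul_zero]
    intro hcon
    exact hψ2 (LP.mem_m0.2 hcon)

omit [Fact p.Prime] [CharP k p] in
private theorem fptX_pow_le (q : ℕ) : ∃ (N : ℕ) (x : Fin N → Rg g), N = 2 * m + 2 ∧
    (∀ j, x j ∈ mX g) ∧ mX g ^ (N * q) ≤ Ideal.span (Set.range fun j => x j ^ q) := by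
  classical
  have hc : Fintype.card (Vr m) = 2 * m + 2 := by
    rw [Fintype.card_sum, Fintype.card_sum, Fintype.card_fin, Fintype.card_fin]
    ring
  let ε : Fin (2 * m + 2) ≃ Vr m := (Fintype.equivFinOfCardEq hc).symm
  let x : Fin (2 * m + 2) → Rg g := fun j => Ideal.Quotient.mk (rel g) (X (ε j))
  refine ⟨2 * m + 2, x, rfl, fun j => Ideal.subset_span ⟨ε j, rfl⟩, ?_⟩
  let f : MvPolynomial (Fin (2 * m + 2)) k →ₐ[k] Rg g := aeval x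
  have h1 : mX g ≤ (LP.m0 (2 * m + 2) k).map f := by
    unfold mX
    rw [Ideal.span_le]
    rintro _ ⟨v, rfl⟩
    have h2 : f (X (ε.symm v)) = Ideal.Quotient.mk (rel g) (X v) := by
      show aeval x (X (ε.symm v)) = _
      rw [aeval_X]
      show Ideal.Quotient.mk (rel g) (X (ε (ε.symm v))) = _
      rw [Equiv.apply_symm_apply]
    show Ideal.Quotient.mk (rel g) (X v) ∈ (LP.m0 (2 * m + 2) k).map f
    rw [← h2]
    refine Ideal.mem_map_of_mem f ?_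
    rw [LP.mem_m0, constantCoeff_X]
  have h3 : mX g ^ ((2 * m + 2) * q) ≤ ((LP.m0 (2 * m + 2) k) ^ ((2 * m + 2) * q)).map f := by
    rw [Ideal.map_pow]
    exact Ideal.pow_right_mono h1 _
  refine h3.trans ((Ideal.map_mono (LP.m0_pow_le_J (by omega) q)).trans ?_)
  unfold LP.J
  rw [Ideal.map_span, Ideal.span_le]
  rintro _ ⟨_, ⟨j, rfl⟩, rfl⟩
  refine Ideal.subset_span ⟨j, ?_⟩
  show x j ^ q = f (X j ^ q)
  rw [map_pow]
  congr 1
  exact (aeval_X _ _).symm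

/-- A bound for `F`-pure thresholds. -/
theorem sfr_le (hg : ∀ i, g i ≠ 0) (hg0 : ∀ i, constantCoeff (g i) = 0) {I : Ideal (Rg g)}
    (hI : I ≤ mX g) {t : ℝ} (h : SFR p (mX g) I t) : t ≤ 4 * m + 8 := by
  have hp : 1 < p := (Fact.out : p.Prime).one_lt
  have h10 : (1 : Rg g) ≠ 0 := by
    intro h1
    have h2 := congrArg (cf g 0) h1
    rw [cf_one, if_pos rfl, map_zero] at h2
    exact one_ne_zero h2
  obtain ⟨e, he, φ, hφ, a, ha, hn⟩ := h 1 h10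
  rw [one_mul] at hn
  obtain ⟨N, x, hN, hx, hle⟩ := fptX_pow_le g (p ^ e)
  have hT : ⌈t * ((p ^ e : ℕ) - 1 : ℝ)⌉₊ < N * p ^ e := by
    by_contra hcon
    rw [not_lt] at hcon
    have h1 : a ∈ mX g ^ (N * p ^ e) := Ideal.pow_le_pow_right hcon (Ideal.pow_right_mono hI _ ha)
    have h2 := hle h1
    rw [Ideal.mem_span_range_iff_exists_fun] at h2
    obtain ⟨c, rfl⟩ := h2
    apply hn
    rw [map_sum]
    refine Ideal.sum_mem _ fun j _ => ?_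
    rw [mul_comm, hφ]
    exact Ideal.mul_mem_right _ _ (hx j)
  have hq : (2:ℝ) ≤ ((p ^ e : ℕ) : ℝ) := by
    have h1 : 2 ≤ p ^ e := le_trans hp (Nat.le_self_pow (show e ≠ 0 by omega) p)
    exact_mod_cast h1
  have h1 : t * ((p ^ e : ℕ) - 1 : ℝ) < (N : ℝ) * ((p ^ e : ℕ) : ℝ) := by
    refine lt_of_le_of_lt (Nat.le_ceil _) ?_
    exact_mod_cast hT
  have hNr : (N : ℝ) = 2 * m + 2 := by rw [hN]; push_cast; ring
  rw [hNr] at h1
  have hm : (0:ℝ) ≤ m := Nat.cast_nonneg m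
  by_contra hcon
  rw [not_le] at hcon
  have h2 : (4 * m + 8 : ℝ) * ((p ^ e : ℕ) - 1 : ℝ) ≤ t * ((p ^ e : ℕ) - 1 : ℝ) :=
    mul_le_mul_of_nonneg_right hcon.le (by linarith)
  nlinarith

theorem fpt_nonneg (I : Ideal (Rg g)) : 0 ≤ fpt p (mX g) I :=
  Real.sSup_nonneg fun _ hx => hx.1

theorem mem_J_of_fpt_lt [PerfectField k] (hg : ∀ i, g i ≠ 0)
    (hg0 : ∀ i, constantCoeff (g i) = 0) {I : Ideal (Rg g)} (hI : I ≤ mX g) {t : ℝ}
    (ht : fpt p (mX g) I < t) {e : ℕ} (he : 1 ≤ e) {u : Rg g}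
    (hu : u ∈ I ^ ⌈t * (p ^ e : ℕ)⌉₊) : cf g 0 u ∈ LP.J 2 k (p ^ e) := by
  by_contra hcon
  have ht0 : 0 ≤ t := (fpt_nonneg g p I).trans ht.le
  have h1 := sfr_of_not_mem g p hg hg0 ht0 he hu hcon
  have h2 : t ≤ fpt p (mX g) I :=
    le_csSup ⟨4 * m + 8, fun s hs => sfr_le g p hg hg0 hI hs.2⟩ ⟨ht0, h1⟩
  linarith

end CX
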