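import Pool.Agent.Lib.MP_9e8926_ag_CX.Prod
import Pool.Agent.Lib.MP_9e8926_ag_CX.FptX
import Pool.Agent.Lib.MP_9e8926_ag_LP.SfrM

set_option autoImplicit false

noncomputable section

namespace CX

open MvPolynomial

variable {k : Type*} [Field k] {m : ℕ} (g : Fin m → P k) (p : ℕ) [Fact p.Prime] [CharP k p]

/-- Elements of powers of `K` are annihilated up to `J`. -/
private theorem fptK_key [PerfectField k] (hg : ∀ i, g i ≠ 0)
    (hg0 : ∀ i, constantCoeff (g i) = 0) {I : Ideal (Rg g)} (hI : IsPrim (mX g) I) (t : ℚ)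
    (ht : fpt p (mX g) I < t) (N : ℕ) (hN : 1 ≤ N) (ν : Fin m → ℕ) :
    ∃ Q : ℕ, ∀ e : ℕ, 1 ≤ e → Q ≤ p ^ e →
      ∀ a ∈ Kp g (I ^ N) ν ^ ⌊(t : ℝ) / (2 ^ m * N) * ((p ^ e : ℕ) - 1 : ℝ)⌋₊,
        LP.Fq g (fun i => t * ν i / (2 * N)) (p ^ e) * a ∈ LP.J 2 k (p ^ e) := by
  have hN0 : (0 : ℝ) < N := by exact_mod_cast hN
  have ht0 : (0 : ℝ) < t := (fpt_nonneg g p I).trans_lt ht
  obtain ⟨t', ht'1, ht'2⟩ := exists_between ht
  have hgap : (0 : ℝ) < t - t' := by linarith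
  refine ⟨⌈((t : ℝ) + N * 2 ^ m) / (t - t')⌉₊, fun e he hQ a ha => ?_⟩
  set q : ℕ := p ^ e with hq
  have hq1 : ((t : ℝ) + N * 2 ^ m) / (t - t') ≤ (q : ℝ) :=
    (Nat.le_ceil _).trans (by exact_mod_cast hQ)
  have hq2 : (1 : ℝ) ≤ (q : ℝ) := by
    exact_mod_cast Nat.one_le_iff_ne_zero.2 (pow_ne_zero _ (Fact.out : p.Prime).ne_zero)
  rw [div_le_iff₀ hgap] at hq1
  set S : ℕ := ⌊(t : ℝ) / (2 ^ m * N) * ((q : ℕ) - 1 : ℝ)⌋₊ with hS
  have hτ0 : (0 : ℝ) ≤ (t : ℝ) / (2 ^ m * N) := by positivity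
  have hx0 : (0 : ℝ) ≤ (t : ℝ) / (2 ^ m * N) * ((q : ℕ) - 1 : ℝ) :=
    mul_nonneg hτ0 (by linarith)
  have hS1 : (S : ℝ) ≤ (t : ℝ) / (2 ^ m * N) * ((q : ℕ) - 1 : ℝ) := Nat.floor_le hx0
  have hS2 : (t : ℝ) / (2 ^ m * N) * ((q : ℕ) - 1 : ℝ) < S + 1 := Nat.lt_floor_add_one _
  have h2m : (0 : ℝ) < 2 ^ m := by positivity
  have hmul : (t : ℝ) / (2 ^ m * N) * (2 ^ m * N) = t := by field_simp
  have hS3 : (t : ℝ) * ((q : ℝ) - 1) < (S + 1) * (2 ^ m * N) := by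
    have h1 := mul_lt_mul_of_pos_right hS2 (mul_pos h2m hN0)
    calc (t : ℝ) * ((q : ℝ) - 1)
        = (t : ℝ) / (2 ^ m * N) * ((q : ℕ) - 1 : ℝ) * (2 ^ m * N) := by
          rw [mul_right_comm, hmul]
      _ < _ := h1
  obtain ⟨u, hu, hcf, -⟩ := (mem_bI g).1 (Kp_pow g (I ^ N) ν S a ha)
  have hceil : ⌈t' * ((q : ℕ) : ℝ)⌉₊ ≤ N * (2 ^ m * S) := by
    rw [Nat.ceil_le]
    push_cast
    nlinarith
  have hmem : u ∈ I ^ ⌈t' * ((p ^ e : ℕ) : ℝ)⌉₊ := by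
    have e1 : (I ^ N) ^ (2 ^ m * S) = I ^ (N * (2 ^ m * S)) := (pow_mul I N (2 ^ m * S)).symm
    rw [e1] at hu
    exact Ideal.pow_le_pow_right hceil hu
  have hJ := mem_J_of_fpt_lt g p hg hg0 hI.1 ht'1 he hmem
  rw [hcf] at hJ
  have hdvd : ∏ i, g i ^ (2 ^ (m - 1) * ν i * S) ∣ LP.Fq g (fun i => t * ν i / (2 * N)) q := by
    unfold LP.Fq
    refine Finset.prod_dvd_prod_of_dvd _ _ fun i _ => pow_dvd_pow _ ?_
    have hm : 1 ≤ m := by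
      have := i.2
      omega
    have h2 : (2 : ℝ) ^ m = 2 * 2 ^ (m - 1) := by
      rw [← pow_succ']
      congr 1
      omega
    have h3 : (((2 ^ (m - 1) * ν i * S : ℕ) : ℕ) : ℝ)
        ≤ (((t * ν i / (2 * N) : ℚ)) : ℝ) * ((q : ℝ) - 1) := by
      push_cast
      have h4 : (2 : ℝ) ^ (m - 1) * ν i * S
          ≤ 2 ^ (m - 1) * ν i * ((t : ℝ) / (2 ^ m * N) * ((q : ℕ) - 1 : ℝ)) :=
        mul_le_mul_of_nonneg_left hS1 (by positivity)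
      refine h4.trans (le_of_eq ?_)
      rw [h2]
      have h5 : (2 : ℝ) ^ (m - 1) ≠ 0 := by positivity
      field_simp
    have h6 := h3.trans (Nat.le_ceil _)
    exact_mod_cast h6
  obtain ⟨w, hw⟩ := hdvd
  rw [hw]
  have h7 : (∏ i, g i ^ (2 ^ (m - 1) * ν i * S)) * w * a
      = w * (a * ∏ i, g i ^ (2 ^ (m - 1) * ν i * S)) := by ring
  rw [h7]
  exact Ideal.mul_mem_left _ _ hJ

private theorem fptK_prod_le {A : Type*} (s : Finset A) (J₀ : Ideal (P k)) (c : A → Ideal (P k))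
    (h : ∀ x, J₀ ≤ c x) : J₀ ^ s.card ≤ ∏ x ∈ s, c x := by
  classical
  induction s using Finset.induction_on with
  | empty => simp
  | insert x s hx ih =>
    rw [Finset.card_insert_of_notMem hx, Finset.prod_insert hx, pow_succ']
    exact Ideal.mul_mono (h x) ih

/-- The ideals `K` have small thresholds with respect to the pair `(k², ∑ λ_i div g_i)`,
`λ_i = t ν_i / (2 N)`. -/
theorem fpt_K [PerfectField k] (hg : ∀ i, g i ≠ 0) (hg0 : ∀ i, constantCoeff (g i) = 0)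
    {I : Ideal (Rg g)} (hI : IsPrim (mX g) I) (t : ℚ) (ht : fpt p (mX g) I < t) (N : ℕ)
    (hN : 1 ≤ N) (ν : Fin m → ℕ)
    (hB : LP.Base p g (fun i => t * ν i / (2 * N))) :
    LP.IsPrim (Kp g (I ^ N) ν) ∧
      LP.fpt p g (fun i => t * ν i / (2 * N)) (Kp g (I ^ N) ν) ≤ t / (2 ^ m * N) := by
  have ht0 : (0 : ℝ) < t := (fpt_nonneg g p I).trans_lt ht
  obtain ⟨Q, hQ⟩ := fptK_key g p hg hg0 hI t ht N hN ν
  refine ⟨⟨?_, ?_⟩, ?_⟩
  · intro u hu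
    by_contra hu0
    rw [LP.mem_m0] at hu0
    obtain ⟨e, he, hQe, a, -, ha⟩ := LP.sfr_large p g (fun i => t * ν i / (2 * N)) (by norm_num)
      hB 1 one_ne_zero Q
    apply ha
    rw [one_mul]
    apply Ideal.mul_mem_right
    have h3 := hQ e he hQe _ (Ideal.pow_mem_pow hu _)
    refine LP.mem_J_of_mul ?_ h3
    rw [map_pow]
    exact pow_ne_zero _ hu0
  · obtain ⟨M, hM⟩ := hI.2
    have h1 : mX g ^ (M * N) ≤ I ^ N := by
      have e1 : mX g ^ (M * N) = (mX g ^ M) ^ N := pow_mul (mX g) M N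
      rw [e1]
      exact Ideal.pow_right_mono hM N
    refine ⟨M * N * (Finset.univ : Finset (Fin m → Bool)).card, ?_⟩
    rw [pow_mul]
    exact fptK_prod_le _ _ _ fun ε => m0_pow_le_dI g hg0 h1 _
  · refine LP.fpt_le p g _ (by norm_num) (by positivity) fun s hs => ⟨Q, ?_⟩
    intro e he hQe a ha
    refine hQ e he hQe a (Ideal.pow_le_pow_right ?_ ha)
    have h6 : (1 : ℝ) ≤ ((p ^ e : ℕ) : ℝ) := by
      exact_mod_cast Nat.one_le_iff_ne_zero.2 (pow_ne_zero _ (Fact.out : p.Prime).ne_zero)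
    have h7 : (t : ℝ) / (2 ^ m * N) * ((p ^ e : ℕ) - 1 : ℝ) ≤ s * ((p ^ e : ℕ) - 1 : ℝ) :=
      mul_le_mul_of_nonneg_right hs.le (by linarith)
    have h8 : (0 : ℝ) ≤ (t : ℝ) / (2 ^ m * N) * ((p ^ e : ℕ) - 1 : ℝ) :=
      mul_nonneg (by positivity) (by linarith)
    have h9 := (Nat.floor_le h8).trans (h7.trans (Nat.le_ceil _))
    exact_mod_cast h9

end CX
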