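import Pool.Agent.Lib.MP_9e8926_ag_CX.Cf
import Pool.Agent.Lib.MP_9e8926_ag_LP.FrobN

set_option autoImplicit false

noncomputable section

namespace CX

open MvPolynomial

variable {k : Type*} [Field k] {m : ℕ} (g : Fin m → P k) (p : ℕ) [Fact p.Prime] [CharP k p]

private theorem homR_ci_add (a b : P k) : ci g (a + b) = ci g a + ci g b := by
  unfold ci
  rw [map_add, map_add]

private theorem homR_ci_mul (a b : P k) : ci g (a * b) = ci g a * ci g b := by
  unfold ci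
  rw [map_mul, map_mul]

private theorem homR_ci_pow (a : P k) (n : ℕ) : ci g (a ^ n) = ci g a ^ n := by
  unfold ci
  rw [map_pow, map_pow]

private theorem homR_id (hg : ∀ i, g i ≠ 0) (q : ℕ) (ν : Fin m → ℤ) (δ : P k) :
    E g (-ν) ^ (q + 1) * (ci g δ * E g ν) =
      ci g (gam g (-ν) * (gam g ν * δ)) * E g (q • (-ν)) := by
  apply jj_injective g hg
  rw [map_mul, map_mul, map_mul, map_pow, jj_E, jj_E, jj_E, jj_ci, jj_ci,
    AddMonoidAlgebra.single_pow, AddMonoidAlgebra.single_mul_single,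
    AddMonoidAlgebra.single_mul_single, AddMonoidAlgebra.single_mul_single, gam_nsmul]
  congr 1
  · rw [zero_add, zero_add, succ_nsmul, add_assoc, neg_add_cancel, add_zero]
  · ring

private theorem homR_term (hg : ∀ i, g i ≠ 0) (e : ℕ)
    (φ : Rg g →+ Rg g) (hφ : ∀ a b, φ (a ^ p ^ e * b) = a * φ b) (ν : Fin m → ℤ) (δ : P k)
    (hδ : gam g (-ν) * (gam g ν * δ) ∈ LP.J 2 k (p ^ e)) :
    cf g 0 (φ (ci g δ * E g ν)) ∈ LP.m0 2 k := by
  have hq : 0 < p ^ e := pow_pos (Fact.out : p.Prime).pos e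
  obtain ⟨q, hq1⟩ : ∃ q, p ^ e = q + 1 := ⟨p ^ e - 1, by omega⟩
  have hγ : gam g (-ν) ≠ 0 := gam_ne_zero g hg _
  have hdvd : ∀ b : P k, ∃ c : P k, cf g (-ν) (φ (ci g b * E g (q • (-ν)))) = gam g (-ν) * c :=
    fun b => gam_dvd_cf g (-ν) _
  choose ψ hψ using hdvd
  have hadd : ∀ a b, ψ (a + b) = ψ a + ψ b := by
    intro a b
    apply mul_left_cancel₀ hγ
    rw [← hψ, mul_add, ← hψ, ← hψ, homR_ci_add, add_mul, map_add, map_add]
  have hlin : ∀ a b, ψ (a ^ p ^ e * b) = a * ψ b := by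
    intro a b
    apply mul_left_cancel₀ hγ
    rw [← hψ, mul_left_comm, ← hψ, homR_ci_mul, homR_ci_pow, mul_assoc, hφ, cf_ci_mul]
  have h1 := LP.map_J_m0 p e (AddMonoidHom.mk' ψ hadd) hlin hδ
  have h2 : cf g 0 (φ (ci g δ * E g ν)) = ψ (gam g (-ν) * (gam g ν * δ)) := by
    apply mul_left_cancel₀ hγ
    rw [← hψ, ← homR_id g hg q ν δ, ← hq1, hφ, cf_E_mul, sub_self]
  rw [h2]
  exact h1

/-- Elements which are killed by all `p^{-e}`-linear maps modulo the maximal ideal. -/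
theorem homR (hg : ∀ i, g i ≠ 0) (hg0 : ∀ i, constantCoeff (g i) = 0) (e : ℕ)
    (φ : Rg g →+ Rg g) (hφ : ∀ a b, φ (a ^ p ^ e * b) = a * φ b) (h : Rg g)
    (hh : ∀ s : Rg g, cf g 0 (s * h) ∈ LP.J 2 k (p ^ e)) : φ h ∈ mX g := by
  classical
  obtain ⟨δ, hδ, hex⟩ := expand g hg h (cf_finite g h).toFinset (fun ν hν => by
    by_contra hne
    exact hν ((Set.Finite.mem_toFinset _).2 hne))
  rw [hex, map_sum]
  refine Ideal.sum_mem _ fun ν _ => ?_
  rw [mem_mX g hg0]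
  have h1 := hh (E g (-ν))
  rw [cf_E_mul, zero_sub, neg_neg, hδ] at h1
  exact homR_term g p hg e φ hφ ν (δ ν) h1

end CX
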