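import Pool.Agent.Lib.MP_9e8926_ag_CX.Base

set_option autoImplicit false

noncomputable section

namespace CX

open MvPolynomial

variable {k : Type*} [Field k] {m : ℕ} (g : Fin m → P k)

private theorem ker_jj_mk (a : MvPolynomial (Vr m) k) :
    jj g (Ideal.Quotient.mk (rel g) a) = Th g a := rfl

private theorem ker_prod_single {ι : Type*} (s : Finset ι) (ν : ι → Fin m → ℤ) (a : ι → P k) :
    ∏ i ∈ s, (AddMonoidAlgebra.single (ν i) (a i) : Lam k m) =
      AddMonoidAlgebra.single (∑ i ∈ s, ν i) (∏ i ∈ s, a i) := by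
  classical
  induction s using Finset.induction_on with
  | empty => simp [AddMonoidAlgebra.one_def]
  | insert i s hi ih =>
    rw [Finset.prod_insert hi, Finset.sum_insert hi, Finset.prod_insert hi, ih,
      AddMonoidAlgebra.single_mul_single]

theorem jj_E (ν : Fin m → ℤ) : jj g (E g ν) = AddMonoidAlgebra.single ν (gam g ν) := by
  rw [E, ker_jj_mk, map_prod]
  have h : ∀ i : Fin m, Th g (X (Sum.inl i) ^ (ν i).toNat *
      X (Sum.inr (Sum.inl i)) ^ (-(ν i)).toNat) =
      AddMonoidAlgebra.single (Pi.single i (ν i)) (g i ^ (-(ν i)).toNat) := by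
    intro i
    have h1 : Th g (X (Sum.inl i)) = AddMonoidAlgebra.single (Pi.single i 1) 1 := by
      rw [Th, aeval_X, Sum.elim_inl]
    have h2 : Th g (X (Sum.inr (Sum.inl i))) =
        AddMonoidAlgebra.single (Pi.single i (-1)) (g i) := by
      rw [Th, aeval_X, Sum.elim_inr, Sum.elim_inl]
    rw [map_mul, map_pow, map_pow, h1, h2, AddMonoidAlgebra.single_pow,
      AddMonoidAlgebra.single_pow, AddMonoidAlgebra.single_mul_single, one_pow, one_mul]
    congr 1
    rw [← Pi.single_smul, ← Pi.single_smul, ← Pi.single_add]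
    congr 1
    simp only [nsmul_eq_mul, mul_one, mul_neg]
    omega
  rw [Finset.prod_congr rfl (fun i _ => h i), ker_prod_single]
  congr 1
  exact Finset.univ_sum_single ν

theorem jj_ci (a : P k) : jj g (ci g a) = AddMonoidAlgebra.single 0 a := by
  rw [ci, ker_jj_mk, Th_rename]

private theorem ci_add (a b : P k) : ci g (a + b) = ci g a + ci g b := by
  rw [ci, ci, ci, map_add, map_add]

private theorem ci_mul (a b : P k) : ci g (a * b) = ci g a * ci g b := by
  rw [ci, ci, ci, map_mul, map_mul]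

private theorem ci_zero : ci g (0 : P k) = 0 := by
  rw [ci, map_zero, map_zero]

private theorem E_zero : E g (0 : Fin m → ℤ) = 1 := by
  rw [E]
  simp

private theorem ker_rel (i : Fin m) :
    Ideal.Quotient.mk (rel g) (X (Sum.inl i)) * Ideal.Quotient.mk (rel g) (X (Sum.inr (Sum.inl i))) =
      ci g (g i) := by
  rw [ci, ← map_mul, Ideal.Quotient.eq]
  exact Ideal.subset_span ⟨i, rfl⟩

/-- The set of the elements which have a normal form. -/
private def NF (r : Rg g) : Prop :=
  ∃ (s : Finset (Fin m → ℤ)) (δ : (Fin m → ℤ) → P k), r = ∑ ν ∈ s, ci g (δ ν) * E g ν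

private theorem NF.add {r r' : Rg g} (h : NF g r) (h' : NF g r') : NF g (r + r') := by
  classical
  obtain ⟨s, δ, rfl⟩ := h
  obtain ⟨s', δ', rfl⟩ := h'
  refine ⟨s ∪ s', fun ν => (if ν ∈ s then δ ν else 0) + (if ν ∈ s' then δ' ν else 0), ?_⟩
  have h1 : ∑ ν ∈ s, ci g (δ ν) * E g ν =
      ∑ ν ∈ s ∪ s', ci g (if ν ∈ s then δ ν else 0) * E g ν := by
    rw [← Finset.sum_subset (Finset.subset_union_left (s₂ := s'))]
    · exact Finset.sum_congr rfl fun ν hν => by rw [if_pos hν]
    · intro ν _ hν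
      rw [if_neg hν, ci_zero, zero_mul]
  have h2 : ∑ ν ∈ s', ci g (δ' ν) * E g ν =
      ∑ ν ∈ s ∪ s', ci g (if ν ∈ s' then δ' ν else 0) * E g ν := by
    rw [← Finset.sum_subset (Finset.subset_union_right (s₁ := s))]
    · exact Finset.sum_congr rfl fun ν hν => by rw [if_pos hν]
    · intro ν _ hν
      rw [if_neg hν, ci_zero, zero_mul]
  rw [h1, h2, ← Finset.sum_add_distrib]
  exact Finset.sum_congr rfl fun ν _ => by rw [ci_add, add_mul]

private theorem NF.single (a : P k) (ν : Fin m → ℤ) : NF g (ci g a * E g ν) :=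
  ⟨{ν}, fun _ => a, by rw [Finset.sum_singleton]⟩

private theorem NF.zero : NF g (0 : Rg g) := ⟨∅, fun _ => 0, by simp⟩

private theorem NF.sum {ι : Type*} (s : Finset ι) (f : ι → Rg g) (h : ∀ i ∈ s, NF g (f i)) :
    NF g (∑ i ∈ s, f i) := by
  classical
  induction s using Finset.induction_on with
  | empty => simpa using NF.zero g
  | insert i s hi ih =>
    rw [Finset.sum_insert hi]
    exact (h i (Finset.mem_insert_self i s)).add g
      (ih fun j hj => h j (Finset.mem_insert_of_mem hj))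

private theorem x_mul_E (i : Fin m) (ν : Fin m → ℤ) :
    ∃ a : P k, Ideal.Quotient.mk (rel g) (X (Sum.inl i)) * E g ν =
      ci g a * E g (ν + Pi.single i 1) := by
  classical
  have hE : ∀ μ : Fin m → ℤ, E g μ = Ideal.Quotient.mk (rel g) (X (Sum.inl i)) ^ (μ i).toNat *
      Ideal.Quotient.mk (rel g) (X (Sum.inr (Sum.inl i))) ^ (-(μ i)).toNat *
      ∏ j ∈ Finset.univ.erase i, (Ideal.Quotient.mk (rel g) (X (Sum.inl j)) ^ (μ j).toNat *
        Ideal.Quotient.mk (rel g) (X (Sum.inr (Sum.inl j))) ^ (-(μ j)).toNat) := by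
    intro μ
    rw [E, map_prod, ← Finset.mul_prod_erase Finset.univ _ (Finset.mem_univ i), map_mul, map_pow,
      map_pow]
    simp only [map_mul, map_pow]
  have hrest : ∏ j ∈ Finset.univ.erase i, (Ideal.Quotient.mk (rel g) (X (Sum.inl j)) ^
        ((ν + Pi.single i 1 : Fin m → ℤ) j).toNat *
        Ideal.Quotient.mk (rel g) (X (Sum.inr (Sum.inl j))) ^ (-((ν + Pi.single i 1 : Fin m → ℤ) j)).toNat) =
      ∏ j ∈ Finset.univ.erase i, (Ideal.Quotient.mk (rel g) (X (Sum.inl j)) ^ (ν j).toNat *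
        Ideal.Quotient.mk (rel g) (X (Sum.inr (Sum.inl j))) ^ (-(ν j)).toNat) := by
    refine Finset.prod_congr rfl fun j hj => ?_
    have : (ν + Pi.single i (1 : ℤ) : Fin m → ℤ) j = ν j := by
      rw [Pi.add_apply, Pi.single_eq_of_ne (Finset.ne_of_mem_erase hj), add_zero]
    rw [this]
  have hi : (ν + Pi.single i (1 : ℤ) : Fin m → ℤ) i = ν i + 1 := by
    rw [Pi.add_apply, Pi.single_eq_same]
  rcases le_or_gt 0 (ν i) with h | h
  · refine ⟨1, ?_⟩
    have h1 : ci g (1 : P k) = 1 := by rw [ci, map_one, map_one]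
    rw [h1, one_mul, hE, hE (ν + Pi.single i 1), hrest, hi]
    have e1 : (ν i + 1).toNat = (ν i).toNat + 1 := by omega
    have e2 : (-(ν i + 1)).toNat = 0 := by omega
    have e3 : (-(ν i)).toNat = 0 := by omega
    rw [e1, e2, e3]
    ring
  · refine ⟨g i, ?_⟩
    rw [← ker_rel, hE, hE (ν + Pi.single i 1), hrest, hi]
    have e1 : (ν i + 1).toNat = 0 := by omega
    have e2 : (-(ν i)).toNat = (-(ν i + 1)).toNat + 1 := by omega
    have e3 : (ν i).toNat = 0 := by omega
    rw [e1, e2, e3]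
    ring

private theorem y_mul_E (i : Fin m) (ν : Fin m → ℤ) :
    ∃ a : P k, Ideal.Quotient.mk (rel g) (X (Sum.inr (Sum.inl i))) * E g ν =
      ci g a * E g (ν + Pi.single i (-1)) := by
  classical
  have hE : ∀ μ : Fin m → ℤ, E g μ = Ideal.Quotient.mk (rel g) (X (Sum.inl i)) ^ (μ i).toNat *
      Ideal.Quotient.mk (rel g) (X (Sum.inr (Sum.inl i))) ^ (-(μ i)).toNat *
      ∏ j ∈ Finset.univ.erase i, (Ideal.Quotient.mk (rel g) (X (Sum.inl j)) ^ (μ j).toNat *
        Ideal.Quotient.mk (rel g) (X (Sum.inr (Sum.inl j))) ^ (-(μ j)).toNat) := by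
    intro μ
    rw [E, map_prod, ← Finset.mul_prod_erase Finset.univ _ (Finset.mem_univ i), map_mul, map_pow,
      map_pow]
    simp only [map_mul, map_pow]
  have hrest : ∏ j ∈ Finset.univ.erase i, (Ideal.Quotient.mk (rel g) (X (Sum.inl j)) ^
        ((ν + Pi.single i (-1) : Fin m → ℤ) j).toNat *
        Ideal.Quotient.mk (rel g) (X (Sum.inr (Sum.inl j))) ^
          (-((ν + Pi.single i (-1) : Fin m → ℤ) j)).toNat) =
      ∏ j ∈ Finset.univ.erase i, (Ideal.Quotient.mk (rel g) (X (Sum.inl j)) ^ (ν j).toNat *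
        Ideal.Quotient.mk (rel g) (X (Sum.inr (Sum.inl j))) ^ (-(ν j)).toNat) := by
    refine Finset.prod_congr rfl fun j hj => ?_
    have : (ν + Pi.single i (-1 : ℤ) : Fin m → ℤ) j = ν j := by
      rw [Pi.add_apply, Pi.single_eq_of_ne (Finset.ne_of_mem_erase hj), add_zero]
    rw [this]
  have hi : (ν + Pi.single i (-1 : ℤ) : Fin m → ℤ) i = ν i - 1 := by
    rw [Pi.add_apply, Pi.single_eq_same]
    ring
  rcases le_or_gt (ν i) 0 with h | h
  · refine ⟨1, ?_⟩
    have h1 : ci g (1 : P k) = 1 := by rw [ci, map_one, map_one]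
    rw [h1, one_mul, hE, hE (ν + Pi.single i (-1)), hrest, hi]
    have e1 : (-(ν i - 1)).toNat = (-(ν i)).toNat + 1 := by omega
    have e2 : (ν i - 1).toNat = 0 := by omega
    have e3 : (ν i).toNat = 0 := by omega
    rw [e1, e2, e3]
    ring
  · refine ⟨g i, ?_⟩
    rw [← ker_rel, hE, hE (ν + Pi.single i (-1)), hrest, hi]
    have e1 : (-(ν i - 1)).toNat = 0 := by omega
    have e2 : (ν i).toNat = (ν i - 1).toNat + 1 := by omega
    have e3 : (-(ν i)).toNat = 0 := by omega
    rw [e1, e2, e3]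
    ring

/-- The elements `E ν` generate the coordinate ring over `k[z,w]`. -/
theorem exists_normal (r : Rg g) :
    ∃ (s : Finset (Fin m → ℤ)) (δ : (Fin m → ℤ) → P k), r = ∑ ν ∈ s, ci g (δ ν) * E g ν := by
  obtain ⟨a, rfl⟩ := Ideal.Quotient.mk_surjective r
  change NF g _
  induction a using MvPolynomial.induction_on with
  | C c =>
    have h := NF.single g (C c) 0
    rw [E_zero, mul_one, ci, rename_C] at h
    exact h
  | add a b ha hb =>
    rw [map_add]
    exact ha.add g hb
  | mul_X a v ha =>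
    obtain ⟨s, δ, hs⟩ := ha
    rw [map_mul, hs, Finset.sum_mul]
    refine NF.sum g s _ fun ν _ => ?_
    rcases v with i | i | j
    · obtain ⟨b, hb⟩ := x_mul_E g i ν
      have : ci g (δ ν) * E g ν * Ideal.Quotient.mk (rel g) (X (Sum.inl i)) =
          ci g (δ ν * b) * E g (ν + Pi.single i 1) := by
        rw [ci_mul, mul_assoc, mul_comm (E g ν), hb, mul_assoc]
      rw [this]
      exact NF.single g _ _
    · obtain ⟨b, hb⟩ := y_mul_E g i ν
      have : ci g (δ ν) * E g ν * Ideal.Quotient.mk (rel g) (X (Sum.inr (Sum.inl i))) =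
          ci g (δ ν * b) * E g (ν + Pi.single i (-1)) := by
        rw [ci_mul, mul_assoc, mul_comm (E g ν), hb, mul_assoc]
      rw [this]
      exact NF.single g _ _
    · have : ci g (δ ν) * E g ν * Ideal.Quotient.mk (rel g) (X (Sum.inr (Sum.inr j))) =
          ci g (δ ν * X j) * E g ν := by
        have h1 : ci g (X j) = Ideal.Quotient.mk (rel g) (X (Sum.inr (Sum.inr j))) := by
          rw [ci, rename_X]
        rw [ci_mul, h1]
        ring
      rw [this]
      exact NF.single g _ _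

theorem jj_injective (hg : ∀ i, g i ≠ 0) : Function.Injective (jj g) := by
  rw [injective_iff_map_eq_zero]
  intro r hr
  obtain ⟨s, δ, rfl⟩ := exists_normal g r
  rw [map_sum] at hr
  have h1 : ∀ ν, jj g (ci g (δ ν) * E g ν) = AddMonoidAlgebra.single ν (δ ν * gam g ν) := by
    intro ν
    rw [map_mul, jj_ci, jj_E, AddMonoidAlgebra.single_mul_single, zero_add]
  simp only [h1] at hr
  have h2 : ∀ ν ∈ s, δ ν = 0 := by
    intro ν hν
    have h3 := congrArg (fun x : Lam k m => x.coeff ν) hr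
    simp only [AddMonoidAlgebra.coeff_sum, AddMonoidAlgebra.coeff_single,
      AddMonoidAlgebra.coeff_zero, Finsupp.coe_finsetSum, Finset.sum_apply,
      Finsupp.coe_zero, Pi.zero_apply] at h3
    rw [Finset.sum_eq_single ν (fun μ _ hμ => Finsupp.single_eq_of_ne (Ne.symm hμ))
      (fun h => absurd hν h), Finsupp.single_eq_same] at h3
    rcases mul_eq_zero.mp h3 with h4 | h4
    · exact h4
    · exfalso
      unfold gam at h4
      rw [Finset.prod_eq_zero_iff] at h4
      obtain ⟨i, -, hi⟩ := h4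
      exact hg i (eq_zero_of_pow_eq_zero hi)
  exact Finset.sum_eq_zero fun ν hν => by rw [h2 ν hν, ci_zero, zero_mul]

end CX
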