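import Pool.Agent.Lib.MP_9e8926_ag_LP.NewtC

set_option autoImplicit false

noncomputable section

namespace CX

open MvPolynomial

variable {k : Type*} [Field k]

/-- Lech's inequality in dimension two. -/
theorem emult_le_two (K : Ideal (MvPolynomial (Fin 2) k)) (hK : LP.IsPrim K) :
    LP.emult K ≤ 2 * (Module.finrank k (MvPolynomial (Fin 2) k ⧸ K) : ℝ) := by
  classical
  have h1 := LP.emult_le_covol (by norm_num) K hK
  obtain ⟨-, N, hN⟩ := hK
  have hfin := LP.finite_compl hN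
  rw [LP.finrank_eq hN, Set.ncard_eq_toFinset_card _ hfin]
  refine h1.trans ?_
  have hf : ((Nat.factorial 2 : ℕ) : ℝ) = 2 := by norm_num [Nat.factorial]
  rw [hf]
  refine mul_le_mul_of_nonneg_left ?_ (by norm_num)
  have hsub : {w : Fin 2 → ℝ | 0 ≤ w ∧ w ∉ LP.Up (LP.L K)} ⊆
      ⋃ μ ∈ hfin.toFinset, Set.pi Set.univ (fun i => Set.Ico (μ i : ℝ) ((μ i : ℝ) + 1)) := by
    rintro w ⟨hw0, hw⟩
    set μ : Fin 2 →₀ ℕ := Finsupp.equivFunOnFinite.symm (fun i => ⌊w i⌋₊) with hμ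
    have hμi : ∀ i, μ i = ⌊w i⌋₊ := fun i => rfl
    have hμK : μ ∉ LP.L K := by
      intro hmem
      apply hw
      refine ⟨LP.rv μ, subset_convexHull ℝ _ ⟨μ, hmem, rfl⟩, ?_⟩
      intro i
      change ((μ i : ℕ) : ℝ) ≤ w i
      rw [hμi]
      exact Nat.floor_le (hw0 i)
    simp only [Set.mem_iUnion]
    refine ⟨μ, by simpa using hμK, ?_⟩
    intro i _
    change w i ∈ Set.Ico ((μ i : ℕ) : ℝ) (((μ i : ℕ) : ℝ) + 1)
    rw [hμi]
    exact ⟨Nat.floor_le (hw0 i), Nat.lt_floor_add_one _⟩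
  have hvol : MeasureTheory.volume {w : Fin 2 → ℝ | 0 ≤ w ∧ w ∉ LP.Up (LP.L K)} ≤
      (hfin.toFinset.card : ENNReal) := by
    refine (MeasureTheory.measure_mono hsub).trans ?_
    refine (MeasureTheory.measure_biUnion_finset_le _ _).trans ?_
    have h2 : ∀ μ ∈ hfin.toFinset, MeasureTheory.volume
        (Set.pi Set.univ (fun i => Set.Ico (μ i : ℝ) ((μ i : ℝ) + 1))) = 1 := by
      intro μ _
      rw [Real.volume_pi_Ico]
      simp
    rw [Finset.sum_congr rfl h2]
    simp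
  have h3 := ENNReal.toReal_mono (by simp) hvol
  simpa using h3

private theorem lech_card {A B C : Set (ℕ × ℕ)}
    (hAB : ∀ i j i' j', (i, j) ∈ A → (i', j') ∈ B → (i + i', j + j') ∈ C)
    (hC : ∀ i j i' j', (i, j) ∈ C → i ≤ i' → j ≤ j' → (i', j') ∈ C)
    (hA : ∀ i j j', (i, j) ∈ A → j ≤ j' → (i, j') ∈ A)
    (hAf : Aᶜ.Finite) (hBf : Bᶜ.Finite) :
    Cᶜ.ncard ≤ 2 * (Aᶜ.ncard + Bᶜ.ncard) := by
  classical
  -- every column meets A
  have hcol : ∀ i, ∃ j, (i, j) ∈ A := by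
    intro i
    by_contra hcon
    push Not at hcon
    have h1 : (Set.range fun j : ℕ => (i, j)) ⊆ Aᶜ := by
      rintro _ ⟨j, rfl⟩
      exact hcon j
    have h2 : (Set.range fun j : ℕ => (i, j)).Infinite :=
      Set.infinite_range_of_injective fun a b h => (Prod.mk.inj h).2
    exact h2 (hAf.subset h1)
  set f : ℕ → ℕ := fun i => Nat.find (hcol i) with hf
  have hf1 : ∀ i, (i, f i) ∈ A := fun i => Nat.find_spec (hcol i)
  have hf2 : ∀ i j, (i, j) ∈ A → f i ≤ j := fun i j h => Nat.find_min' (hcol i) h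
  set F : ℕ × ℕ → Bool × Bool × (ℕ × ℕ) := fun p =>
    if (p.1 / 2, p.2) ∈ A then (true, decide (p.1 % 2 = 0), (p.1 / 2, p.2 - f (p.1 / 2)))
    else (false, decide (p.1 % 2 = 0), (p.1 / 2, p.2)) with hF
  set SA : Set (Bool × Bool × (ℕ × ℕ)) := (fun q : Bool × (ℕ × ℕ) => (false, q)) ''
    (Set.univ ×ˢ Aᶜ) with hSA
  set SB : Set (Bool × Bool × (ℕ × ℕ)) := (fun q : Bool × (ℕ × ℕ) => (true, q)) ''
    (Set.univ ×ˢ Bᶜ) with hSB
  have hSAf : SA.Finite := (Set.finite_univ.prod hAf).image _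
  have hSBf : SB.Finite := (Set.finite_univ.prod hBf).image _
  have hSAc : SA.ncard = 2 * Aᶜ.ncard := by
    rw [hSA, Set.ncard_image_of_injective _ (fun a b h => (Prod.mk.inj h).2), Set.ncard_prod]
    simp
  have hSBc : SB.ncard = 2 * Bᶜ.ncard := by
    rw [hSB, Set.ncard_image_of_injective _ (fun a b h => (Prod.mk.inj h).2), Set.ncard_prod]
    simp
  have hmaps : ∀ p ∈ Cᶜ, F p ∈ SA ∪ SB := by
    rintro ⟨i, j⟩ hp
    by_cases h : (i / 2, j) ∈ A
    · right
      have e : F (i, j) = (true, decide (i % 2 = 0), (i / 2, j - f (i / 2))) := by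
        simp only [hF]
        rw [if_pos h]
      rw [e]
      refine ⟨(decide (i % 2 = 0), (i / 2, j - f (i / 2))), ⟨Set.mem_univ _, ?_⟩, rfl⟩
      intro hB
      apply hp
      have h1 := hAB _ _ _ _ (hf1 (i / 2)) hB
      refine hC _ _ _ _ h1 (by omega) ?_
      have := hf2 _ _ h
      omega
    · left
      have e : F (i, j) = (false, decide (i % 2 = 0), (i / 2, j)) := by
        simp only [hF]
        rw [if_neg h]
      rw [e]
      exact ⟨(decide (i % 2 = 0), (i / 2, j)), ⟨Set.mem_univ _, h⟩, rfl⟩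
  have hinj : Set.InjOn F Cᶜ := by
    rintro ⟨i, j⟩ - ⟨i', j'⟩ - h
    by_cases h1 : (i / 2, j) ∈ A <;> by_cases h2 : (i' / 2, j') ∈ A
    · simp only [hF, h1, h2, if_true, Prod.mk.injEq, decide_eq_decide, true_and] at h
      obtain ⟨h3, h4, h5⟩ := h
      have h6 := hf2 _ _ h1
      have h7 := hf2 _ _ h2
      rw [h4] at h5 h6
      rw [Prod.mk.injEq]
      omega
    · simp [hF, h1, h2] at h
    · simp [hF, h1, h2] at h
    · simp only [hF, h1, h2, if_false, Prod.mk.injEq, decide_eq_decide, true_and] at h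
      obtain ⟨h3, h4, h5⟩ := h
      rw [Prod.mk.injEq]
      omega
  calc Cᶜ.ncard ≤ (SA ∪ SB).ncard :=
        Set.ncard_le_ncard_of_injOn F hmaps hinj (hSAf.union hSBf)
    _ ≤ SA.ncard + SB.ncard := Set.ncard_union_le _ _
    _ = 2 * (Aᶜ.ncard + Bᶜ.ncard) := by rw [hSAc, hSBc]; ring

private def lechE : (Fin 2 →₀ ℕ) ≃ ℕ × ℕ :=
  Finsupp.equivFunOnFinite.trans (finTwoArrowEquiv ℕ)

private theorem lechE_apply (μ : Fin 2 →₀ ℕ) : lechE μ = (μ 0, μ 1) := rfl

private theorem lech_mem (S : Set (Fin 2 →₀ ℕ)) (i j : ℕ) :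
    (i, j) ∈ lechE '' S ↔ lechE.symm (i, j) ∈ S := by
  constructor
  · rintro ⟨μ, hμ, h⟩
    rwa [← h, Equiv.symm_apply_apply]
  · intro h
    exact ⟨_, h, Equiv.apply_symm_apply _ _⟩

private theorem lech_zero (i j : ℕ) : lechE.symm (i, j) 0 = i :=
  congrArg Prod.fst (lechE.apply_symm_apply (i, j))

private theorem lech_one (i j : ℕ) : lechE.symm (i, j) 1 = j :=
  congrArg Prod.snd (lechE.apply_symm_apply (i, j))

private theorem lech_le {i j i' j' : ℕ} (h1 : i ≤ i') (h2 : j ≤ j') :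
    lechE.symm (i, j) ≤ lechE.symm (i', j') := by
  intro l
  fin_cases l
  · change lechE.symm (i, j) 0 ≤ lechE.symm (i', j') 0
    rwa [lech_zero, lech_zero]
  · change lechE.symm (i, j) 1 ≤ lechE.symm (i', j') 1
    rwa [lech_one, lech_one]

private theorem lech_addE (i j i' j' : ℕ) :
    lechE.symm (i + i', j + j') = lechE.symm (i, j) + lechE.symm (i', j') := by
  ext l
  fin_cases l
  · change lechE.symm (i + i', j + j') 0 = lechE.symm (i, j) 0 + lechE.symm (i', j') 0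
    rw [lech_zero, lech_zero, lech_zero]
  · change lechE.symm (i + i', j + j') 1 = lechE.symm (i, j) 1 + lechE.symm (i', j') 1
    rw [lech_one, lech_one, lech_one]

private theorem lech_ncard (S : Set (Fin 2 →₀ ℕ)) : Sᶜ.ncard = (lechE '' S)ᶜ.ncard := by
  rw [← Set.image_compl_eq lechE.bijective, Set.ncard_image_of_injective _ lechE.injective]

theorem finrank_mul_le (c c' : Ideal (MvPolynomial (Fin 2) k)) (N : ℕ)
    (h : LP.m0 2 k ^ N ≤ c) (h' : LP.m0 2 k ^ N ≤ c') :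
    Module.finrank k (MvPolynomial (Fin 2) k ⧸ c * c') ≤
      2 * (Module.finrank k (MvPolynomial (Fin 2) k ⧸ c) +
        Module.finrank k (MvPolynomial (Fin 2) k ⧸ c')) := by
  have h2 : LP.m0 2 k ^ (N + N) ≤ c * c' := by
    rw [pow_add]
    exact Ideal.mul_mono h h'
  rw [LP.finrank_eq h, LP.finrank_eq h', LP.finrank_eq h2, lech_ncard, lech_ncard (LP.L c),
    lech_ncard (LP.L c')]
  refine lech_card ?_ ?_ ?_ ?_ ?_
  · intro i j i' j' h3 h4
    rw [lech_mem] at h3 h4 ⊢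
    rw [lech_addE]
    exact LP.L_add h3 h4
  · intro i j i' j' h3 h4 h5
    rw [lech_mem] at h3 ⊢
    exact LP.L_up h3 (lech_le h4 h5)
  · intro i j j' h3 h4
    rw [lech_mem] at h3 ⊢
    exact LP.L_up h3 (lech_le le_rfl h4)
  · rw [← Set.image_compl_eq lechE.bijective]
    exact (LP.finite_compl h).image _
  · rw [← Set.image_compl_eq lechE.bijective]
    exact (LP.finite_compl h').image _

theorem finrank_prod_le (m N : ℕ) (c : (Fin m → Bool) → Ideal (MvPolynomial (Fin 2) k))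
    (h : ∀ ε, LP.m0 2 k ^ N ≤ c ε) :
    Module.finrank k (MvPolynomial (Fin 2) k ⧸ ∏ ε, c ε) ≤
      2 ^ m * ∑ ε, Module.finrank k (MvPolynomial (Fin 2) k ⧸ c ε) := by
  induction m with
  | zero =>
    rw [Fintype.prod_unique, Fintype.sum_unique, pow_zero, one_mul]
  | succ m ih =>
    have hprod : ∏ ε, c ε = (∏ ε : Fin m → Bool, c (Fin.cons false ε)) *
        ∏ ε : Fin m → Bool, c (Fin.cons true ε) := by
      rw [← (Fin.consEquiv (fun _ : Fin (m + 1) => Bool)).prod_comp, Fintype.prod_prod_type,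
        Fintype.prod_bool, mul_comm]
      rfl
    have hsum : ∑ ε, Module.finrank k (MvPolynomial (Fin 2) k ⧸ c ε) =
        ∑ ε : Fin m → Bool, Module.finrank k (MvPolynomial (Fin 2) k ⧸ c (Fin.cons false ε)) +
        ∑ ε : Fin m → Bool,
          Module.finrank k (MvPolynomial (Fin 2) k ⧸ c (Fin.cons true ε)) := by
      rw [← (Fin.consEquiv (fun _ : Fin (m + 1) => Bool)).sum_comp, Fintype.sum_prod_type,
        Fintype.sum_bool, add_comm]
      rfl
    have hle : ∀ b : Bool, LP.m0 2 k ^ (N * Fintype.card (Fin m → Bool)) ≤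
        ∏ ε : Fin m → Bool, c (Fin.cons b ε) := by
      intro b
      rw [pow_mul, ← Finset.card_univ, ← Finset.prod_const]
      exact Finset.prod_le_prod' fun ε _ => h _
    rw [hprod, hsum]
    refine (finrank_mul_le _ _ _ (hle false) (hle true)).trans ?_
    have h1 := ih (fun ε => c (Fin.cons false ε)) (fun ε => h _)
    have h2 := ih (fun ε => c (Fin.cons true ε)) (fun ε => h _)
    calc _ ≤ 2 * (2 ^ m * ∑ ε : Fin m → Bool,
          Module.finrank k (MvPolynomial (Fin 2) k ⧸ c (Fin.cons false ε)) +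
          2 ^ m * ∑ ε : Fin m → Bool,
          Module.finrank k (MvPolynomial (Fin 2) k ⧸ c (Fin.cons true ε))) := by gcongr
      _ = _ := by ring

end CX
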