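import Pool.Agent.Lib.MP_9e8926_ag_CX.Cf

set_option autoImplicit false

noncomputable section

namespace CX

open MvPolynomial

variable {k : Type*} [Field k] {m : ℕ} (g : Fin m → P k)

/-- The ideal of the coefficients of `x^ν` of the elements of `I` all of whose exponents are
lexicographically `≥ ν`. -/
def bI (I : Ideal (Rg g)) (ν : Fin m → ℤ) : Ideal (P k) where
  carrier := {a | ∃ r ∈ I, cf g ν r = a ∧ ∀ μ : Fin m → ℤ, toLex μ < toLex ν → cf g μ r = 0}
  zero_mem' := ⟨0, I.zero_mem, map_zero _, fun _ _ => map_zero _⟩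
  add_mem' := by
    rintro a b ⟨r, hr, h1, h2⟩ ⟨s, hs, h3, h4⟩
    exact ⟨r + s, I.add_mem hr hs, by rw [map_add, h1, h3],
      fun μ hμ => by rw [map_add, h2 μ hμ, h4 μ hμ, add_zero]⟩
  smul_mem' := by
    rintro c a ⟨r, hr, h1, h2⟩
    exact ⟨ci g c * r, I.mul_mem_left _ hr, by rw [cf_ci_mul, h1, smul_eq_mul],
      fun μ hμ => by rw [cf_ci_mul, h2 μ hμ, mul_zero]⟩

theorem mem_bI {I : Ideal (Rg g)} {ν : Fin m → ℤ} {a : P k} : a ∈ bI g I ν ↔
    ∃ r ∈ I, cf g ν r = a ∧ ∀ μ : Fin m → ℤ, toLex μ < toLex ν → cf g μ r = 0 := Iff.rfl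

/-- The elements `a` with `gam ν * a ∈ bI I ν`. -/
def dI (I : Ideal (Rg g)) (ν : Fin m → ℤ) : Ideal (P k) where
  carrier := {a | gam g ν * a ∈ bI g I ν}
  zero_mem' := by
    show gam g ν * 0 ∈ bI g I ν
    rw [mul_zero]; exact Ideal.zero_mem _
  add_mem' := by
    intro a b ha hb
    show gam g ν * (a + b) ∈ bI g I ν
    rw [mul_add]; exact Ideal.add_mem _ ha hb
  smul_mem' := by
    intro c a ha
    show gam g ν * (c * a) ∈ bI g I ν
    rw [mul_left_comm]; exact Ideal.mul_mem_left _ _ ha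

theorem mem_dI {I : Ideal (Rg g)} {ν : Fin m → ℤ} {a : P k} :
    a ∈ dI g I ν ↔ gam g ν * a ∈ bI g I ν := Iff.rfl

theorem bI_mono {I I' : Ideal (Rg g)} (h : I ≤ I') (ν : Fin m → ℤ) : bI g I ν ≤ bI g I' ν := by
  rintro a ⟨r, hr, h1, h2⟩
  exact ⟨r, h hr, h1, h2⟩

private theorem lex_add_lt {a b c d : Fin m → ℤ} (h : toLex a < toLex b)
    (h' : toLex c ≤ toLex d) : toLex (a + c) < toLex (b + d) := by
  rw [toLex_add, toLex_add]
  exact add_lt_add_of_lt_of_le h h'

theorem bI_mul {I I' : Ideal (Rg g)} {ν μ : Fin m → ℤ} {a b : P k} (ha : a ∈ bI g I ν)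
    (hb : b ∈ bI g I' μ) : a * b ∈ bI g (I * I') (ν + μ) := by
  obtain ⟨r, hr, h1, h2⟩ := ha
  obtain ⟨s, hs, h3, h4⟩ := hb
  classical
  have ht : ∀ κ, κ ∉ insert ν (cf_finite g r).toFinset → cf g κ r = 0 := by
    intro κ hκ
    by_contra hne
    exact hκ (Finset.mem_insert_of_mem ((cf_finite g r).mem_toFinset.2 hne))
  refine ⟨r * s, Ideal.mul_mem_mul hr hs, ?_, fun κ' hκ' => ?_⟩
  · rw [cf_mul g r s _ ht, Finset.sum_eq_single ν]
    · rw [add_sub_cancel_left, h1, h3]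
    · intro κ _ hκ
      rcases lt_or_gt_of_ne (fun h : toLex κ = toLex ν => hκ (toLex.injective h)) with h | h
      · rw [h2 κ h, zero_mul]
      · have h5 : toLex (ν + μ - κ) < toLex μ := by
          have h6 := lex_add_lt h (le_refl (toLex (μ - κ)))
          have e1 : ν + (μ - κ) = ν + μ - κ := by abel
          have e2 : κ + (μ - κ) = μ := by abel
          rwa [e1, e2] at h6
        rw [h4 _ h5, mul_zero]
    · intro h
      exact absurd (Finset.mem_insert_self _ _) h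
  · rw [cf_mul g r s _ ht]
    refine Finset.sum_eq_zero fun κ _ => ?_
    rcases lt_or_ge (toLex κ) (toLex ν) with h | h
    · rw [h2 κ h, zero_mul]
    · have h5 : toLex (κ' - κ) < toLex μ := by
        have h6 := lex_add_lt hκ' (c := -κ) (d := -ν) (by
          rw [toLex_neg, toLex_neg]
          exact neg_le_neg h)
        have e1 : κ' + -κ = κ' - κ := by abel
        have e2 : ν + μ + -ν = μ := by abel
        rwa [e1, e2] at h6
      rw [h4 _ h5, mul_zero]

theorem bI_pow {I : Ideal (Rg g)} {ν : Fin m → ℤ} {a : P k} (S : ℕ) (ha : a ∈ bI g I ν ^ S) :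
    a ∈ bI g (I ^ S) (S • ν) := by
  induction S generalizing a with
  | zero =>
    refine ⟨ci g a * 1, ?_, ?_, fun μ hμ => ?_⟩
    · have e : I ^ 0 = ⊤ := by
        exact (pow_zero I).trans Ideal.one_eq_top
      rw [e]
      exact Submodule.mem_top
    · rw [cf_ci_mul, cf_one, zero_smul, if_pos rfl, mul_one]
    · rw [zero_smul] at hμ
      have hne : μ ≠ 0 := fun h => by
        rw [h] at hμ
        exact lt_irrefl _ hμ
      rw [cf_ci_mul, cf_one, if_neg hne, mul_zero]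
  | succ S ih =>
    have e : I ^ (S + 1) = I ^ S * I := pow_succ I S
    rw [pow_succ] at ha
    rw [e, succ_nsmul]
    refine Submodule.mul_induction_on ha (fun x hx y hy => bI_mul g (ih hx) hy)
      fun x y hx hy => Ideal.add_mem _ hx hy

theorem m0_pow_le_dI (hg0 : ∀ i, constantCoeff (g i) = 0) {I : Ideal (Rg g)} {N : ℕ}
    (h : mX g ^ N ≤ I) (ν : Fin m → ℤ) : LP.m0 2 k ^ N ≤ dI g I ν := by
  intro a ha
  rw [mem_dI]
  refine ⟨ci g a * E g ν, h (cf_zero_mem_pow g hg0 a N ha _), ?_, fun μ hμ => ?_⟩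
  · rw [cf_ci_mul, cf_E, if_pos rfl, mul_comm]
  · have hne : μ ≠ ν := fun h => by
      rw [h] at hμ
      exact lt_irrefl _ hμ
    rw [cf_ci_mul, cf_E, if_neg hne, mul_zero]

end CX
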