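import Pool.Agent.Lib.MP_9e8926_ag_CX.Lex

set_option autoImplicit false

noncomputable section

namespace CX

open MvPolynomial

variable {k : Type*} [Field k] {m : ℕ} (g : Fin m → P k)

theorem finite_quot (hg0 : ∀ i, constantCoeff (g i) = 0) {I : Ideal (Rg g)} {N : ℕ}
    (h : mX g ^ N ≤ I) : Module.Finite k (Rg g ⧸ I) := by
  have hmap : (idealOfVars (Vr m) k ^ N).map (Ideal.Quotient.mk (rel g)) ≤ I := by
    refine le_trans (le_of_eq ?_) h
    rw [Ideal.map_pow, idealOfVars, Ideal.map_span, ← Set.range_comp]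
    rfl
  let q : MvPolynomial (Vr m) k →ₗ[k] (Rg g ⧸ I) :=
    (Ideal.Quotient.mkₐ k I).toLinearMap ∘ₗ (Ideal.Quotient.mkₐ k (rel g)).toLinearMap
  have hq : Function.Surjective q := by
    intro y
    obtain ⟨r, rfl⟩ := Ideal.Quotient.mk_surjective y
    obtain ⟨a, rfl⟩ := Ideal.Quotient.mk_surjective r
    exact ⟨a, rfl⟩
  have hfin : ((fun u : Vr m →₀ ℕ => q (monomial u 1)) ''
      {u : Vr m →₀ ℕ | Finsupp.degree u < N}).Finite :=
    (Finsupp.finite_of_degree_lt N).image _
  refine ⟨Submodule.fg_def.2 ⟨_, hfin, ?_⟩⟩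
  rw [eq_top_iff]
  rintro y -
  obtain ⟨a, rfl⟩ := hq y
  induction a using MvPolynomial.induction_on' with
  | monomial u c =>
    by_cases hu : Finsupp.degree u < N
    · have e : (monomial u c : MvPolynomial (Vr m) k) = c • monomial u 1 := by
        rw [smul_monomial, smul_eq_mul, mul_one]
      rw [e, map_smul]
      exact Submodule.smul_mem _ _ (Submodule.subset_span ⟨u, hu, rfl⟩)
    · have h0 : q (monomial u c) = 0 := by
        have h1 : monomial u c ∈ idealOfVars (Vr m) k ^ N := by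
          by_cases hc : c = 0
          · rw [hc, map_zero]
            exact Ideal.zero_mem _
          · rw [monomial_mem_pow_idealOfVars_iff N u hc]
            exact not_lt.mp hu
        exact Ideal.Quotient.eq_zero_iff_mem.2 (hmap (Ideal.mem_map_of_mem _ h1))
      rw [h0]
      exact Submodule.zero_mem _
  | add a b ha hb =>
    rw [map_add]
    exact Submodule.add_mem _ ha hb

/-- `ci` as a linear map -/
private def ciL : P k →ₗ[k] Rg g :=
  ((Ideal.Quotient.mkₐ k (rel g)).comp (rename fun j => Sum.inr (Sum.inr j))).toLinearMap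

private theorem ciL_apply (a : P k) : ciL g a = ci g a := rfl

/-- The colengths of the coefficient ideals. -/
theorem sum_finrank_le (hg : ∀ i, g i ≠ 0) (hg0 : ∀ i, constantCoeff (g i) = 0)
    {I : Ideal (Rg g)} {N : ℕ} (h : mX g ^ N ≤ I) (F : Finset (Fin m → ℤ)) :
    ∑ ν ∈ F, Module.finrank k (P k ⧸ dI g I ν) ≤ Module.finrank k (Rg g ⧸ I) := by
  classical
  have hfin := finite_quot g hg0 h
  have hsec : ∀ ν : Fin m → ℤ, ∃ s : (P k ⧸ dI g I ν) →ₗ[k] P k,
      ∀ x, Ideal.Quotient.mk (dI g I ν) (s x) = x := by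
    intro ν
    obtain ⟨s, hs⟩ := LinearMap.exists_rightInverse_of_surjective
      (Ideal.Quotient.mkₐ k (dI g I ν)).toLinearMap
      (LinearMap.range_eq_top.2 Ideal.Quotient.mk_surjective)
    exact ⟨s, fun x => LinearMap.congr_fun hs x⟩
  choose s hs using hsec
  let Ψ : (∀ ν : F, P k ⧸ dI g I ν.1) →ₗ[k] (Rg g ⧸ I) :=
    ∑ ν : F, ((Ideal.Quotient.mkₐ k I).toLinearMap ∘ₗ (LinearMap.mulRight k (E g ν.1)) ∘ₗ
      (ciL g) ∘ₗ (s ν.1)) ∘ₗ LinearMap.proj ν
  have hΨ : ∀ x, Ψ x = Ideal.Quotient.mk I (∑ ν : F, ci g (s ν.1 (x ν)) * E g ν.1) := by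
    intro x
    rw [map_sum, LinearMap.sum_apply]
    rfl
  have hinj : Function.Injective Ψ := by
    rw [injective_iff_map_eq_zero]
    intro x hx
    rw [hΨ, Ideal.Quotient.eq_zero_iff_mem] at hx
    set r := ∑ ν : F, ci g (s ν.1 (x ν)) * E g ν.1 with hr
    have hcf : ∀ μ, cf g μ r = ∑ ν : F, s ν.1 (x ν) * (if μ = ν.1 then gam g ν.1 else 0) := by
      intro μ
      rw [hr, map_sum]
      exact Finset.sum_congr rfl fun ν _ => by rw [cf_ci_mul, cf_E]
    by_contra hne
    obtain ⟨ν', hν'⟩ := Function.ne_iff.mp hne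
    obtain ⟨ν0, hν0, hmin⟩ := Finset.exists_min_image
      (Finset.univ.filter fun ν : F => x ν ≠ 0) (fun ν => toLex ν.1)
      ⟨ν', Finset.mem_filter.2 ⟨Finset.mem_univ _, hν'⟩⟩
    have hx0 : x ν0 ≠ 0 := (Finset.mem_filter.1 hν0).2
    apply hx0
    rw [← hs ν0.1 (x ν0), Ideal.Quotient.eq_zero_iff_mem, mem_dI, mem_bI]
    refine ⟨r, hx, ?_, ?_⟩
    · rw [hcf, Finset.sum_eq_single ν0]
      · rw [if_pos rfl, mul_comm]
      · intro ν _ hν
        rw [if_neg, mul_zero]
        intro h1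
        exact hν (Subtype.ext h1.symm)
      · intro h1
        exact absurd (Finset.mem_univ _) h1
    · intro μ hμ
      rw [hcf]
      refine Finset.sum_eq_zero fun ν _ => ?_
      by_cases h1 : μ = ν.1
      · have h2 : x ν = 0 := by
          by_contra h3
          have h4 := hmin ν (Finset.mem_filter.2 ⟨Finset.mem_univ _, h3⟩)
          rw [← h1] at h4
          exact absurd hμ (not_lt.mpr h4)
        rw [h2, map_zero, zero_mul]
      · rw [if_neg h1, mul_zero]
  have hfinP : Module.Finite k (∀ ν : F, P k ⧸ dI g I ν.1) := Module.Finite.of_injective Ψ hinj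
  have hfinc : ∀ ν : F, Module.Finite k (P k ⧸ dI g I ν.1) := fun ν =>
    Module.Finite.of_surjective (LinearMap.proj (R := k) (φ := fun ν : F => P k ⧸ dI g I ν.1) ν)
      (LinearMap.proj_surjective ν)
  rw [← Finset.sum_coe_sort, ← Module.finrank_pi_fintype]
  exact LinearMap.finrank_le_finrank_of_injective hinj

end CX
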