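import Pool.Agent.Lib.MP_9e8926_ag_CX.WtE

set_option autoImplicit false

noncomputable section

namespace CX

open MvPolynomial Filter

variable {k : Type*} [Field k] {m : ℕ}

private theorem limX_mul_mem {R : Type*} [CommRing R] {I : Ideal R} {a b : R} {i j : ℕ}
    (ha : a ∈ I ^ i) (hb : b ∈ I ^ j) : a * b ∈ I ^ (i + j) := by
  rw [pow_add]
  exact Ideal.mul_mem_mul ha hb

private theorem limX_prod_mem {R : Type*} [CommRing R] {I : Ideal R} {ι : Type*} (s : Finset ι)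
    (a : ι → R) (n : ι → ℕ) (h : ∀ i ∈ s, a i ∈ I ^ n i) : ∏ i ∈ s, a i ∈ I ^ ∑ i ∈ s, n i := by
  rw [← Finset.prod_pow_eq_pow_sum]
  exact Ideal.prod_mem_prod h

private theorem limX_pow_mul {R : Type*} [CommRing R] {I J : Ideal R} {i : ℕ} (h : I ^ i ≤ J)
    (j : ℕ) : I ^ (i * j) ≤ J ^ j := by
  rw [pow_mul]
  exact Ideal.pow_right_mono h j

private theorem limX_ci (g : Fin m → P k) (u : Fin 2 →₀ ℕ) (c : k) :
    ci g (monomial u c) ∈ mX g ^ (u 0 + u 1) := by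
  have hX : ∀ j : Fin 2, Ideal.Quotient.mk (rel g) (X (Sum.inr (Sum.inr j))) ∈ mX g := fun j =>
    Ideal.subset_span ⟨Sum.inr (Sum.inr j), rfl⟩
  have e : monomial u c = C c * (X 0 ^ u 0 * X 1 ^ u 1) := by
    rw [monomial_eq, Finsupp.prod_fintype _ _ (fun i => pow_zero _), Fin.prod_univ_two]
  rw [e, ci, map_mul, map_mul, map_mul, map_pow, map_pow, rename_X, rename_X, map_mul, map_pow,
    map_pow]
  exact Ideal.mul_mem_left _ _ (limX_mul_mem (Ideal.pow_mem_pow (hX 0) _)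
    (Ideal.pow_mem_pow (hX 1) _))

private theorem limX_E (g : Fin m → P k) (ν : Fin m → ℤ) :
    E g ν ∈ mX g ^ (∑ i, ((ν i).toNat + (-(ν i)).toNat)) := by
  rw [E, map_prod]
  refine limX_prod_mem _ _ _ fun i _ => ?_
  rw [map_mul, map_pow, map_pow]
  have h1 : Ideal.Quotient.mk (rel g) (X (Sum.inl i)) ∈ mX g :=
    Ideal.subset_span ⟨Sum.inl i, rfl⟩
  have h2 : Ideal.Quotient.mk (rel g) (X (Sum.inr (Sum.inl i))) ∈ mX g :=
    Ideal.subset_span ⟨Sum.inr (Sum.inl i), rfl⟩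
  exact limX_mul_mem (Ideal.pow_mem_pow h1 _) (Ideal.pow_mem_pow h2 _)

/-- Elements of large weight are in large powers of the maximal ideal. -/
theorem aw_le_mX_pow (g G : Fin m → P k) (d : Fin m → ℕ) (h : Semi g G d) (N : ℕ) :
    aw g G d h ((2 + ∑ i, d i) * N) ≤ mX g ^ N := by
  intro r hr
  obtain ⟨s, c, hs, rfl⟩ := expand_wt g G d h _ r hr
  refine Ideal.sum_mem _ fun x hx => ?_
  have h1 := limX_mul_mem (limX_ci g x.1 (c x)) (limX_E g x.2)
  refine Ideal.pow_le_pow_right ?_ h1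
  have h2 := hs x hx
  have h3 : ∀ i, |x.2 i| = (((x.2 i).toNat + (-(x.2 i)).toNat : ℕ) : ℤ) := by
    intro i
    push_cast
    rcases le_total 0 (x.2 i) with h0 | h0
    · rw [abs_of_nonneg h0]
      omega
    · rw [abs_of_nonpos h0]
      omega
  have h4 : ∑ i, |x.2 i| * (d i : ℤ) ≤
      ∑ i, (((x.2 i).toNat + (-(x.2 i)).toNat : ℕ) : ℤ) * (2 + ∑ j, (d j : ℤ)) := by
    refine Finset.sum_le_sum fun i _ => ?_
    rw [h3]
    refine mul_le_mul_of_nonneg_left ?_ (Int.natCast_nonneg _)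
    have h5 := Finset.single_le_sum (f := fun j => (d j : ℤ)) (fun j _ => Int.natCast_nonneg _)
      (Finset.mem_univ i)
    linarith
  rw [← Finset.sum_mul] at h4
  have hD : (0 : ℤ) ≤ ∑ j, (d j : ℤ) := Finset.sum_nonneg fun j _ => Int.natCast_nonneg _
  have h6 : (2 : ℤ) * ((x.1 0 : ℤ) + (x.1 1 : ℤ)) ≤
      ((x.1 0 : ℤ) + (x.1 1 : ℤ)) * (2 + ∑ j, (d j : ℤ)) := by
    have : (0 : ℤ) ≤ (x.1 0 : ℤ) + (x.1 1 : ℤ) := by positivity
    nlinarith
  have h7 : (N : ℤ) * (2 + ∑ j, (d j : ℤ)) ≤ (((x.1 0 + x.1 1 : ℕ) : ℤ) +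
      ((∑ i, ((x.2 i).toNat + (-(x.2 i)).toNat) : ℕ) : ℤ)) * (2 + ∑ j, (d j : ℤ)) := by
    push_cast at h2 h4 ⊢
    linarith
  have h8 := le_of_mul_le_mul_right h7 (by linarith)
  exact_mod_cast h8

private theorem limX_finrank_mono {R : Type*} [CommRing R] [Algebra k R] {I J : Ideal R}
    (hIJ : I ≤ J) [Module.Finite k (R ⧸ I)] :
    Module.finrank k (R ⧸ J) ≤ Module.finrank k (R ⧸ I) := by
  have hs : Function.Surjective (Ideal.Quotient.factorₐ k hIJ).toLinearMap :=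
    Ideal.Quotient.factor_surjective hIJ
  exact LinearMap.finrank_le_finrank_of_surjective hs

theorem finrank_bdd (g G : Fin m → P k) (d : Fin m → ℕ) (h : Semi g G d) {I : Ideal (Rg g)}
    (hI : IsPrim (mX g) I) :
    ∃ C : ℝ, ∀ N : ℕ, 1 ≤ N → (Module.finrank k (Rg g ⧸ I ^ N) : ℝ) ≤ C * (N : ℝ) ^ (m + 2) := by
  obtain ⟨-, M, hM⟩ := hI
  have hM' : mX g ^ (M + 1) ≤ I := (Ideal.pow_le_pow_right (Nat.le_succ M)).trans hM
  have hd : ∀ i, (0 : ℝ) < d i := fun i => by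
    have := (h i).1
    exact_mod_cast this
  have hprod : 0 < ∏ i, (d i : ℝ) := Finset.prod_pos fun i _ => hd i
  have hsum : 0 ≤ ∑ i, (d i : ℝ) := Finset.sum_nonneg fun i _ => (hd i).le
  refine ⟨2 ^ m / (4 * ∏ i, (d i : ℝ)) *
    ((2 + ∑ i, (d i : ℝ)) * (M + 1) + 3 + ∑ i, (d i : ℝ)) ^ (m + 2), fun N hN => ?_⟩
  set K := (2 + ∑ i, d i) * ((M + 1) * N) with hK
  have hK1 : 1 ≤ K := by
    rw [hK]
    have h1 : 1 ≤ (M + 1) * N := Nat.mul_pos (Nat.succ_pos M) hN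
    have h2 : 1 ≤ 2 + ∑ i, d i := by omega
    exact Nat.mul_pos h2 h1
  have hle : aw g G d h K ≤ I ^ N := by
    exact (aw_le_mX_pow g G d h _).trans (limX_pow_mul hM' N)
  obtain ⟨-, M', hfin⟩ := aw_prim g G d h K hK1
  have : Module.Finite k (Rg g ⧸ aw g G d h K) := finite_quot g (fun i => h.const i) hfin
  have h1 : (Module.finrank k (Rg g ⧸ I ^ N) : ℝ) ≤
      (Module.finrank k (Rg g ⧸ aw g G d h K) : ℝ) := by
    exact_mod_cast limX_finrank_mono (k := k) hle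
  have h2 := finrank_aw g G d h K
  have h3 : (Module.finrank k (Rg g ⧸ aw g G d h K) : ℝ) ≤
      ((m + 2).factorial : ℝ) * (Module.finrank k (Rg g ⧸ aw g G d h K) : ℝ) := by
    have h4 : (1 : ℝ) ≤ ((m + 2).factorial : ℝ) := by
      exact_mod_cast Nat.factorial_pos (m + 2)
    exact le_mul_of_one_le_left (Nat.cast_nonneg _) h4
  refine h1.trans (h3.trans (h2.trans ?_))
  rw [mul_assoc, ← mul_pow]
  refine mul_le_mul_of_nonneg_left ?_ (by positivity)
  refine pow_le_pow_left₀ (by positivity) ?_ _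
  have hN' : (1 : ℝ) ≤ N := by exact_mod_cast hN
  have hKr : (K : ℝ) = (2 + ∑ i, (d i : ℝ)) * (M + 1) * N := by
    rw [hK]
    push_cast
    ring
  rw [hKr]
  nlinarith

private theorem limX_bdd (g G : Fin m → P k) (d : Fin m → ℕ) (h : Semi g G d) {I : Ideal (Rg g)}
    (hI : IsPrim (mX g) I) : IsBoundedUnder (· ≤ ·) atTop (fun N : ℕ => ((m + 2).factorial : ℝ) *
      (Module.finrank k (Rg g ⧸ I ^ N) : ℝ) / (N : ℝ) ^ (m + 2)) := by
  obtain ⟨C0, hC⟩ := finrank_bdd g G d h hI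
  refine isBoundedUnder_of_eventually_le (a := ((m + 2).factorial : ℝ) * C0) ?_
  filter_upwards [eventually_ge_atTop 1] with s hs
  have h0 : (0 : ℝ) < (s : ℝ) := by exact_mod_cast hs
  rw [div_le_iff₀ (by positivity), mul_assoc]
  exact mul_le_mul_of_nonneg_left (hC s hs) (by positivity)

theorem emult_nonneg (g G : Fin m → P k) (d : Fin m → ℕ) (h : Semi g G d) {I : Ideal (Rg g)}
    (hI : IsPrim (mX g) I) : 0 ≤ emult k (m + 2) I := by
  unfold emult
  exact le_limsup_of_frequently_le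
    (Eventually.frequently (Eventually.of_forall fun s => by positivity)) (limX_bdd g G d h hI)

/-- Lower bounds for multiplicities. -/
theorem le_emult (g G : Fin m → P k) (d : Fin m → ℕ) (h : Semi g G d) {I : Ideal (Rg g)}
    (hI : IsPrim (mX g) I) (x : ℕ → ℝ) (v : ℝ) (hx : Tendsto x atTop (nhds v))
    (hN : ∀ N : ℕ, 1 ≤ N → x N * (N : ℝ) ^ (m + 2) ≤
      ((m + 2).factorial : ℝ) * (Module.finrank k (Rg g ⧸ I ^ N) : ℝ)) :
    v ≤ emult k (m + 2) I := by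
  unfold emult
  rw [← hx.limsup_eq]
  refine limsup_le_limsup ?_ hx.isCoboundedUnder_le (limX_bdd g G d h hI)
  filter_upwards [eventually_ge_atTop 1] with s hs
  have h0 : (0 : ℝ) < (s : ℝ) := by exact_mod_cast hs
  rw [le_div_iff₀ (by positivity)]
  exact hN s hs

end CX
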