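import Pool.Agent.Lib.MP_9e8926_ag_LP.BrF
import Pool.Agent.Lib.MP_9e8926_ag_FV.FvUp

set_option autoImplicit false

noncomputable section

namespace CX

open MvPolynomial

/-- The leading forms of the `g_i` are `G_i`, of degree `d_i ≥ 1`, and every linear factor of
`G_i` has multiplicity at most `d_i / 2`. -/
def Semi {k : Type*} [Field k] {m : ℕ} (g G : Fin m → MvPolynomial (Fin 2) k)
    (d : Fin m → ℕ) : Prop :=
  ∀ i, 1 ≤ d i ∧ FV.IsInit 1 1 (g i) (d i) (G i) ∧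
    ∀ ℓ : MvPolynomial (Fin 2) k, ℓ ≠ 0 → FV.Homog 1 1 1 ℓ → ∀ n : ℕ, ℓ ^ n ∣ G i → 2 * n ≤ d i

theorem Semi.ne_zero {k : Type*} [Field k] {m : ℕ} {g G : Fin m → MvPolynomial (Fin 2) k}
    {d : Fin m → ℕ} (h : Semi g G d) (i : Fin m) : g i ≠ 0 := (h i).2.1.ne_zero

theorem Semi.const {k : Type*} [Field k] {m : ℕ} {g G : Fin m → MvPolynomial (Fin 2) k}
    {d : Fin m → ℕ} (h : Semi g G d) (i : Fin m) : constantCoeff (g i) = 0 := by
  rw [constantCoeff_eq]
  by_contra hne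
  have h1 := (h i).2.1.ge 0 (mem_support_iff.2 hne)
  have h2 := (h i).1
  unfold FV.wt at h1
  simp at h1
  omega

namespace PairL

theorem tau_one {k : Type*} [Field k] (f : FV.P2 k) : FV.tau 1 (0 : Polynomial k) f = f := by
  have h : FV.shear (0 : Polynomial k) = AlgHom.id k (FV.P2 k) := by
    refine MvPolynomial.algHom_ext fun i => ?_
    fin_cases i
    · simp [FV.shear]
    · simp [FV.shear]
  unfold FV.tau
  rw [h, FV.lin_one]
  rfl

theorem mem_bot {k : Type*} [Field k] (f : FV.P2 k) :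
    f ∈ FV.Inv (⊥ : Subgroup (Matrix.GeneralLinearGroup (Fin 2) k)) := by
  intro σ hσ
  rw [Subgroup.mem_bot] at hσ
  rw [hσ, Units.val_one, FV.lin_one]
  rfl

theorem homog_init {k : Type*} [Field k] {j : ℕ} {f : FV.P2 k} (h0 : f ≠ 0)
    (h : FV.Homog 1 1 j f) : FV.IsInit 1 1 f j f := by
  refine ⟨h0, h, ?_⟩
  intro m hm
  rw [sub_self] at hm
  simp at hm

theorem deg_le {k : Type*} [Field k] {v d n : ℕ} {π H : FV.P2 k} (hπ : FV.Homog 1 1 v π)
    (hH0 : H ≠ 0) (hH : FV.Homog 1 1 d H) (hd : π ^ n ∣ H) : n * v ≤ d := by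
  obtain ⟨q, hq⟩ := hd
  have hq0 : q ≠ 0 := by
    rintro rfl
    exact hH0 (by rw [hq, mul_zero])
  have hp0 : π ^ n ≠ 0 := by
    intro h0
    exact hH0 (by rw [hq, h0, zero_mul])
  obtain ⟨j, K, hK⟩ := FV.exists_isInit 1 1 hq0
  have h1 := (homog_init hp0 (hπ.pow n)).mul hK
  rw [← hq] at h1
  have h2 := (homog_init hH0 hH).unique h1
  omega

theorem mon_exp {k : Type*} [Field k] (m : Fin 2 →₀ ℕ) (i : Fin 2) (hm : 1 ≤ m i) :
    ∃ s : FV.P2 k, FV.Ge 1 1 (FV.wt 1 1 m - 1) s ∧ monomial m (1 : k) = X i * s := by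
  have h1 : Finsupp.single i 1 + (m - Finsupp.single i 1) = m := by
    rw [add_tsub_cancel_of_le]
    rwa [Finsupp.single_le_iff]
  refine ⟨monomial (m - Finsupp.single i 1) (1 : k), ?_, ?_⟩
  · intro n hn
    have h2 : n = m - Finsupp.single i 1 := by
      rw [mem_support_iff, coeff_monomial] at hn
      by_contra hne
      exact hn (if_neg fun h => hne h.symm)
    rw [h2]
    have h3 : FV.wt 1 1 m = FV.wt 1 1 (Finsupp.single i 1) +
        FV.wt 1 1 (m - Finsupp.single i 1) := by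
      rw [← FV.wt_add, h1]
    have h4 : FV.wt 1 1 (Finsupp.single i 1) = 1 := by
      unfold FV.wt
      fin_cases i <;> simp
    omega
  · rw [X, monomial_mul, one_mul, h1]

theorem ub_one (k : Type*) [Field k] : FV.UB 1 1 1 (X 0 : FV.P2 k) (X 1) := by
  have hX : ∀ i : Fin 2, FV.Ge 1 1 1 (X i : FV.P2 k) := by
    intro i m hm
    rw [support_X, Finset.mem_singleton] at hm
    rw [hm]
    unfold FV.wt
    fin_cases i <;> simp
  refine ⟨hX 0, hX 1, fun m hm => ?_⟩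
  have h0 : FV.Ge 1 1 (FV.wt 1 1 m - 1) (0 : FV.P2 k) := fun n hn => by simp at hn
  by_cases h1 : 1 ≤ m 0
  · obtain ⟨s, hs, he⟩ := mon_exp (k := k) m 0 h1
    exact ⟨s, 0, hs, h0, by rw [he, mul_zero, add_zero]⟩
  · have h2 : 1 ≤ m 1 := by
      unfold FV.wt at hm
      omega
    obtain ⟨s, hs, he⟩ := mon_exp (k := k) m 1 h2
    exact ⟨0, s, h0, hs, by rw [he, mul_zero, zero_add]⟩

end PairL

/-- The lower bound for the Frobenius volumes of the pairs `(k², ∑ λ_i div g_i)`. -/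
theorem pair_low {k : Type*} [Field k] [PerfectField k] (p : ℕ) [Fact p.Prime] [CharP k p]
    {m : ℕ} (g G : Fin m → MvPolynomial (Fin 2) k) (d : Fin m → ℕ) (h : Semi g G d)
    (lam : Fin m → ℚ) (hl : ∀ i, 0 ≤ lam i) (hS : ∑ i, (lam i : ℝ) * d i < 2) :
    (2 - ∑ i, (lam i : ℝ) * d i) ^ 2 - 8 * (∑ i, (d i : ℝ)) / p ≤ LP.Fvol p g lam := by
  have hl' : ∀ i, (0 : ℝ) ≤ (lam i : ℝ) := fun i => by exact_mod_cast hl i
  have hS0 : 0 ≤ ∑ i, (lam i : ℝ) * d i :=
    Finset.sum_nonneg fun i _ => mul_nonneg (hl' i) (Nat.cast_nonneg _)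
  set A : ℝ := 2 - ∑ i, (lam i : ℝ) * d i with hA
  have hA0 : 0 < A := by rw [hA]; linarith
  have hA2 : A ≤ 2 := by rw [hA]; linarith
  have hSS : FV.SS 1 1 lam A G := by
    intro π v hirr hπ hv n hn
    rcases Nat.lt_or_ge v 2 with h2 | h2
    · have hv1 : v = 1 := by omega
      subst hv1
      have h3 : ∑ i, (lam i : ℝ) * n i ≤ ∑ i, (lam i : ℝ) * (d i / 2) := by
        refine Finset.sum_le_sum fun i _ => mul_le_mul_of_nonneg_left ?_ (hl' i)
        have h4 : 2 * n i ≤ d i := (h i).2.2 π hirr.ne_zero hπ (n i) (hn i)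
        have h5 : (2 : ℝ) * n i ≤ d i := by exact_mod_cast h4
        linarith
      have h6 : ∑ i, (lam i : ℝ) * ((d i : ℝ) / 2) = (∑ i, (lam i : ℝ) * d i) / 2 := by
        rw [Finset.sum_div]
        exact Finset.sum_congr rfl fun i _ => by ring
      rw [h6] at h3
      push_cast
      rw [hA]
      linarith
    · have h3 : (v : ℝ) * ∑ i, (lam i : ℝ) * n i ≤ ∑ i, (lam i : ℝ) * d i := by
        rw [Finset.mul_sum]
        refine Finset.sum_le_sum fun i _ => ?_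
        have h4 := PairL.deg_le hπ (h i).2.1.1 (h i).2.1.2.1 (hn i)
        have h5 : (n i : ℝ) * v ≤ d i := by exact_mod_cast h4
        calc (v : ℝ) * ((lam i : ℝ) * n i) = (lam i : ℝ) * (n i * v) := by ring
          _ ≤ _ := mul_le_mul_of_nonneg_left h5 (hl' i)
      have h6 : (2 : ℝ) ≤ v := by exact_mod_cast h2
      rw [mul_sub, mul_one]
      linarith
  have hAd : FV.Adapted (⊥ : Subgroup (Matrix.GeneralLinearGroup (Fin 2) k)) g lam 1 1 1 d A := by
    refine ⟨1, 1, 0, G, ⟨X 0, PairL.mem_bot _⟩, ⟨X 1, PairL.mem_bot _⟩, by rw [one_mul],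
      Polynomial.coeff_zero 0, fun i => ?_, hSS, ?_⟩
    · rw [PairL.tau_one]
      exact (h i).2.1
    · rw [PairL.tau_one, PairL.tau_one]
      exact PairL.ub_one k
  have hcard : Nat.card (⊥ : Subgroup (Matrix.GeneralLinearGroup (Fin 2) k)) = 1 :=
    Subgroup.card_bot
  have hG : ∀ σ ∈ (⊥ : Subgroup (Matrix.GeneralLinearGroup (Fin 2) k)), σ ≠ 1 →
      ((σ : Matrix (Fin 2) (Fin 2) k) - 1).det ≠ 0 :=
    fun σ hσ h1 => absurd (Subgroup.mem_bot.1 hσ) h1
  have hmain := FV.fvol_est p (⊥ : Subgroup (Matrix.GeneralLinearGroup (Fin 2) k)) g lam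
    (by rw [hcard]; simp) hG hl (fun i => PairL.mem_bot _) le_rfl le_rfl le_rfl d A
    (by rw [hA]; push_cast; ring) hA0 hAd
  rw [hcard] at hmain
  have hp : (0 : ℝ) < p := by exact_mod_cast (Fact.out : p.Prime).pos
  have hD : (0 : ℝ) ≤ ∑ i, (d i : ℝ) := Finset.sum_nonneg fun i _ => Nat.cast_nonneg _
  rw [LP.fvol_eq_bot]
  have h1 := (abs_le.1 hmain).1
  have h2 : (4 * A * (∑ i, (d i : ℝ)) / (((1 : ℕ) : ℝ) * ((1 : ℕ) : ℝ) * ((1 : ℕ) : ℝ))) / p ≤
      8 * (∑ i, (d i : ℝ)) / p := by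
    apply div_le_div_of_nonneg_right _ hp.le
    push_cast
    rw [one_mul, one_mul, div_one]
    nlinarith
  have h3 : A ^ 2 / (((1 : ℕ) : ℝ) * ((1 : ℕ) : ℝ) * ((1 : ℕ) : ℝ)) = A ^ 2 := by
    push_cast
    rw [one_mul, one_mul, div_one]
  rw [h3] at h1
  linarith

end CX
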