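import Pool.Agent.Lib.MP_9e8926_ag_CX.SliceX
import Pool.Agent.Lib.MP_9e8926_ag_CX.LexD
import Pool.Agent.Lib.MP_9e8926_ag_CX.PairL
import Pool.Agent.Lib.MP_9e8926_ag_CX.SumL

set_option autoImplicit false

noncomputable section

namespace CX

open MvPolynomial

variable {k : Type*} [Field k] {m : ℕ} (p : ℕ) [Fact p.Prime] [CharP k p]

private theorem lowA_sum (g : Fin m → P k) (hg : ∀ i, g i ≠ 0)
    (hg0 : ∀ i, constantCoeff (g i) = 0) {J : Ideal (Rg g)} {N' : ℕ} (hJ : mX g ^ N' ≤ J)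
    (M : ℕ) :
    ∑ ν ∈ Bx m M, ∑ ε : Fin m → Bool, Module.finrank k (P k ⧸ dI g J (sg ε ν)) ≤
      Module.finrank k (Rg g ⧸ J) := by
  classical
  have h1 := sum_finrank_le g hg hg0 hJ
    ((Bx m M ×ˢ (Finset.univ : Finset (Fin m → Bool))).image (fun x => sg x.2 x.1))
  rw [Finset.sum_image, Finset.sum_product] at h1
  · exact h1
  · rintro ⟨ν, ε⟩ hx ⟨ν', ε'⟩ hy hxy
    have hν : ∀ i, 1 ≤ ν i := by
      intro i
      have h2 := (Finset.mem_product.1 (Finset.mem_coe.1 hx)).1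
      unfold Bx at h2
      rw [Fintype.mem_piFinset] at h2
      exact (Finset.mem_Icc.1 (h2 i)).1
    have hν' : ∀ i, 1 ≤ ν' i := by
      intro i
      have h2 := (Finset.mem_product.1 (Finset.mem_coe.1 hy)).1
      unfold Bx at h2
      rw [Fintype.mem_piFinset] at h2
      exact (Finset.mem_Icc.1 (h2 i)).1
    obtain ⟨h3, h4⟩ := sg_inj hν hν' hxy
    exact Prod.ext h4 h3

/-- The lower bound for the colengths of the powers of an ideal. -/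
theorem colen_low [PerfectField k] (g G : Fin m → P k) (d : Fin m → ℕ) (h : Semi g G d)
    {I : Ideal (Rg g)} (hI : IsPrim (mX g) I) (t : ℚ) (ht : fpt p (mX g) I < t) (N : ℕ)
    (hN : 1 ≤ N) :
    (2 : ℝ) ^ (3 * m + 2) / (∏ i, (d i : ℝ)) * ((N : ℝ) / t) ^ (m + 2) *
      (max 0 (1 - (∑ i, (d i : ℝ)) * t / (4 * N)) ^ (m + 2) -
        ((m + 2).factorial : ℝ) * (∑ i, (d i : ℝ)) / p) ≤
      ((m + 2).factorial : ℝ) * (Module.finrank k (Rg g ⧸ I ^ N) : ℝ) := by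
  classical
  have hg : ∀ i, g i ≠ 0 := fun i => h.ne_zero i
  have hg0 : ∀ i, constantCoeff (g i) = 0 := fun i => h.const i
  have ht0 : (0:ℝ) < t := lt_of_le_of_lt (fpt_nonneg g p I) ht
  have hN0 : (0:ℝ) < N := by exact_mod_cast hN
  have hp0 : (0:ℝ) < p := by exact_mod_cast (Fact.out : p.Prime).pos
  have hd : ∀ i, (0:ℝ) < d i := fun i => by exact_mod_cast (h i).1
  obtain ⟨N0, hN0'⟩ := hI.2
  have hJ : mX g ^ (N0 * N) ≤ I ^ N := by
    have e : mX g ^ (N0 * N) = (mX g ^ N0) ^ N := pow_mul (mX g) N0 N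
    rw [e]
    exact Ideal.pow_right_mono hN0' N
  obtain ⟨a, ha_def⟩ : ∃ a : Fin m → ℝ, a = fun i => (d i : ℝ) * t / (2 * N) := ⟨_, rfl⟩
  have ha : ∀ i, 0 < a i := by
    intro i
    rw [ha_def]
    have := hd i
    positivity
  obtain ⟨M, hM0⟩ := exists_nat_ge (∑ i, 2 / a i)
  have hM : ∀ i, (2:ℝ) ≤ M * a i := by
    intro i
    have h1 : 2 / a i ≤ ∑ j, 2 / a j :=
      Finset.single_le_sum (f := fun j => 2 / a j) (fun j _ => (div_pos two_pos (ha j)).le)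
        (Finset.mem_univ i)
    have h2 : 2 / a i ≤ M := h1.trans hM0
    rwa [div_le_iff₀ (ha i)] at h2
  have hA : ∑ ν ∈ Bx m M, ∑ ε : Fin m → Bool,
      (Module.finrank k (P k ⧸ dI g (I ^ N) (sg ε ν)) : ℝ) ≤
      (Module.finrank k (Rg g ⧸ I ^ N) : ℝ) := by
    have h1 := lowA_sum g hg hg0 hJ M
    exact_mod_cast h1
  -- the terms
  have hterm : ∀ ν ∈ Bx m M, 2 ^ m * ((N : ℝ) / t) ^ 2 *
      (max 0 (2 - ∑ i, a i * ν i) ^ 2 -
        (if ∑ i, a i * ν i < 2 then 8 * (∑ i, (d i : ℝ)) / p else 0)) ≤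
      2 * ∑ ε : Fin m → Bool, (Module.finrank k (P k ⧸ dI g (I ^ N) (sg ε ν)) : ℝ) := by
    intro ν _
    have h1 := slice_sum g p hg hg0 hI t ht N hN ν
    split_ifs with hlt
    · refine le_trans ?_ h1
      refine mul_le_mul_of_nonneg_left ?_ (by positivity)
      have hcast : ∀ i, (((t * ν i / (2 * N) : ℚ)) : ℝ) * d i = a i * ν i := by
        intro i
        rw [ha_def]
        push_cast
        ring
      have h2 := pair_low p g G d h (fun i => t * ν i / (2 * N)) (fun i => by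
        have : (0:ℚ) ≤ t := by exact_mod_cast ht0.le
        positivity) (by
        rw [Finset.sum_congr rfl fun i _ => hcast i]
        exact hlt)
      rw [Finset.sum_congr rfl fun i _ => hcast i] at h2
      rw [max_eq_right (by linarith)]
      exact h2
    · rw [max_eq_left (by linarith)]
      have h3 : (0:ℝ) ≤ ∑ ε : Fin m → Bool,
          (Module.finrank k (P k ⧸ dI g (I ^ N) (sg ε ν)) : ℝ) :=
        Finset.sum_nonneg fun _ _ => Nat.cast_nonneg _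
      simp only [ne_eq, OfNat.ofNat_ne_zero, not_false_eq_true, zero_pow, sub_zero, mul_zero]
      positivity
  have hB : 2 ^ m * ((N : ℝ) / t) ^ 2 * (∑ ν ∈ Bx m M, max 0 (2 - ∑ i, a i * ν i) ^ 2 -
      8 * (∑ i, (d i : ℝ)) / p *
        (((Bx m M).filter fun ν => ∑ i, a i * ν i < 2).card : ℝ)) ≤
      2 * (Module.finrank k (Rg g ⧸ I ^ N) : ℝ) := by
    refine le_trans (le_of_eq ?_) ((Finset.sum_le_sum hterm).trans ?_)
    · rw [← Finset.mul_sum, Finset.sum_sub_distrib, ← Finset.sum_filter, Finset.sum_const,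
        nsmul_eq_mul, mul_comm (8 * (∑ i, (d i : ℝ)) / p)]
    · rw [← Finset.mul_sum]
      exact mul_le_mul_of_nonneg_left hA zero_le_two
  have hS := sum_low m 2 M a ha 2 hM
  have hC := count_low m M a ha 2 two_pos
  obtain ⟨S, hSdef⟩ : ∃ S, S = ∑ ν ∈ Bx m M, max 0 (2 - ∑ i, a i * ν i) ^ 2 := ⟨_, rfl⟩
  obtain ⟨n, hndef⟩ : ∃ n : ℝ, n = (((Bx m M).filter fun ν => ∑ i, a i * ν i < 2).card : ℝ) :=
    ⟨_, rfl⟩
  rw [← hSdef, ← hndef] at hB
  rw [← hSdef] at hS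
  rw [← hndef] at hC
  obtain ⟨R, hR⟩ : ∃ R : ℝ, R = (Module.finrank k (Rg g ⧸ I ^ N) : ℝ) := ⟨_, rfl⟩
  rw [← hR] at hB ⊢
  obtain ⟨D, hD⟩ : ∃ D : ℝ, D = ∑ i, (d i : ℝ) := ⟨_, rfl⟩
  rw [← hD] at hB ⊢
  have hD0 : 0 ≤ D := by
    rw [hD]
    exact Finset.sum_nonneg fun i _ => (hd i).le
  obtain ⟨Pd, hPd⟩ : ∃ Pd : ℝ, Pd = ∏ i, (d i : ℝ) := ⟨_, rfl⟩
  have hPd0 : 0 < Pd := by
    rw [hPd]
    exact Finset.prod_pos fun i _ => hd i
  rw [← hPd]
  have hsa : ∑ i, a i = D * t / (2 * N) := by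
    rw [ha_def, hD, Finset.sum_mul, Finset.sum_div]
  have hpa : ∏ i, a i = Pd * (t / (2 * N)) ^ m := by
    rw [ha_def, hPd]
    have : ∀ i : Fin m, (d i : ℝ) * t / (2 * N) = d i * (t / (2 * N)) := fun i => by ring
    simp only [this]
    rw [Finset.prod_mul_distrib, Finset.prod_const, Finset.card_univ, Fintype.card_fin]
  obtain ⟨X, hX⟩ : ∃ X : ℝ, X = max 0 (1 - D * t / (4 * N)) := ⟨_, rfl⟩
  have hX2 : max 0 (2 - ∑ i, a i) = 2 * X := by
    rw [hX, hsa, mul_max_of_nonneg _ _ zero_le_two, mul_zero]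
    congr 1
    field_simp
    ring
  rw [hX2, hpa, add_comm 2 m, mul_pow] at hS
  rw [hpa] at hC
  rw [← hX]
  obtain ⟨x, hx⟩ : ∃ x : ℝ, x = t / (2 * N) := ⟨_, rfl⟩
  have hx0 : 0 < x := by
    rw [hx]
    positivity
  have hNt : (N:ℝ) / t = 1 / (2 * x) := by
    rw [hx]
    field_simp
  rw [hNt] at hB ⊢
  rw [← hx] at hS hC
  obtain ⟨f, hf⟩ : ∃ f : ℝ, f = ((m + 2).factorial : ℝ) := ⟨_, rfl⟩
  have hf0 : 0 < f := by
    rw [hf]
    exact_mod_cast Nat.factorial_pos _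
  rw [← hf] at hS ⊢
  have h2f : ((2:ℕ).factorial : ℝ) = 2 := by norm_num [Nat.factorial]
  rw [h2f] at hS
  -- `hB : 2 ^ m * (1 / (2 x)) ^ 2 * (S - 8 D / p * n) ≤ 2 R`
  -- `hS : 2 * (2 ^ (m + 2) * X ^ (m + 2)) ≤ f * (Pd * x ^ m) * S`
  -- `hC : Pd * x ^ m * n ≤ 2 ^ m`
  have hxm : 0 < x ^ m := pow_pos hx0 m
  have h4 : f * (Pd * x ^ m) * (S - 8 * D / p * n) ≥
      2 * (2 ^ (m + 2) * X ^ (m + 2)) - 8 * D / p * f * 2 ^ m := by
    have h5 : 8 * D / p * f * (Pd * x ^ m * n) ≤ 8 * D / p * f * 2 ^ m :=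
      mul_le_mul_of_nonneg_left hC (by positivity)
    have h6 : f * (Pd * x ^ m) * (S - 8 * D / p * n) =
        f * (Pd * x ^ m) * S - 8 * D / p * f * (Pd * x ^ m * n) := by ring
    rw [h6]
    linarith
  have h7 : 2 ^ m * (1 / (2 * x)) ^ 2 *
      (2 * (2 ^ (m + 2) * X ^ (m + 2)) - 8 * D / p * f * 2 ^ m) ≤
      f * (Pd * x ^ m) * (2 * R) := by
    calc 2 ^ m * (1 / (2 * x)) ^ 2 *
        (2 * (2 ^ (m + 2) * X ^ (m + 2)) - 8 * D / p * f * 2 ^ m)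
        ≤ 2 ^ m * (1 / (2 * x)) ^ 2 * (f * (Pd * x ^ m) * (S - 8 * D / p * n)) :=
          mul_le_mul_of_nonneg_left h4 (by positivity)
      _ = f * (Pd * x ^ m) * (2 ^ m * (1 / (2 * x)) ^ 2 * (S - 8 * D / p * n)) := by ring
      _ ≤ f * (Pd * x ^ m) * (2 * R) := mul_le_mul_of_nonneg_left hB (by positivity)
  have h8 : (2:ℝ) ^ (3 * m + 2) / Pd * (1 / (2 * x)) ^ (m + 2) * (X ^ (m + 2) - f * D / p) =
      2 ^ m * (1 / (2 * x)) ^ 2 *
      (2 * (2 ^ (m + 2) * X ^ (m + 2)) - 8 * D / p * f * 2 ^ m) / (2 * (Pd * x ^ m)) := by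
    rw [eq_div_iff (by positivity)]
    have e1 : (2:ℝ) ^ (3 * m + 2) = 2 ^ m * 2 ^ m * 2 ^ m * 4 := by
      rw [show 3 * m + 2 = m + m + m + 2 by ring, pow_add, pow_add, pow_add]
      norm_num
    have e2 : (1 / (2 * x)) ^ (m + 2) = (1 / (2 * x)) ^ m * (1 / (2 * x)) ^ 2 := pow_add _ _ _
    have e3 : (2:ℝ) ^ (m + 2) = 2 ^ m * 4 := by
      rw [pow_add]
      norm_num
    have e4 : (1 / (2 * x)) ^ m * (2 ^ m * x ^ m) = 1 := by
      rw [← mul_pow, ← mul_pow, one_div, inv_mul_cancel₀ (by positivity), one_pow]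
    rw [e1, e2, e3]
    have e5 : (2:ℝ) ^ m * 2 ^ m * 2 ^ m * 4 / Pd * ((1 / (2 * x)) ^ m * (1 / (2 * x)) ^ 2) *
        (X ^ (m + 2) - f * D / p) * (2 * (Pd * x ^ m)) =
        (2:ℝ) ^ m * 2 ^ m * 8 * (1 / (2 * x)) ^ 2 *
        (X ^ (m + 2) - f * D / p) * ((1 / (2 * x)) ^ m * (2 ^ m * x ^ m)) * (Pd / Pd) := by
      ring
    rw [e5, e4, div_self hPd0.ne']
    ring
  rw [h8, div_le_iff₀ (by positivity)]
  refine h7.trans (le_of_eq ?_)
  ring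

end CX
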