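import Pool.Agent.Lib.MP_9e8926_ag_CX.LowA
import Pool.Agent.Lib.MP_9e8926_ag_CX.LimX

set_option autoImplicit false

noncomputable section

namespace CX

open MvPolynomial

variable {k : Type*} [Field k] {m : ℕ} (p : ℕ) [Fact p.Prime] [CharP k p]

private theorem tendsto_aux (V D t c : ℝ) (n : ℕ) :
    Filter.Tendsto (fun N : ℕ => V * (1 / t) ^ n *
      (max 0 (1 - D * t / (4 * (N : ℝ))) ^ n - c)) Filter.atTop
      (nhds (V * (1 / t) ^ n * (1 - c))) := by
  have h1 : Filter.Tendsto (fun N : ℕ => D * t / (4 * (N : ℝ))) Filter.atTop (nhds 0) := by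
    have h2 : Filter.Tendsto (fun N : ℕ => D * t / 4 / (N : ℝ)) Filter.atTop (nhds 0) :=
      tendsto_const_div_atTop_nhds_zero_nat _
    refine h2.congr fun N => ?_
    rw [div_div]
  have h3 : Filter.Tendsto (fun N : ℕ => max 0 (1 - D * t / (4 * (N : ℝ)))) Filter.atTop
      (nhds (max 0 (1 - 0))) := tendsto_const_nhds.max (tendsto_const_nhds.sub h1)
  have h4 : max (0 : ℝ) (1 - 0) = 1 := by norm_num
  rw [h4] at h3
  have h5 := ((h3.pow n).sub_const c).const_mul (V * (1 / t) ^ n)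
  rwa [one_pow] at h5

private theorem low_rat [PerfectField k] (g G : Fin m → P k) (d : Fin m → ℕ) (h : Semi g G d)
    {I : Ideal (Rg g)} (hI : IsPrim (mX g) I) (t : ℚ) (ht0 : (0 : ℝ) < t)
    (ht : fpt p (mX g) I < t) :
    (2 : ℝ) ^ (3 * m + 2) / (∏ i, (d i : ℝ)) *
      (1 - ((m + 2).factorial : ℝ) * (∑ i, (d i : ℝ)) / p) ≤
      emult k (m + 2) I * (t : ℝ) ^ (m + 2) := by
  have h1 := le_emult g G d h hI _ _ (tendsto_aux ((2 : ℝ) ^ (3 * m + 2) / (∏ i, (d i : ℝ)))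
    (∑ i, (d i : ℝ)) t (((m + 2).factorial : ℝ) * (∑ i, (d i : ℝ)) / p) (m + 2)) (fun N hN => by
      have h2 := colen_low p g G d h hI t ht N hN
      refine le_trans (le_of_eq ?_) h2
      rw [div_pow, div_pow, one_pow]
      ring)
  have h3 : (0 : ℝ) < (t : ℝ) ^ (m + 2) := pow_pos ht0 _
  have h4 := mul_le_mul_of_nonneg_right h1 h3.le
  refine le_trans (le_of_eq ?_) h4
  rw [div_pow, one_pow]
  field_simp

theorem emult_low [PerfectField k] (g G : Fin m → P k) (d : Fin m → ℕ) (h : Semi g G d)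
    {I : Ideal (Rg g)} (hI : IsPrim (mX g) I) :
    (2 : ℝ) ^ (3 * m + 2) / (∏ i, (d i : ℝ)) *
      (1 - ((m + 2).factorial : ℝ) * (∑ i, (d i : ℝ)) / p) ≤
      emult k (m + 2) I * fpt p (mX g) I ^ (m + 2) := by
  by_contra hcon
  push Not at hcon
  have h0 : 0 ≤ fpt p (mX g) I := Real.sSup_nonneg fun t ht => ht.1
  have hc : ContinuousAt (fun s : ℝ => emult k (m + 2) I * s ^ (m + 2)) (fpt p (mX g) I) :=
    (continuous_const.mul (continuous_pow (m + 2))).continuousAt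
  have h1 := hc.eventually (gt_mem_nhds hcon)
  obtain ⟨ε, hε, h2⟩ := Metric.eventually_nhds_iff.1 h1
  obtain ⟨t, ht1, ht2⟩ := exists_rat_btwn (show fpt p (mX g) I < fpt p (mX g) I + ε by linarith)
  have h3 : dist (t : ℝ) (fpt p (mX g) I) < ε := by
    rw [Real.dist_eq, abs_lt]
    constructor <;> linarith
  have h4 := h2 h3
  have h5 := low_rat p g G d h hI t (lt_of_le_of_lt h0 ht1) ht1
  exact absurd h5 (not_le.2 h4)

theorem fvol_low [PerfectField k] (g G : Fin m → P k) (d : Fin m → ℕ) (h : Semi g G d) :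
    (2 : ℝ) ^ (3 * m + 2) / (∏ i, (d i : ℝ)) *
      (1 - ((m + 2).factorial : ℝ) * (∑ i, (d i : ℝ)) / p) ≤ Fvol p g := by
  have hne : {v : ℝ | ∃ I : Ideal (Rg g), IsPrim (mX g) I ∧
      v = emult k (m + 2) I * fpt p (mX g) I ^ (m + 2)}.Nonempty :=
    ⟨_, mX g, ⟨le_rfl, 1, by rw [pow_one]⟩, rfl⟩
  refine le_csInf hne ?_
  rintro _ ⟨I, hI, rfl⟩
  exact emult_low p g G d h hI

end CX
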