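import Pool.Agent.Lib.MP_9e8926_ag_CX.PairL
import Pool.Agent.Lib.MP_9e8926_ag_FV.SpRing
import Pool.Agent.Lib.MP_9e8926_ag_FV.Bez

set_option autoImplicit false

noncomputable section

namespace CX

open MvPolynomial

private theorem spr_homog_iff {R : Type*} [CommRing R] {d : ℕ} {F : MvPolynomial (Fin 2) R} :
    FV.Homog 1 1 d F ↔ F.IsHomogeneous d := by
  have hw : ∀ m : Fin 2 →₀ ℕ, Finsupp.weight 1 m = FV.wt 1 1 m := by
    intro m
    rw [Finsupp.weight_apply, Finsupp.sum_fintype _ _ (fun _ => by simp), Fin.sum_univ_two]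
    simp [FV.wt]
  constructor
  · intro h m hm
    rw [hw]
    exact h m (mem_support_iff.2 hm)
  · intro h m hm
    rw [← hw]
    exact h (mem_support_iff.1 hm)

private theorem spr_X_pow_dvd {R : Type*} [CommRing R] [Nontrivial R] (i : Fin 2) (n : ℕ)
    (H : MvPolynomial (Fin 2) R) :
    (X i : MvPolynomial (Fin 2) R) ^ n ∣ H ↔ ∀ m ∈ H.support, n ≤ m i := by
  classical
  rw [X_pow_eq_monomial, MvPolynomial.monomial_one_dvd_iff_modMonomial_eq_zero]
  constructor
  · intro h m hm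
    by_contra hlt
    have h1 : ¬ Finsupp.single i n ≤ m := by
      rw [Finsupp.single_le_iff]; exact hlt
    have h2 := coeff_modMonomial_of_not_le H h1
    rw [h, coeff_zero] at h2
    exact (MvPolynomial.mem_support_iff.mp hm) h2.symm
  · intro h
    ext m
    by_cases h1 : Finsupp.single i n ≤ m
    · rw [coeff_modMonomial_of_le H h1, coeff_zero]
    · rw [coeff_modMonomial_of_not_le H h1, coeff_zero]
      by_contra h2
      exact h1 (Finsupp.single_le_iff.mpr (h m (MvPolynomial.mem_support_iff.mpr h2)))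

private theorem spr_dehom_eq {k : Type*} [CommRing k] (f : MvPolynomial (Fin 2) k) :
    FV.dehom f = ∑ m ∈ f.support, Polynomial.C (coeff m f) * Polynomial.X ^ (m 1) := by
  unfold FV.dehom
  rw [aeval_def, eval₂_eq']
  refine Finset.sum_congr rfl fun m _ => ?_
  rw [Fin.prod_univ_two]
  simp [Polynomial.algebraMap_eq]

private theorem spr_dehom_deg {k : Type*} [CommRing k] {d : ℕ} {f : MvPolynomial (Fin 2) k}
    (hf : FV.Homog 1 1 d f) : (FV.dehom f).natDegree ≤ d := by
  rw [spr_dehom_eq]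
  refine Polynomial.natDegree_sum_le_of_forall_le _ _ fun m hm => ?_
  refine (Polynomial.natDegree_C_mul_X_pow_le _ _).trans ?_
  rw [← hf m hm]
  unfold FV.wt
  omega

private theorem spr_homogenize {k : Type*} [CommRing k] {d : ℕ} {f : MvPolynomial (Fin 2) k}
    (hf : FV.Homog 1 1 d f) :
    (FV.dehom f).homogenize d = rename (Equiv.swap (0 : Fin 2) 1) f := by
  refine Polynomial.homogenize_eq_of_isHomogeneous
    ((spr_homog_iff.1 hf).rename_isHomogeneous) ?_
  rw [aeval_rename]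
  unfold FV.dehom
  congr 2
  funext i
  fin_cases i
  · simp
  · simp

private theorem spr_swap_swap {k : Type*} [CommRing k] (f : MvPolynomial (Fin 2) k) :
    rename (Equiv.swap (0 : Fin 2) 1) (rename (Equiv.swap (0 : Fin 2) 1) f) = f := by
  rw [rename_rename]
  have h1 : (Equiv.swap (0 : Fin 2) 1 : Fin 2 → Fin 2) ∘ (Equiv.swap (0 : Fin 2) 1) = id := by
    funext i
    fin_cases i
    · simp
    · simp
  rw [h1, rename_id_apply]

private theorem spr_dehom_ne {k : Type*} [CommRing k] {d : ℕ} {f : MvPolynomial (Fin 2) k}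
    (hf : FV.Homog 1 1 d f) (h0 : f ≠ 0) : FV.dehom f ≠ 0 := by
  intro h1
  have h2 := spr_homogenize hf
  rw [h1, Polynomial.homogenize_zero] at h2
  apply h0
  rw [← spr_swap_swap f, ← h2, map_zero]

/-- The linear form `X 1 - z X 0`. -/
private def lnf {k : Type*} [CommRing k] (z : k) : MvPolynomial (Fin 2) k := X 1 - C z * X 0

private theorem lnf_homog {k : Type*} [CommRing k] (z : k) : (lnf z).IsHomogeneous 1 := by
  unfold lnf
  refine (isHomogeneous_X k 1).sub ?_
  have h1 := (isHomogeneous_C (Fin 2) z).mul (isHomogeneous_X k (0 : Fin 2))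
  rwa [zero_add] at h1

private theorem lnf_ne {k : Type*} [CommRing k] [Nontrivial k] (z : k) : lnf z ≠ 0 := by
  intro h1
  have h2 := congrArg (eval ![0, 1]) h1
  simp [lnf] at h2

private theorem spr_dvd {k : Type*} [Field k] {d : ℕ} {f : MvPolynomial (Fin 2) k}
    (hf : FV.Homog 1 1 d f) (h0 : f ≠ 0) {z : k} {n : ℕ}
    (h : (Polynomial.X - Polynomial.C z) ^ n ∣ FV.dehom f) : lnf z ^ n ∣ f := by
  obtain ⟨q, hq⟩ := h
  have hne := spr_dehom_ne hf h0
  have hq0 : q ≠ 0 := by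
    rintro rfl
    exact hne (by rw [hq, mul_zero])
  have hdeg := spr_dehom_deg hf
  have hm : ((Polynomial.X - Polynomial.C z) ^ n : Polynomial k).Monic :=
    (Polynomial.monic_X_sub_C z).pow n
  have hn1 : ((Polynomial.X - Polynomial.C z) ^ n : Polynomial k).natDegree = n := by
    rw [Polynomial.natDegree_pow, Polynomial.natDegree_X_sub_C, mul_one]
  have hnd : n + q.natDegree ≤ d := by
    rw [hq, hm.natDegree_mul' hq0, hn1] at hdeg
    exact hdeg
  have h1 := spr_homogenize hf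
  have h2 : (Polynomial.X - Polynomial.C z : Polynomial k) ^ n =
      MvPolynomial.aeval ![Polynomial.X, 1] ((X 0 - C z * X 1 : MvPolynomial (Fin 2) k) ^ n) := by
    simp [Polynomial.algebraMap_eq]
  have h3 : Polynomial.homogenize ((Polynomial.X - Polynomial.C z : Polynomial k) ^ n) n =
      (X 0 - C z * X 1 : MvPolynomial (Fin 2) k) ^ n := by
    refine Polynomial.homogenize_eq_of_isHomogeneous ?_ h2.symm
    have h4 := (isHomogeneous_C (Fin 2) z).mul (isHomogeneous_X k (1 : Fin 2))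
    rw [zero_add] at h4
    have h5 := ((isHomogeneous_X k (0 : Fin 2)).sub h4).pow n
    rwa [one_mul] at h5
  have h6 : (FV.dehom f).homogenize d =
      (X 0 - C z * X 1 : MvPolynomial (Fin 2) k) ^ n * q.homogenize (d - n) := by
    rw [hq, ← h3, ← Polynomial.homogenize_mul _ _ hn1.le (by omega)]
    congr 1
    omega
  rw [h6] at h1
  refine ⟨rename (Equiv.swap (0 : Fin 2) 1) (q.homogenize (d - n)), ?_⟩
  rw [← spr_swap_swap f, ← h1, map_mul, map_pow]
  congr 2
  simp [lnf]

private theorem spr_linear {k : Type*} [CommRing k] {l : MvPolynomial (Fin 2) k}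
    (hl : FV.Homog 1 1 1 l) :
    l = C (coeff (Finsupp.single 0 1) l) * X 0 + C (coeff (Finsupp.single 1 1) l) * X 1 := by
  classical
  have hne : (Finsupp.single 1 1 : Fin 2 →₀ ℕ) ≠ Finsupp.single 0 1 := by
    intro h
    have h1 := DFunLike.congr_fun h 0
    simp at h1
  ext m
  rw [coeff_add, coeff_C_mul, coeff_C_mul, coeff_X, coeff_X]
  by_cases hm : m ∈ l.support
  · have h1 := hl m hm
    unfold FV.wt at h1
    have h2 : m = Finsupp.single 0 1 ∨ m = Finsupp.single 1 1 := by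
      rcases Nat.eq_zero_or_pos (m 0) with h | h
      · right
        ext i
        fin_cases i
        · simpa using h
        · simp; omega
      · left
        ext i
        fin_cases i
        · simp; omega
        · simp; omega
    rcases h2 with rfl | rfl
    · simp [hne]
    · simp [hne.symm]
  · rw [notMem_support_iff.1 hm]
    have h3 : ∀ i : Fin 2, coeff (Finsupp.single i 1) l *
        (if Finsupp.single i 1 = m then 1 else 0) = 0 := by
      intro i
      split_ifs with h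
      · rw [h, notMem_support_iff.1 hm, zero_mul]
      · rw [mul_zero]
    rw [h3, h3, add_zero]

private theorem spr_hasse_map {R S : Type*} [CommRing R] [CommRing S] (j : R →+* S) (l : ℕ)
    (h : Polynomial R) :
    (Polynomial.hasseDeriv l h).map j = Polynomial.hasseDeriv l (h.map j) := by
  ext n
  simp [Polynomial.hasseDeriv_coeff, Polynomial.coeff_map]

private theorem spr_lift {A K : Type*} [CommRing A] [Field K] [Algebra A K]
    (B : Subalgebra A K) (φ : Polynomial K) (h : ∀ n, φ.coeff n ∈ B) :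
    ∃ ψ : Polynomial B, ψ.map (B.val : B →+* K) = φ := by
  have h1 : φ ∈ Polynomial.lifts (B.val : B →+* K) := by
    rw [Polynomial.lifts_iff_coeff_lifts]
    intro n
    exact ⟨⟨φ.coeff n, h n⟩, rfl⟩
  exact (Polynomial.mem_lifts φ).mp h1

private theorem spr_aux (A : Type) [CommRing A] [IsDomain A] (K : Type) [Field K] [Algebra A K]
    [IsFractionRing A K] [Algebra K ℂ] (G : MvPolynomial (Fin 2) A) (d : ℕ)
    (hG : FV.Homog 1 1 d G) (hG0 : G ≠ 0)
    (hss : ∀ ℓ : MvPolynomial (Fin 2) ℂ, ℓ ≠ 0 → FV.Homog 1 1 1 ℓ → ∀ n : ℕ,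
      ℓ ^ n ∣ map ((algebraMap K ℂ).comp (algebraMap A K)) G → 2 * n ≤ d) :
    ∃ a : A, a ≠ 0 ∧ ∀ (k : Type) [Field k] (θ : A →+* k), θ a ≠ 0 → map θ G ≠ 0 ∧
      ∀ ℓ : MvPolynomial (Fin 2) k, ℓ ≠ 0 → FV.Homog 1 1 1 ℓ → ∀ n : ℕ,
        ℓ ^ n ∣ map θ G → 2 * n ≤ d := by
  classical
  have hAK : Function.Injective (algebraMap A K) := IsFractionRing.injective A K
  have hKC : Function.Injective (algebraMap K ℂ) := (algebraMap K ℂ).injective
  obtain ⟨ι, hι⟩ : ∃ ι, ι = (algebraMap K ℂ).comp (algebraMap A K) := ⟨_, rfl⟩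
  have hιi : Function.Injective ι := by
    rw [hι]
    exact hKC.comp hAK
  rw [← hι] at hss
  obtain ⟨n, hn⟩ : ∃ n, n = d / 2 + 1 := ⟨_, rfl⟩
  have hdn : d < 2 * n := by omega
  have hGι : FV.Homog 1 1 d (map ι G) := fun m hm => hG m (support_map_subset _ _ hm)
  have hGι0 : map ι G ≠ 0 := by
    intro h
    exact hG0 (map_injective ι hιi (by rw [h, map_zero]))
  have hsup : ∀ i : Fin 2, ∃ m, coeff m G ≠ 0 ∧ m i < n := by
    intro i
    by_contra hc
    push Not at hc
    have h1 : (X i : MvPolynomial (Fin 2) ℂ) ^ n ∣ map ι G := by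
      rw [spr_X_pow_dvd]
      intro m hm
      exact hc m (mem_support_iff.1 (support_map_subset _ _ hm))
    have h2 := hss (X i) (X_ne_zero i) (spr_homog_iff.2 (isHomogeneous_X ℂ i)) n h1
    omega
  obtain ⟨m0, hm0, hm0n⟩ := hsup 0
  obtain ⟨m1, hm1, hm1n⟩ := hsup 1
  obtain ⟨M, U, hU⟩ := FV.bezout (K := K) (r := 1)
    (fun _ => FV.dehom (map (algebraMap A K) G)) (fun _ => n) (by
      refine ⟨0, by omega, ?_⟩
      refine spr_dehom_ne (d := d) (fun m hm => hG m (support_map_subset _ _ hm)) ?_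
      intro h
      exact hG0 (map_injective _ hAK (by rw [h, map_zero]))) (by
      intro z _ hd
      have h1 := hd 0
      rw [← FV.dehom_map, MvPolynomial.map_map, ← hι] at h1
      have h2 := spr_dvd hGι hGι0 h1
      have h3 := hss (lnf z) (lnf_ne z) (spr_homog_iff.2 (lnf_homog z)) n h2
      omega)
  obtain ⟨a0, ha0, B, hSB, hB⟩ := FV.spread_ring (A := A) (K := K)
    ((Finset.range n).biUnion fun l => (U 0 l).coeffs)
  have hUB : ∀ l < n, ∀ j, (U 0 l).coeff j ∈ B := by
    intro l hl j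
    by_cases h : (U 0 l).coeff j = 0
    · rw [h]
      exact B.zero_mem
    · apply hSB
      rw [Finset.mem_biUnion]
      exact ⟨l, Finset.mem_range.2 hl, Polynomial.coeff_mem_coeffs h⟩
  refine ⟨a0 * coeff m0 G * coeff m1 G, mul_ne_zero (mul_ne_zero ha0 hm0) hm1, ?_⟩
  intro k _ θ hθ
  rw [map_mul, map_mul] at hθ
  have hθ1 : θ (coeff m1 G) ≠ 0 := right_ne_zero_of_mul hθ
  have hθ0 : θ (coeff m0 G) ≠ 0 := right_ne_zero_of_mul (left_ne_zero_of_mul hθ)
  have hθa : θ a0 ≠ 0 := left_ne_zero_of_mul (left_ne_zero_of_mul hθ)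
  obtain ⟨Θ, hΘ⟩ := hB k θ hθa
  refine ⟨?_, ?_⟩
  · intro h
    apply hθ0
    rw [← coeff_map, h, coeff_zero]
  intro l hl hlh N hN
  by_contra hcon
  push Not at hcon
  have hN' : l ^ n ∣ map θ G := (pow_dvd_pow l (by omega)).trans hN
  have hlin := spr_linear hlh
  obtain ⟨a, ha⟩ : ∃ a, a = coeff (Finsupp.single 0 1) l := ⟨_, rfl⟩
  obtain ⟨b, hb⟩ : ∃ b, b = coeff (Finsupp.single 1 1) l := ⟨_, rfl⟩
  rw [← ha, ← hb] at hlin
  rcases eq_or_ne a 0 with ha0 | ha0
  · -- `X 1` divides `l`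
    rw [ha0, C_0, zero_mul, zero_add] at hlin
    have h1 : (X 1 : MvPolynomial (Fin 2) k) ^ n ∣ map θ G := by
      refine dvd_trans (pow_dvd_pow_of_dvd ?_ n) hN'
      rw [hlin]
      exact dvd_mul_left _ _
    rw [spr_X_pow_dvd] at h1
    have h2 := h1 m1 (mem_support_iff.2 (by rwa [coeff_map]))
    omega
  rcases eq_or_ne b 0 with hb0 | hb0
  · rw [hb0, C_0, zero_mul, add_zero] at hlin
    have h1 : (X 0 : MvPolynomial (Fin 2) k) ^ n ∣ map θ G := by
      refine dvd_trans (pow_dvd_pow_of_dvd ?_ n) hN'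
      rw [hlin]
      exact dvd_mul_left _ _
    rw [spr_X_pow_dvd] at h1
    have h2 := h1 m0 (mem_support_iff.2 (by rwa [coeff_map]))
    omega
  -- the Bezout identity over `B`
  have h2 : ∀ l : ℕ, ∃ V : Polynomial B, l < n → V.map (B.val : B →+* K) = U 0 l := by
    intro l
    by_cases hl : l < n
    · obtain ⟨V, hV⟩ := spr_lift B (U 0 l) (hUB l hl)
      exact ⟨V, fun _ => hV⟩
    · exact ⟨0, fun h => absurd h hl⟩
  choose V hV using h2
  have hjinj : Function.Injective (B.val : B →+* K) := Subtype.val_injective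
  have hjA : ((B.val : B →+* K)).comp (algebraMap A B) = algebraMap A K :=
    RingHom.ext fun _ => rfl
  have hbz : (Polynomial.X : Polynomial B) ^ M = ∑ i : Fin 1, ∑ l ∈ Finset.range n,
      V l * Polynomial.hasseDeriv l (FV.dehom (map (algebraMap A B) G)) := by
    apply Polynomial.map_injective _ hjinj
    rw [Polynomial.map_pow, Polynomial.map_X, hU, Polynomial.map_sum]
    refine Finset.sum_congr rfl fun i _ => ?_
    rw [Polynomial.map_sum]
    refine Finset.sum_congr rfl fun l hl => ?_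
    have hi : i = 0 := Subsingleton.elim _ _
    rw [Polynomial.map_mul, hV l (Finset.mem_range.mp hl), spr_hasse_map, ← FV.dehom_map,
      MvPolynomial.map_map, hjA, hi]
  have hz : -a / b ≠ 0 := div_ne_zero (neg_ne_zero.2 ha0) hb0
  refine FV.no_root (fun _ : Fin 1 => FV.dehom (map (algebraMap A B) G)) (fun _ => n) M
    (fun _ => V) hbz Θ (-a / b) hz fun _ => ?_
  have hΘA : Θ.comp (algebraMap A B) = θ := RingHom.ext hΘ
  change (Polynomial.X - Polynomial.C (-a / b)) ^ n ∣
    (FV.dehom (map (algebraMap A B) G)).map Θ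
  rw [← FV.dehom_map, MvPolynomial.map_map, hΘA]
  have h3 : (Polynomial.X - Polynomial.C (-a / b)) ∣ FV.dehom l := by
    refine ⟨Polynomial.C b, ?_⟩
    rw [hlin]
    have h4 : FV.dehom (C a * X 0 + C b * X 1 : MvPolynomial (Fin 2) k) =
        Polynomial.C a + Polynomial.C b * Polynomial.X := by
      simp [FV.dehom, Polynomial.algebraMap_eq]
    rw [h4, sub_mul, ← Polynomial.C_mul, div_mul_cancel₀ _ hb0, Polynomial.C_neg]
    ring
  refine (pow_dvd_pow_of_dvd h3 n).trans ?_
  rw [← map_pow]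
  exact map_dvd FV.dehom hN'

/-- Semistability of a binary form spreads out. -/
theorem spread_form (A : Type) [CommRing A] [IsDomain A] (ι : A →+* ℂ)
    (hι : Function.Injective ι) (G : MvPolynomial (Fin 2) A) (d : ℕ)
    (hG : FV.Homog 1 1 d G) (hG0 : G ≠ 0)
    (hss : ∀ ℓ : MvPolynomial (Fin 2) ℂ, ℓ ≠ 0 → FV.Homog 1 1 1 ℓ → ∀ n : ℕ,
      ℓ ^ n ∣ map ι G → 2 * n ≤ d) :
    ∃ a : A, a ≠ 0 ∧ ∀ (k : Type) [Field k] (θ : A →+* k), θ a ≠ 0 → map θ G ≠ 0 ∧
      ∀ ℓ : MvPolynomial (Fin 2) k, ℓ ≠ 0 → FV.Homog 1 1 1 ℓ → ∀ n : ℕ,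
        ℓ ^ n ∣ map θ G → 2 * n ≤ d := by
  let _ : Algebra (FractionRing A) ℂ := (IsFractionRing.lift (A := A) (K := FractionRing A)
    hι).toAlgebra
  have h1 : (algebraMap (FractionRing A) ℂ).comp (algebraMap A (FractionRing A)) = ι :=
    RingHom.ext fun a => IsFractionRing.lift_algebraMap hι a
  refine spr_aux A (FractionRing A) G d hG hG0 ?_
  rw [h1]
  exact hss

theorem spread_semi (A : Type) [CommRing A] [IsDomain A] (ι : A →+* ℂ)
    (hι : Function.Injective ι) {m : ℕ} (g G : Fin m → MvPolynomial (Fin 2) A) (d : Fin m → ℕ)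
    (hd : ∀ i, 1 ≤ d i) (hG : ∀ i, FV.IsInit 1 1 (g i) (d i) (G i))
    (hss : ∀ i, ∀ ℓ : MvPolynomial (Fin 2) ℂ, ℓ ≠ 0 → FV.Homog 1 1 1 ℓ → ∀ n : ℕ,
      ℓ ^ n ∣ map ι (G i) → 2 * n ≤ d i) :
    Semi (fun i => map ι (g i)) (fun i => map ι (G i)) d ∧
    ∃ a : A, a ≠ 0 ∧ ∀ (k : Type) [Field k] (θ : A →+* k), θ a ≠ 0 →
      Semi (fun i => map θ (g i)) (fun i => map θ (G i)) d := by
  have hI : ∀ {S : Type} [CommRing S] (θ : A →+* S) (i : Fin m), map θ (G i) ≠ 0 →
      FV.IsInit 1 1 (map θ (g i)) (d i) (map θ (G i)) := by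
    intro S _ θ i h0
    refine ⟨h0, fun n hn => (hG i).2.1 n (support_map_subset _ _ hn), ?_⟩
    rw [← map_sub]
    exact fun n hn => (hG i).2.2 n (support_map_subset _ _ hn)
  refine ⟨fun i => ⟨hd i, hI ι i ?_, hss i⟩, ?_⟩
  · intro h
    exact (hG i).1 (map_injective ι hι (by rw [h, map_zero]))
  have h1 := fun i => spread_form A ι hι (G i) (d i) (hG i).2.1 (hG i).1 (hss i)
  choose a ha0 ha using h1
  refine ⟨∏ i, a i, Finset.prod_ne_zero_iff.2 fun i _ => ha0 i, ?_⟩
  intro k _ θ hθ i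
  rw [map_prod] at hθ
  have h2 := Finset.prod_ne_zero_iff.1 hθ i (Finset.mem_univ i)
  obtain ⟨h3, h4⟩ := ha i k θ h2
  exact ⟨hd i, hI θ i h3, h4⟩

end CX
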