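import Pool.Agent.Lib.MP_9e8926_ag_CX.WtN
import Pool.Agent.Lib.MP_9e8926_ag_CX.SumL
import Pool.Agent.Lib.MP_9e8926_ag_CX.LexD

set_option autoImplicit false

noncomputable section

namespace CX

open MvPolynomial

variable {k : Type*} [Field k] {m : ℕ}

namespace WtE

/-- `ci` as a linear map -/
def ciL (g : Fin m → P k) : P k →ₗ[k] Rg g :=
  ((Ideal.Quotient.mkₐ k (rel g)).comp (rename fun j => Sum.inr (Sum.inr j))).toLinearMap

theorem ciL_apply (g : Fin m → P k) (a : P k) : ciL g a = ci g a := rfl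

theorem mono_mem (g G : Fin m → P k) (d : Fin m → ℕ) (h : Semi g G d) (M : ℕ)
    (u : Fin 2 →₀ ℕ) (c : k) (ν : Fin m → ℤ)
    (hM : M ≤ 2 * (u 0 + u 1) + ∑ i, (ν i).natAbs * d i) :
    ci g (monomial u c) * E g ν ∈ aw g G d h M := by
  classical
  rw [mem_aw]
  intro ν' κ hκ
  rw [cf_ci_mul, cf_E] at hκ
  split_ifs at hκ with h1
  · subst h1
    have h2 := MvPolynomial.support_mul _ _ hκ
    rw [Finset.mem_add] at h2
    obtain ⟨x, hx, y, hy, rfl⟩ := h2
    have hx' : x = u := by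
      have := MvPolynomial.support_monomial_subset hx
      simpa using this
    subst hx'
    have h3 := WtX.og_gam h ν' y hy
    have h4 : ∑ i, (ν' i).natAbs * d i =
        2 * ∑ i, (-(ν' i)).toNat * d i + ∑ i, ν' i * (d i : ℤ) := by
      push_cast
      rw [Finset.mul_sum, ← Finset.sum_add_distrib]
      refine Finset.sum_congr rfl fun i _ => ?_
      have : (((ν' i).natAbs : ℕ) : ℤ) = 2 * ((-(ν' i)).toNat : ℤ) + ν' i := by omega
      rw [Int.natCast_natAbs] at this
      rw [this]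
      ring
    rw [Finsupp.add_apply, Finsupp.add_apply]
    have h5 : ((∑ i, (-(ν' i)).toNat * d i : ℕ) : ℤ) ≤ (y 0 : ℤ) + (y 1 : ℤ) := by
      exact_mod_cast h3
    have h6 : (M : ℤ) ≤ 2 * ((x 0 : ℤ) + x 1) + ((∑ i, (ν' i).natAbs * d i : ℕ) : ℤ) := by
      exact_mod_cast hM
    push_cast at h4 h5 h6 ⊢
    linarith
  · simp at hκ

/-- the index set -/
def TT (m M : ℕ) (d : Fin m → ℕ) : Finset ((Fin m → ℤ) × (ℕ × ℕ)) :=
  ((Fintype.piFinset fun _ : Fin m => Finset.Icc (-(M : ℤ)) M) ×ˢ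
    (Finset.range M ×ˢ Finset.range M)).filter
    fun x => 2 * (x.2.1 + x.2.2) + ∑ i, (x.1 i).natAbs * d i < M

theorem card_pairs (M W : ℕ) :
    (((Finset.range M ×ˢ Finset.range M).filter fun p : ℕ × ℕ => 2 * (p.1 + p.2) + W < M).card : ℝ)
      ≤ max 0 ((M : ℝ) + 3 - W) ^ 2 / 8 := by
  classical
  rcases le_or_gt M W with h | h
  · have h1 : ((Finset.range M ×ˢ Finset.range M).filter
        fun p : ℕ × ℕ => 2 * (p.1 + p.2) + W < M) = ∅ := by
      rw [Finset.filter_eq_empty_iff]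
      intro p _
      omega
    rw [h1]
    simp only [Finset.card_empty, Nat.cast_zero]
    positivity
  · obtain ⟨s, hs⟩ : ∃ s, M = W + (s + 1) := ⟨M - W - 1, by omega⟩
    have h1 : ((Finset.range M ×ˢ Finset.range M).filter
        fun p : ℕ × ℕ => 2 * (p.1 + p.2) + W < M) ⊆
        (Finset.range (s / 2 + 1)).biUnion fun n => Finset.HasAntidiagonal.antidiagonal n := by
      intro p hp
      have hp2 := (Finset.mem_filter.1 hp).2
      rw [Finset.mem_biUnion]
      exact ⟨p.1 + p.2, Finset.mem_range.2 (by omega),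
        Finset.HasAntidiagonal.mem_antidiagonal.2 rfl⟩
    have h2 := (Finset.card_le_card h1).trans Finset.card_biUnion_le
    have h3 : ∀ t : ℕ,
        2 * ∑ n ∈ Finset.range (t + 1), (Finset.HasAntidiagonal.antidiagonal n).card =
        (t + 1) * (t + 2) := by
      intro t
      induction t with
      | zero => simp
      | succ t ih =>
        rw [Finset.sum_range_succ, mul_add, ih, Finset.Nat.card_antidiagonal]
        ring
    have h4 : 2 * ((Finset.range M ×ˢ Finset.range M).filter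
        fun p : ℕ × ℕ => 2 * (p.1 + p.2) + W < M).card ≤ (s / 2 + 1) * (s / 2 + 2) := by
      rw [← h3]
      omega
    have h5 : 2 * (((Finset.range M ×ˢ Finset.range M).filter
        fun p : ℕ × ℕ => 2 * (p.1 + p.2) + W < M).card : ℝ) ≤
        (((s / 2 : ℕ) : ℝ) + 1) * (((s / 2 : ℕ) : ℝ) + 2) := by exact_mod_cast h4
    have h6 : ((s / 2 : ℕ) : ℝ) ≤ (s : ℝ) / 2 := Nat.cast_div_le
    have h7 : (0 : ℝ) ≤ ((s / 2 : ℕ) : ℝ) := Nat.cast_nonneg _
    have h8 : (M : ℝ) + 3 - W = s + 4 := by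
      rw [hs]
      push_cast
      ring
    have hs0 : (0 : ℝ) ≤ s := Nat.cast_nonneg _
    rw [h8, max_eq_right (by linarith)]
    nlinarith

theorem card_TT (m M : ℕ) (d : Fin m → ℕ) : ((TT m M d).card : ℝ) ≤
    (∑ ν ∈ Fintype.piFinset (fun _ : Fin m => Finset.Icc (-(M : ℤ)) M),
      max 0 ((M : ℝ) + 3 - ∑ i, (d i : ℝ) * |(ν i : ℝ)|) ^ 2) / 8 := by
  classical
  have h1 : (TT m M d).card = ∑ ν ∈ Fintype.piFinset (fun _ : Fin m => Finset.Icc (-(M : ℤ)) M),
      ((Finset.range M ×ˢ Finset.range M).filter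
        fun p : ℕ × ℕ => 2 * (p.1 + p.2) + ∑ i, (ν i).natAbs * d i < M).card := by
    unfold TT
    rw [Finset.card_filter, Finset.sum_product]
    refine Finset.sum_congr rfl fun ν _ => ?_
    rw [Finset.card_filter]
  rw [h1, Finset.sum_div]
  push_cast
  refine Finset.sum_le_sum fun ν _ => ?_
  have h2 := card_pairs M (∑ i, (ν i).natAbs * d i)
  have h3 : ((∑ i, (ν i).natAbs * d i : ℕ) : ℝ) = ∑ i, (d i : ℝ) * |(ν i : ℝ)| := by
    push_cast
    refine Finset.sum_congr rfl fun i _ => ?_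
    rw [mul_comm, Nat.cast_natAbs, Int.cast_abs]
  rw [h3] at h2
  exact h2

theorem span_top (g G : Fin m → P k) (d : Fin m → ℕ) (h : Semi g G d) (M : ℕ) :
    Submodule.span k ((fun x : (Fin m → ℤ) × (ℕ × ℕ) =>
      (Ideal.Quotient.mk (aw g G d h M)
        (ci g (monomial (Finsupp.single 0 x.2.1 + Finsupp.single 1 x.2.2) 1) * E g x.1))) ''
      (TT m M d : Set ((Fin m → ℤ) × (ℕ × ℕ)))) = ⊤ := by
  classical
  set φ : (Fin m → ℤ) × (ℕ × ℕ) → (Rg g ⧸ aw g G d h M) := fun x =>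
      (Ideal.Quotient.mk (aw g G d h M)
        (ci g (monomial (Finsupp.single 0 x.2.1 + Finsupp.single 1 x.2.2) 1) * E g x.1)) with hφ
  rw [eq_top_iff]
  rintro y -
  obtain ⟨r, rfl⟩ := Ideal.Quotient.mk_surjective y
  obtain ⟨s, δ, rfl⟩ := exists_normal g r
  rw [map_sum]
  refine Submodule.sum_mem _ fun ν _ => ?_
  generalize δ ν = a
  induction a using MvPolynomial.induction_on' with
  | monomial u c =>
    by_cases hM : M ≤ 2 * (u 0 + u 1) + ∑ i, (ν i).natAbs * d i
    · rw [Ideal.Quotient.eq_zero_iff_mem.2 (mono_mem g G d h M u c ν hM)]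
      exact Submodule.zero_mem _
    · have e : Ideal.Quotient.mk (aw g G d h M) (ci g (monomial u c) * E g ν) =
          c • φ (ν, (u 0, u 1)) := by
        have h1 : (monomial u c : P k) = c • monomial u 1 := by
          rw [smul_monomial, smul_eq_mul, mul_one]
        have h2 : u = Finsupp.single 0 (u 0) + Finsupp.single 1 (u 1) := by
          ext i
          fin_cases i
          · simp
          · simp
        have h3 : φ (ν, (u 0, u 1)) =
            Ideal.Quotient.mk (aw g G d h M) (ci g (monomial u 1) * E g ν) := by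
          rw [hφ]
          simp only
          rw [← h2]
        rw [h3, h1, ← ciL_apply, map_smul, ciL_apply, smul_mul_assoc]
        rfl
      rw [e]
      refine Submodule.smul_mem _ _ (Submodule.subset_span ⟨_, ?_, rfl⟩)
      rw [Finset.mem_coe, TT, Finset.mem_filter, Finset.mem_product, Finset.mem_product,
        Fintype.mem_piFinset]
      have hlt : 2 * (u 0 + u 1) + ∑ i, (ν i).natAbs * d i < M := not_le.mp hM
      refine ⟨⟨fun i => ?_, Finset.mem_range.2 (by simp only; omega),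
        Finset.mem_range.2 (by simp only; omega)⟩, hlt⟩
      have h4 : (ν i).natAbs * d i ≤ ∑ i, (ν i).natAbs * d i :=
        Finset.single_le_sum (f := fun i => (ν i).natAbs * d i) (fun _ _ => Nat.zero_le _)
          (Finset.mem_univ i)
      have h5 : (ν i).natAbs ≤ (ν i).natAbs * d i := Nat.le_mul_of_pos_right _ (h i).1
      rw [Finset.mem_Icc]
      simp only
      omega
  | add a b ha hb =>
    rw [← ciL_apply, map_add, add_mul, map_add]
    exact Submodule.add_mem _ ha hb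

end WtE

open WtE

/-- The colength is at most the number of the monomials of smaller weight. -/
theorem finrank_aw_le (g G : Fin m → P k) (d : Fin m → ℕ) (h : Semi g G d) (M : ℕ) :
    (Module.finrank k (Rg g ⧸ aw g G d h M) : ℝ) ≤
      (∑ ν ∈ Fintype.piFinset (fun _ : Fin m => Finset.Icc (-(M : ℤ)) M),
        max 0 ((M : ℝ) + 3 - ∑ i, (d i : ℝ) * |(ν i : ℝ)|) ^ 2) / 8 := by
  classical
  refine le_trans ?_ (card_TT m M d)
  rw [Nat.cast_le, ← finrank_top k (Rg g ⧸ aw g G d h M), ← span_top g G d h M,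
    ← Finset.coe_image]
  exact (finrank_span_finset_le_card _).trans Finset.card_image_le

theorem finrank_aw (g G : Fin m → P k) (d : Fin m → ℕ) (h : Semi g G d) (M : ℕ) :
    ((m + 2).factorial : ℝ) * (Module.finrank k (Rg g ⧸ aw g G d h M) : ℝ) ≤
      2 ^ m / (4 * ∏ i, (d i : ℝ)) * ((M : ℝ) + 3 + ∑ i, (d i : ℝ)) ^ (m + 2) := by
  have h1 := finrank_aw_le g G d h M
  have h2 := sum_up m 2 M (by norm_num) d (fun i => (h i).1) ((M : ℝ) + 3) (by positivity)
  have hd : (0 : ℝ) < ∏ i, (d i : ℝ) :=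
    Finset.prod_pos fun i _ => by exact_mod_cast (h i).1
  set Sg := ∑ ν ∈ Fintype.piFinset (fun _ : Fin m => Finset.Icc (-(M : ℤ)) M),
        max 0 ((M : ℝ) + 3 - ∑ i, (d i : ℝ) * |(ν i : ℝ)|) ^ 2 with hSg
  have h3 : ((2 + m).factorial : ℝ) * Sg ≤
      2 ^ m * 2 * ((M : ℝ) + 3 + ∑ i, (d i : ℝ)) ^ (2 + m) / ∏ i, (d i : ℝ) := by
    rw [le_div_iff₀ hd]
    calc ((2 + m).factorial : ℝ) * Sg * ∏ i, (d i : ℝ)
        = ((2 + m).factorial : ℝ) * (∏ i, (d i : ℝ)) * Sg := by ring
      _ ≤ _ := h2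
      _ = _ := by rw [Nat.factorial_two]; norm_num
  rw [add_comm m 2]
  calc ((2 + m).factorial : ℝ) * (Module.finrank k (Rg g ⧸ aw g G d h M) : ℝ)
      ≤ ((2 + m).factorial : ℝ) * (Sg / 8) := by gcongr
    _ = ((2 + m).factorial : ℝ) * Sg / 8 := by ring
    _ ≤ 2 ^ m * 2 * ((M : ℝ) + 3 + ∑ i, (d i : ℝ)) ^ (2 + m) / (∏ i, (d i : ℝ)) / 8 := by
        gcongr
    _ = _ := by
        field_simp
        ring

theorem emult_aw (g G : Fin m → P k) (d : Fin m → ℕ) (h : Semi g G d) (j : ℕ) (hj : 1 ≤ j) :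
    emult k (m + 2) (aw g G d h j) ≤
      2 ^ m / (4 * ∏ i, (d i : ℝ)) * ((j : ℝ) + 2 + ∑ i, (d i : ℝ)) ^ (m + 2) := by
  have hd : (0 : ℝ) < ∏ i, (d i : ℝ) :=
    Finset.prod_pos fun i _ => by exact_mod_cast (h i).1
  set Cc : ℝ := 2 ^ m / (4 * ∏ i, (d i : ℝ)) with hC
  set S : ℝ := ∑ i, (d i : ℝ) with hS
  have hC0 : 0 ≤ Cc := by positivity
  have hS0 : 0 ≤ S := Finset.sum_nonneg fun i _ => Nat.cast_nonneg _
  have hb : ∀ N : ℕ, 1 ≤ N → ((m + 2).factorial : ℝ) *
      (Module.finrank k (Rg g ⧸ aw g G d h j ^ N) : ℝ) / (N : ℝ) ^ (m + 2) ≤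
      Cc * (((j : ℝ) + 2 + S) + (3 + S) * (1 / (N : ℝ))) ^ (m + 2) := by
    intro N hN
    have hN0 : (0 : ℝ) < N := by exact_mod_cast hN
    set M := (j + (2 + ∑ i, d i)) * N with hM
    have hM1 : 1 ≤ M := Nat.mul_pos (by omega) hN
    obtain ⟨-, N', hN'⟩ := aw_prim g G d h M hM1
    have hfin := finite_quot g (fun i => h.const i) hN'
    have h1 : Module.finrank k (Rg g ⧸ aw g G d h j ^ N) ≤
        Module.finrank k (Rg g ⧸ aw g G d h M) := by
      refine LinearMap.finrank_le_finrank_of_surjective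
        (f := (Ideal.Quotient.factorₐ k (aw_le_pow g G d h j N)).toLinearMap) ?_
      exact Ideal.Quotient.factor_surjective (aw_le_pow g G d h j N)
    have h2 := finrank_aw g G d h M
    have h3 : (M : ℝ) = ((j : ℝ) + (2 + S)) * N := by
      rw [hM, hS]
      push_cast
      ring
    rw [div_le_iff₀ (by positivity)]
    calc ((m + 2).factorial : ℝ) * (Module.finrank k (Rg g ⧸ aw g G d h j ^ N) : ℝ)
        ≤ ((m + 2).factorial : ℝ) * (Module.finrank k (Rg g ⧸ aw g G d h M) : ℝ) := by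
          gcongr
      _ ≤ Cc * ((M : ℝ) + 3 + S) ^ (m + 2) := h2
      _ = _ := by
          rw [mul_assoc, ← mul_pow]
          congr 2
          rw [h3]
          field_simp
          ring
  have hlim : Filter.Tendsto (fun N : ℕ =>
      Cc * (((j : ℝ) + 2 + S) + (3 + S) * (1 / (N : ℝ))) ^ (m + 2)) Filter.atTop
      (nhds (Cc * ((j : ℝ) + 2 + S) ^ (m + 2))) := by
    have h1 : Filter.Tendsto (fun N : ℕ => (1 : ℝ) / (N : ℝ)) Filter.atTop (nhds 0) :=
      tendsto_one_div_atTop_nhds_zero_nat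
    have h2 := ((h1.const_mul (3 + S)).const_add ((j : ℝ) + 2 + S)).pow (m + 2)
    rw [mul_zero, add_zero] at h2
    exact h2.const_mul Cc
  unfold emult
  rw [← hlim.limsup_eq]
  refine Filter.limsup_le_limsup ?_ ?_ hlim.isBoundedUnder_le
  · filter_upwards [Filter.eventually_ge_atTop 1] with N hN
    exact hb N hN
  · refine Filter.IsCoboundedUnder.of_frequently_ge (a := 0) ?_
    exact Filter.Frequently.of_forall fun N => by positivity

end CX
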