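import Pool.Agent.Lib.MP_9e8926_ag_CX.WtLct
import Pool.Agent.Lib.MP_9e8926_ag_CX.WtE

set_option autoImplicit false

noncomputable section

namespace CX

open MvPolynomial

variable {m : ℕ}

private theorem VolX_emult_nonneg {R : Type*} [CommRing R] [Algebra ℂ R] (n : ℕ) (I : Ideal R) :
    0 ≤ emult ℂ n I := by
  unfold emult
  rw [Filter.limsup_eq]
  refine Real.sInf_nonneg fun a ha => ?_
  obtain ⟨N, hN⟩ := Filter.Eventually.exists ha
  refine le_trans ?_ hN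
  positivity

private theorem VolX_lct_nonneg (g : Fin m → P ℂ) (I : Ideal (Rg g)) : 0 ≤ lct g I := by
  unfold lct
  exact Real.sSup_nonneg fun t ht => ht.1

private theorem VolX_le (g G : Fin m → P ℂ) (d : Fin m → ℕ) (h : Semi g G d) (j : ℕ)
    (hj : 1 ≤ j) :
    volhat g ≤ 2 ^ m / (4 * ∏ i, (d i : ℝ)) *
      (4 * (1 + (2 + ∑ i, (d i : ℝ)) / (j : ℝ))) ^ (m + 2) := by
  have hj0 : (0 : ℝ) < j := by exact_mod_cast hj
  have h1 : volhat g ≤ emult ℂ (m + 2) (aw g G d h j) * lct g (aw g G d h j) ^ (m + 2) := by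
    unfold volhat
    refine csInf_le ⟨0, ?_⟩ ⟨aw g G d h j, aw_prim g G d h j hj, rfl⟩
    rintro v ⟨I, -, rfl⟩
    exact mul_nonneg (VolX_emult_nonneg _ _) (pow_nonneg (VolX_lct_nonneg g I) _)
  have h2 := emult_aw g G d h j hj
  have h3 := lct_aw g G d h j hj
  have h4 := VolX_lct_nonneg g (aw g G d h j)
  have h5 := VolX_emult_nonneg (m + 2) (aw g G d h j)
  refine h1.trans ((mul_le_mul h2 (pow_le_pow_left₀ h4 h3 _) (pow_nonneg h4 _)
    (h5.trans h2)).trans (le_of_eq ?_))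
  rw [mul_assoc, ← mul_pow]
  congr 2
  field_simp
  ring

theorem volhat_up (g G : Fin m → P ℂ) (d : Fin m → ℕ) (h : Semi g G d) :
    volhat g ≤ (2 : ℝ) ^ (3 * m + 2) / (∏ i, (d i : ℝ)) := by
  have h1 : Filter.Tendsto (fun j : ℕ => 2 ^ m / (4 * ∏ i, (d i : ℝ)) *
      (4 * (1 + (2 + ∑ i, (d i : ℝ)) / (j : ℝ))) ^ (m + 2)) Filter.atTop
      (nhds (2 ^ m / (4 * ∏ i, (d i : ℝ)) * (4 * (1 + 0)) ^ (m + 2))) :=
    (((tendsto_const_div_atTop_nhds_zero_nat _).const_add 1).const_mul 4 |>.pow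
      (m + 2)).const_mul _
  have h2 : (2 : ℝ) ^ m / (4 * ∏ i, (d i : ℝ)) * (4 * (1 + 0)) ^ (m + 2) =
      (2 : ℝ) ^ (3 * m + 2) / (∏ i, (d i : ℝ)) := by
    have h3 : (4 : ℝ) ^ (m + 2) = 2 ^ (2 * (m + 2)) := by
      rw [pow_mul]
      norm_num
    have h4 : (2 : ℝ) ^ (3 * m + 2) * 4 = 2 ^ m * 2 ^ (2 * (m + 2)) := by
      rw [← pow_add, show (4 : ℝ) = 2 ^ 2 by norm_num, ← pow_add]
      congr 1
      ring
    rw [add_zero, mul_one, h3, div_mul_eq_mul_div, ← h4, mul_comm (4 : ℝ) (∏ i, (d i : ℝ)),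
      mul_div_mul_right _ _ (by norm_num : (4 : ℝ) ≠ 0)]
  rw [h2] at h1
  refine ge_of_tendsto h1 ?_
  filter_upwards [Filter.eventually_ge_atTop 1] with j hj
  exact VolX_le g G d h j hj

end CX
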