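import Pool.Agent.Lib.MP_9e8926_ag_CX.UpX
import Pool.Agent.Lib.MP_9e8926_ag_CX.VolX
import Pool.Agent.Lib.MP_9e8926_ag_CX.Spr
import Pool.Agent.Lib.MP_9e8926_ag_FV.ResF

set_option autoImplicit false

noncomputable section

namespace CX

open MvPolynomial

theorem main (A : Type) [CommRing A] [IsDomain A] [Algebra.FiniteType ℤ A] (ι : A →+* ℂ)
    (hι : Function.Injective ι) {m : ℕ} (g G : Fin m → MvPolynomial (Fin 2) A) (d : Fin m → ℕ)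
    (hd : ∀ i, 1 ≤ d i) (hG : ∀ i, FV.IsInit 1 1 (g i) (d i) (G i))
    (hss : ∀ i, ∀ ℓ : MvPolynomial (Fin 2) ℂ, ℓ ≠ 0 → FV.Homog 1 1 1 ℓ → ∀ n : ℕ,
      ℓ ^ n ∣ map ι (G i) → 2 * n ≤ d i) :
    volhat (fun i => map ι (g i)) ≤ 2 ^ (3 * m + 2) / ∏ i, (d i : ℝ) ∧
    ∃ C : ℝ, ∃ a : A, a ≠ 0 ∧ ∀ μ : Ideal A, μ.IsMaximal → a ∉ μ → ∀ p : ℕ, CharP (A ⧸ μ) p →
      |Fvol p (fun i => map (Ideal.Quotient.mk μ) (g i)) - 2 ^ (3 * m + 2) / ∏ i, (d i : ℝ)| ≤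
        C / p := by
  obtain ⟨h0, a, ha, hs⟩ := spread_semi A ι hι g G d hd hG hss
  refine ⟨volhat_up _ _ d h0, 2 ^ (3 * m + 2) / (∏ i, (d i : ℝ)) *
    (((m + 2).factorial : ℝ) * (∑ i, (d i : ℝ))), a, ha, ?_⟩
  intro μ hμ haμ p hp
  let _ : Field (A ⧸ μ) := Ideal.Quotient.field μ
  have : Finite (A ⧸ μ) := FV.finite_of_surj A (A ⧸ μ) (Ideal.Quotient.mk μ)
    Ideal.Quotient.mk_surjective
  have hpr : Fact p.Prime := by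
    have := hp
    exact ⟨CharP.char_is_prime (A ⧸ μ) p⟩
  have hsm := hs (A ⧸ μ) (Ideal.Quotient.mk μ)
    (fun h => haμ (Ideal.Quotient.eq_zero_iff_mem.mp h))
  have h1 := fvol_low p _ _ d hsm
  have h2 := fvol_up p _ _ d hsm
  rw [abs_sub_comm, abs_of_nonneg (by linarith)]
  have h3 : 2 ^ (3 * m + 2) / (∏ i, (d i : ℝ)) *
      (((m + 2).factorial : ℝ) * (∑ i, (d i : ℝ))) / p =
      (2 : ℝ) ^ (3 * m + 2) / (∏ i, (d i : ℝ)) -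
      2 ^ (3 * m + 2) / (∏ i, (d i : ℝ)) *
      (1 - ((m + 2).factorial : ℝ) * (∑ i, (d i : ℝ)) / p) := by ring
  rw [h3]
  linarith

end CX
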