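import Pool.Agent.Lib.MP_9e8926_ag_CX.Lex

set_option autoImplicit false

noncomputable section

namespace CX

open MvPolynomial

variable {k : Type*} [Field k] {m : ℕ} (g : Fin m → P k)

/-- The vector `(± ν_i)`. -/
def sg (ε : Fin m → Bool) (ν : Fin m → ℕ) : Fin m → ℤ := fun i => if ε i then (ν i : ℤ) else -(ν i : ℤ)

theorem sg_inj {ε ε' : Fin m → Bool} {ν ν' : Fin m → ℕ} (hν : ∀ i, 1 ≤ ν i) (hν' : ∀ i, 1 ≤ ν' i)
    (h : sg ε ν = sg ε' ν') : ε = ε' ∧ ν = ν' := by
  have h1 : ∀ i, ε i = ε' i ∧ ν i = ν' i := by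
    intro i
    have h2 := congrFun h i
    have h3 := hν i
    have h4 := hν' i
    unfold sg at h2
    cases h5 : ε i <;> cases h6 : ε' i <;> simp only [h5, h6, if_true, Bool.false_eq_true, if_false] at h2 <;>
      refine ⟨?_, ?_⟩ <;> first | rfl | omega | (exfalso; omega)
  exact ⟨funext fun i => (h1 i).1, funext fun i => (h1 i).2⟩

/-- The product of the ideals `dI I (± ν)`. -/
def Kp (I : Ideal (Rg g)) (ν : Fin m → ℕ) : Ideal (P k) := ∏ ε : Fin m → Bool, dI g I (sg ε ν)

private theorem prod_bI_top (a : P k) : a ∈ bI g (⊤ : Ideal (Rg g)) 0 := by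
  refine ⟨ci g a, Submodule.mem_top, ?_, ?_⟩
  · have := cf_ci_mul g a 0 1
    rw [mul_one] at this
    rw [this, cf_one, if_pos rfl, mul_one]
  · intro μ hμ
    have := cf_ci_mul g a μ 1
    rw [mul_one] at this
    rw [this, cf_one, if_neg, mul_zero]
    rintro rfl
    exact lt_irrefl _ hμ

private theorem prod_dI_pow (I : Ideal (Rg g)) (ν : Fin m → ℤ) (S : ℕ) (a : P k)
    (ha : a ∈ dI g I ν ^ S) : a * gam g ν ^ S ∈ bI g (I ^ S) (S • ν) := by
  apply bI_pow
  have h1 : dI g I ν * Ideal.span {gam g ν} ≤ bI g I ν := by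
    rw [Ideal.mul_le]
    intro r hr s hs
    obtain ⟨c, rfl⟩ := Ideal.mem_span_singleton'.mp hs
    have h2 : gam g ν * r ∈ bI g I ν := hr
    have h3 : r * (c * gam g ν) = c * (gam g ν * r) := by ring
    rw [h3]
    exact Ideal.mul_mem_left _ _ h2
  have h2 : dI g I ν ^ S * Ideal.span {gam g ν} ^ S ≤ bI g I ν ^ S := by
    rw [← mul_pow]
    exact Ideal.pow_right_mono h1 S
  exact h2 (Ideal.mul_mem_mul ha (Ideal.pow_mem_pow (Ideal.mem_span_singleton_self _) S))

private theorem prod_aux (I : Ideal (Rg g)) (ν : Fin m → ℕ) (S : ℕ)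
    (T : Finset (Fin m → Bool)) : ∀ a : P k, a ∈ ∏ ε ∈ T, dI g I (sg ε ν) ^ S →
    a * ∏ ε ∈ T, gam g (sg ε ν) ^ S ∈ bI g (I ^ (T.card * S)) (∑ ε ∈ T, S • sg ε ν) := by
  classical
  induction T using Finset.induction_on with
  | empty =>
    intro a _
    have h1 : I ^ 0 = ⊤ := (pow_zero I).trans Ideal.one_eq_top
    rw [Finset.card_empty, zero_mul, h1, Finset.sum_empty]
    exact prod_bI_top g _
  | insert ε T hε ih =>
    intro a ha
    rw [Finset.prod_insert hε] at ha
    rw [Finset.prod_insert hε, Finset.card_insert_of_notMem hε, Finset.sum_insert hε]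
    refine Submodule.mul_induction_on ha ?_ ?_
    · intro x hx y hy
      have h1 := bI_mul g (prod_dI_pow g I (sg ε ν) S x hx) (ih y hy)
      have h2 : I ^ S * I ^ (T.card * S) = I ^ ((T.card + 1) * S) :=
        (pow_add I S (T.card * S)).symm.trans (congrArg (fun n => I ^ n) (by ring))
      rw [h2] at h1
      have h3 : x * y * (gam g (sg ε ν) ^ S * ∏ ε ∈ T, gam g (sg ε ν) ^ S) =
          x * gam g (sg ε ν) ^ S * (y * ∏ ε ∈ T, gam g (sg ε ν) ^ S) := by ring
      rw [h3]
      exact h1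
    · intro x y hx hy
      rw [add_mul x y]
      exact Ideal.add_mem _ hx hy

/-- Flipping one sign. -/
private def prod_flip (i : Fin m) : (Fin m → Bool) ≃ (Fin m → Bool) where
  toFun ε := Function.update ε i (!ε i)
  invFun ε := Function.update ε i (!ε i)
  left_inv ε := by simp
  right_inv ε := by simp

private theorem prod_sum_sg (ν : Fin m → ℕ) : ∑ ε : Fin m → Bool, sg ε ν = 0 := by
  funext i
  rw [Finset.sum_apply, Pi.zero_apply]
  have h1 : ∑ ε : Fin m → Bool, sg ε ν i = ∑ ε : Fin m → Bool, sg (prod_flip i ε) ν i :=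
    (Equiv.sum_comp (prod_flip i) (fun ε => sg ε ν i)).symm
  have h2 : ∀ ε : Fin m → Bool, sg (prod_flip i ε) ν i = -sg ε ν i := by
    intro ε
    unfold sg
    have : prod_flip i ε i = !ε i := by
      show Function.update ε i (!ε i) i = _
      rw [Function.update_self]
    rw [this]
    cases ε i <;> simp
  rw [Finset.sum_congr rfl (fun ε _ => h2 ε), Finset.sum_neg_distrib] at h1
  omega

private theorem prod_sum_toNat (ν : Fin m → ℕ) (i : Fin m) :
    ∑ ε : Fin m → Bool, (-(sg ε ν i)).toNat = 2 ^ (m - 1) * ν i := by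
  have h1 : ∑ ε : Fin m → Bool, (-(sg ε ν i)).toNat =
      ∑ ε : Fin m → Bool, (-(sg (prod_flip i ε) ν i)).toNat :=
    (Equiv.sum_comp (prod_flip i) (fun ε => (-(sg ε ν i)).toNat)).symm
  have h2 : ∀ ε : Fin m → Bool, (-(sg ε ν i)).toNat + (-(sg (prod_flip i ε) ν i)).toNat = ν i := by
    intro ε
    unfold sg
    have : prod_flip i ε i = !ε i := by
      show Function.update ε i (!ε i) i = _
      rw [Function.update_self]
    rw [this]
    cases ε i <;> simp
  have h3 : 2 * ∑ ε : Fin m → Bool, (-(sg ε ν i)).toNat = 2 ^ m * ν i := by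
    rw [two_mul]
    nth_rw 2 [h1]
    rw [← Finset.sum_add_distrib, Finset.sum_congr rfl (fun ε _ => h2 ε), Finset.sum_const,
      Finset.card_univ, Fintype.card_fun, Fintype.card_bool, Fintype.card_fin, smul_eq_mul]
  have h4 : 2 ^ m = 2 * 2 ^ (m - 1) := by
    rw [← pow_succ']
    congr 1
    have := i.pos
    omega
  rw [h4, mul_assoc] at h3
  exact Nat.eq_of_mul_eq_mul_left two_pos h3

theorem Kp_pow (I : Ideal (Rg g)) (ν : Fin m → ℕ) (S : ℕ) (a : P k) (ha : a ∈ Kp g I ν ^ S) :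
    a * ∏ i, g i ^ (2 ^ (m - 1) * ν i * S) ∈ bI g (I ^ (2 ^ m * S)) 0 := by
  unfold Kp at ha
  rw [← Finset.prod_pow] at ha
  have h1 := prod_aux g I ν S Finset.univ a ha
  rw [Finset.card_univ, Fintype.card_fun, Fintype.card_bool, Fintype.card_fin] at h1
  have h2 : ∑ ε : Fin m → Bool, S • sg ε ν = 0 := by
    rw [← Finset.smul_sum, prod_sum_sg, smul_zero]
  have h3 : ∏ ε : Fin m → Bool, gam g (sg ε ν) ^ S = ∏ i, g i ^ (2 ^ (m - 1) * ν i * S) := by
    unfold gam
    simp only [← Finset.prod_pow]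
    rw [Finset.prod_comm]
    refine Finset.prod_congr rfl fun i _ => ?_
    simp only [← pow_mul]
    rw [Finset.prod_pow_eq_pow_sum, ← Finset.sum_mul, prod_sum_toNat]
  rw [h2, h3] at h1
  exact h1

end CX
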