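import Pool.Agent.Lib.MP_9e8926_ag_CX.FptK
import Pool.Agent.Lib.MP_9e8926_ag_CX.Lech
import Pool.Agent.Lib.MP_9e8926_ag_LP.Low

set_option autoImplicit false

noncomputable section

namespace CX

open MvPolynomial

variable {k : Type*} [Field k] {m : ℕ} (g : Fin m → P k) (p : ℕ) [Fact p.Prime] [CharP k p]

theorem slice_sum [PerfectField k] (hg : ∀ i, g i ≠ 0) (hg0 : ∀ i, constantCoeff (g i) = 0)
    {I : Ideal (Rg g)} (hI : IsPrim (mX g) I) (t : ℚ) (ht : fpt p (mX g) I < t) (N : ℕ)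
    (hN : 1 ≤ N) (ν : Fin m → ℕ) :
    2 ^ m * ((N : ℝ) / t) ^ 2 * LP.Fvol p g (fun i => t * ν i / (2 * N)) ≤
      2 * ∑ ε : Fin m → Bool, (Module.finrank k (P k ⧸ dI g (I ^ N) (sg ε ν)) : ℝ) := by
  have ht0 : (0 : ℝ) < t := lt_of_le_of_lt (fpt_nonneg g p I) ht
  have hN0 : (0 : ℝ) < N := by exact_mod_cast hN
  have hm0 : (0 : ℝ) < 2 ^ m := by positivity
  have hrhs : (0 : ℝ) ≤
      ∑ ε : Fin m → Bool, (Module.finrank k (P k ⧸ dI g (I ^ N) (sg ε ν)) : ℝ) :=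
    Finset.sum_nonneg fun _ _ => Nat.cast_nonneg _
  by_cases hB : LP.Base p g (fun i => t * ν i / (2 * N))
  · obtain ⟨hK, hle⟩ := fpt_K g p hg hg0 hI t ht N hN ν hB
    have h1 := LP.fvol_le p g (fun i => t * ν i / (2 * N)) (Kp g (I ^ N) ν) hK
    have h2 : LP.fpt p g (fun i => t * ν i / (2 * N)) (Kp g (I ^ N) ν) ^ 2 ≤
        ((t : ℝ) / (2 ^ m * N)) ^ 2 :=
      pow_le_pow_left₀ (LP.fpt_nonneg p _ _ _) hle 2
    have h3 := mul_le_mul_of_nonneg_left h2 (LP.emult_nonneg (Kp g (I ^ N) ν) hK)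
    have h4 := emult_le_two (Kp g (I ^ N) ν) hK
    have h5 : (Module.finrank k (P k ⧸ Kp g (I ^ N) ν) : ℝ) ≤
        2 ^ m * ∑ ε : Fin m → Bool, (Module.finrank k (P k ⧸ dI g (I ^ N) (sg ε ν)) : ℝ) := by
      obtain ⟨M, hM⟩ := hK.2
      have h6 := finrank_prod_le m M (fun ε => dI g (I ^ N) (sg ε ν)) fun ε =>
        hM.trans (Ideal.prod_le_inf.trans (Finset.inf_le (Finset.mem_univ ε)))
      exact_mod_cast h6
    have h7 : LP.Fvol p g (fun i => t * ν i / (2 * N)) ≤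
        (2 * (2 ^ m * ∑ ε : Fin m → Bool,
          (Module.finrank k (P k ⧸ dI g (I ^ N) (sg ε ν)) : ℝ))) *
          ((t : ℝ) / (2 ^ m * N)) ^ 2 := by
      refine (h1.trans h3).trans (mul_le_mul_of_nonneg_right ?_ (sq_nonneg _))
      linarith
    have h8 := mul_le_mul_of_nonneg_left h7
      (show (0 : ℝ) ≤ 2 ^ m * ((N : ℝ) / t) ^ 2 by positivity)
    refine h8.trans (le_of_eq ?_)
    field_simp
  · rw [LP.fvol_eq_zero p (by norm_num) g _ hB, mul_zero]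
    linarith

end CX
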