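import Pool.Agent.Lib.MP_9e8926_ag_CX.WtE
import Pool.Agent.Lib.MP_9e8926_ag_CX.HomR
import Pool.Agent.Lib.MP_9e8926_ag_CX.FptX
import Pool.Agent.Lib.MP_9e8926_ag_CX.LowX

set_option autoImplicit false

noncomputable section

namespace CX

open MvPolynomial

variable {k : Type*} [Field k] {m : ℕ} (p : ℕ) [Fact p.Prime] [CharP k p]

private theorem one_ne_zero_Rg (g : Fin m → P k) : (1 : Rg g) ≠ 0 := by
  intro h
  have h1 := cf_one g 0
  rw [h, map_zero, if_pos rfl] at h1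
  exact zero_ne_one h1

private theorem upX_sfr (g G : Fin m → P k) (d : Fin m → ℕ) (h : Semi g G d) (j : ℕ)
    (hj : 1 ≤ j) {t : ℝ} (ht : SFR p (mX g) (aw g G d h j) t) : t ≤ 4 / j := by
  classical
  obtain ⟨e, he, φ, hφ, a, ha, hφa⟩ := ht 1 (one_ne_zero_Rg g)
  have h1 : ¬ ∀ s : Rg g, cf g 0 (s * (1 * a)) ∈ LP.J 2 k (p ^ e) := fun hh =>
    hφa (homR g p (fun i => h.ne_zero i) (fun i => h.const i) e φ hφ (1 * a) hh)
  push Not at h1
  obtain ⟨s, hs⟩ := h1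
  rw [LP.mem_J] at hs
  push Not at hs
  obtain ⟨μ, hμ, hlt⟩ := hs
  set T := ⌈t * ((p ^ e : ℕ) - 1 : ℝ)⌉₊ with hT
  have h2 : s * (1 * a) ∈ aw g G d h (j * T) :=
    Ideal.mul_mem_left _ _ (Ideal.mul_mem_left _ _ (aw_pow g G d h j T ha))
  rw [mem_aw] at h2
  have h3 := h2 0 μ hμ
  simp only [Pi.zero_apply, zero_mul, Finset.sum_const_zero, add_zero] at h3
  have hq2 : 2 ≤ p ^ e := by
    have hp := (Fact.out : p.Prime).two_le
    calc 2 ≤ p := hp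
      _ = p ^ 1 := (pow_one p).symm
      _ ≤ p ^ e := Nat.pow_le_pow_right (by omega) he
  have h4 : j * T ≤ 4 * (p ^ e - 1) := by
    have h5 := hlt 0
    have h6 := hlt 1
    have h7 : j * T ≤ 2 * (μ 0 + μ 1) := by exact_mod_cast h3
    omega
  have h7 : (t * ((p ^ e : ℕ) - 1 : ℝ)) ≤ T := Nat.le_ceil _
  have h8 : ((j * T : ℕ) : ℝ) ≤ ((4 * (p ^ e - 1) : ℕ) : ℝ) := by exact_mod_cast h4
  rw [Nat.cast_mul, Nat.cast_mul, Nat.cast_sub (by omega : 1 ≤ p ^ e)] at h8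
  have hj0 : (0 : ℝ) < j := by exact_mod_cast hj
  have hq : (0 : ℝ) < ((p ^ e : ℕ) : ℝ) - 1 := by
    have : (2 : ℝ) ≤ ((p ^ e : ℕ) : ℝ) := by exact_mod_cast hq2
    linarith
  rw [le_div_iff₀ hj0]
  have h9 := mul_le_mul_of_nonneg_left h7 hj0.le
  have h10 : t * j * (((p ^ e : ℕ) : ℝ) - 1) ≤ 4 * (((p ^ e : ℕ) : ℝ) - 1) := by
    calc t * j * (((p ^ e : ℕ) : ℝ) - 1) = j * (t * (((p ^ e : ℕ) : ℝ) - 1)) := by ring
      _ ≤ j * T := h9
      _ ≤ _ := by simpa using h8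
  exact le_of_mul_le_mul_right h10 hq

theorem fpt_aw (g G : Fin m → P k) (d : Fin m → ℕ) (h : Semi g G d) (j : ℕ) (hj : 1 ≤ j) :
    fpt p (mX g) (aw g G d h j) ≤ 4 / j := by
  refine Real.sSup_le (fun t ht => upX_sfr p g G d h j hj ht.2) (by positivity)

private theorem upX_lim (A D : ℝ) (n : ℕ) :
    Filter.Tendsto (fun j : ℕ => A * ((j : ℝ) + 2 + D) ^ n * (4 / (j : ℝ)) ^ n) Filter.atTop
      (nhds (A * 4 ^ n)) := by
  have h1 : Filter.Tendsto (fun j : ℕ => 4 * (2 + D) / (j : ℝ)) Filter.atTop (nhds 0) :=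
    tendsto_const_div_atTop_nhds_zero_nat _
  have h2 := ((h1.const_add 4).pow n).const_mul A
  rw [add_zero] at h2
  refine h2.congr' ?_
  filter_upwards [Filter.eventually_gt_atTop 0] with j hj
  have hj0 : (j : ℝ) ≠ 0 := by exact_mod_cast hj.ne'
  rw [mul_assoc, ← mul_pow]
  congr 2
  field_simp
  ring

theorem fvol_up [PerfectField k] (g G : Fin m → P k) (d : Fin m → ℕ) (h : Semi g G d) :
    Fvol p g ≤ (2 : ℝ) ^ (3 * m + 2) / (∏ i, (d i : ℝ)) := by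
  have hlim := upX_lim (2 ^ m / (4 * ∏ i, (d i : ℝ))) (∑ i, (d i : ℝ)) (m + 2)
  have heq : 2 ^ m / (4 * ∏ i, (d i : ℝ)) * 4 ^ (m + 2) =
      (2 : ℝ) ^ (3 * m + 2) / (∏ i, (d i : ℝ)) := by
    have hd : (∏ i, (d i : ℝ)) ≠ 0 := Finset.prod_ne_zero_iff.2 fun i _ => by
      have := (h i).1
      exact_mod_cast (by omega : d i ≠ 0)
    have h4 : (4 : ℝ) ^ (m + 2) = 2 ^ (2 * m + 4) := by
      rw [show (4 : ℝ) = 2 ^ 2 by norm_num, ← pow_mul, show 2 * (m + 2) = 2 * m + 4 by ring]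
    rw [h4]
    field_simp
    ring
  rw [heq] at hlim
  refine ge_of_tendsto hlim ?_
  filter_upwards [Filter.eventually_ge_atTop 1] with j hj
  have hbdd : BddBelow {v : ℝ | ∃ I : Ideal (Rg g), IsPrim (mX g) I ∧
      v = emult k (m + 2) I * fpt p (mX g) I ^ (m + 2)} := by
    refine ⟨0, ?_⟩
    rintro _ ⟨I, hI, rfl⟩
    exact mul_nonneg (emult_nonneg g G d h hI) (pow_nonneg (fpt_nonneg g p I) _)
  have h1 : Fvol p g ≤ emult k (m + 2) (aw g G d h j) *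
      fpt p (mX g) (aw g G d h j) ^ (m + 2) :=
    csInf_le hbdd ⟨_, aw_prim g G d h j hj, rfl⟩
  refine h1.trans ?_
  have h2 := emult_aw g G d h j hj
  have h3 := fpt_aw p g G d h j hj
  have h4 := fpt_nonneg g p (aw g G d h j)
  exact mul_le_mul h2 (pow_le_pow_left₀ h4 h3 _) (pow_nonneg h4 _)
    ((emult_nonneg g G d h (aw_prim g G d h j hj)).trans h2)

end CX
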