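import Pool.Agent.Lib.MP_9e8926_ag_CX.EvX

set_option autoImplicit false

noncomputable section

namespace CX

open MvPolynomial MeasureTheory

variable {m : ℕ}

/-- annuli -/
private def An (R : ℝ) : Set ℂ := Metric.closedBall 0 R \ Metric.closedBall 0 (R / 2)

private theorem mem_An {R : ℝ} {z : ℂ} : z ∈ An R ↔ R / 2 < ‖z‖ ∧ ‖z‖ ≤ R := by
  unfold An
  rw [Set.mem_diff, mem_closedBall_zero_iff, mem_closedBall_zero_iff, not_le, and_comm]

private theorem meas_An (R : ℝ) : MeasurableSet (An R) :=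
  Metric.isClosed_closedBall.measurableSet.diff Metric.isClosed_closedBall.measurableSet

private theorem vol_ball (R : ℝ) (hR : 0 ≤ R) :
    volume (Metric.closedBall (0 : ℂ) R) = ENNReal.ofReal (Real.pi * R ^ 2) := by
  rw [Complex.volume_closedBall, mul_comm Real.pi, ENNReal.ofReal_mul (by positivity),
    ENNReal.ofReal_pow hR]
  congr 1
  exact (ENNReal.ofReal_coe_nnreal (p := NNReal.pi)).symm

private theorem vol_An (R : ℝ) (hR : 0 ≤ R) :
    volume (An R) = ENNReal.ofReal (3 / 4 * Real.pi * R ^ 2) := by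
  unfold An
  rw [measure_diff (Metric.closedBall_subset_closedBall (by linarith))
    Metric.isClosed_closedBall.measurableSet.nullMeasurableSet]
  · rw [vol_ball R hR, vol_ball (R / 2) (by linarith), ← ENNReal.ofReal_sub _ (by positivity)]
    congr 1
    ring
  · rw [vol_ball (R / 2) (by linarith)]
    exact ENNReal.ofReal_ne_top

private theorem Sh_eq (d : Fin m → ℕ) (ρ : ℝ) :
    Sh d ρ = (Set.univ.pi fun i => An (ρ ^ d i)) ×ˢ
      (Set.univ.pi ![An (ρ ^ 2), Metric.closedBall (0 : ℂ) (ρ ^ 2)]) := by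
  ext u
  rw [Set.mem_prod, Set.mem_univ_pi, Set.mem_univ_pi, Fin.forall_fin_two]
  simp only [mem_An, Matrix.cons_val_zero, Matrix.cons_val_one, mem_closedBall_zero_iff]
  unfold Sh
  rw [Set.mem_setOf_eq, and_assoc]

private theorem meas_Sh (d : Fin m → ℕ) (ρ : ℝ) : MeasurableSet (Sh d ρ) := by
  rw [Sh_eq]
  refine MeasurableSet.prod (MeasurableSet.univ_pi fun i => meas_An _)
    (MeasurableSet.univ_pi fun i => ?_)
  fin_cases i
  · exact meas_An _
  · exact Metric.isClosed_closedBall.measurableSet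

theorem vol_Sh (d : Fin m → ℕ) (ρ : ℝ) (hρ : 0 < ρ) :
    volume (Sh d ρ) = ENNReal.ofReal ((3 / 4 * Real.pi) ^ (m + 1) * Real.pi *
      ρ ^ (8 + 2 * ∑ i, d i)) := by
  rw [Sh_eq, Measure.volume_eq_prod, Measure.prod_prod, volume_pi_pi, volume_pi_pi,
    Fin.prod_univ_two]
  simp only [Matrix.cons_val_zero, Matrix.cons_val_one]
  rw [vol_An _ (by positivity), vol_ball _ (by positivity),
    Finset.prod_congr rfl (fun i _ => vol_An (ρ ^ d i) (by positivity)),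
    ← ENNReal.ofReal_prod_of_nonneg (fun i _ => by positivity),
    ← ENNReal.ofReal_mul (by positivity), ← ENNReal.ofReal_mul (by positivity)]
  congr 1
  rw [Finset.prod_mul_distrib, Finset.prod_const, Finset.card_univ, Fintype.card_fin]
  have h1 : ∏ i, (ρ ^ d i) ^ 2 = ρ ^ (2 * ∑ i, d i) := by
    simp only [← pow_mul]
    rw [Finset.prod_pow_eq_pow_sum, ← Finset.sum_mul, mul_comm]
  rw [h1, pow_add ρ 8]
  ring

/-- The integral of the density over `Sh d ρ` is at least `c ρ^8`. -/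
theorem int_Sh (d : Fin m → ℕ) (ρ : ℝ) (hρ : 0 < ρ) :
    ENNReal.ofReal (ρ ^ 8) ≤ ∫⁻ u in Sh d ρ, ENNReal.ofReal (∏ i, ‖u.1 i‖ ^ (-2 : ℝ)) := by
  have h1 : ∫⁻ _ in Sh d ρ, ENNReal.ofReal (∏ i, (ρ ^ d i) ^ (-2 : ℝ)) ≤
      ∫⁻ u in Sh d ρ, ENNReal.ofReal (∏ i, ‖u.1 i‖ ^ (-2 : ℝ)) := by
    refine setLIntegral_mono' (meas_Sh d ρ) fun u hu => ENNReal.ofReal_le_ofReal ?_
    refine Finset.prod_le_prod (fun i _ => by positivity) fun i _ => ?_
    have h2 := hu.1 i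
    have h3 : 0 < ρ ^ d i := by positivity
    exact Real.rpow_le_rpow_of_nonpos (by linarith) h2.2 (by norm_num)
  refine le_trans ?_ h1
  rw [setLIntegral_const, vol_Sh d ρ hρ, ← ENNReal.ofReal_mul (by positivity)]
  apply ENNReal.ofReal_le_ofReal
  have h4 : ∏ i, (ρ ^ d i) ^ (-2 : ℝ) = (ρ ^ (2 * ∑ i, d i))⁻¹ := by
    have h5 : ∀ i, (ρ ^ d i) ^ (-2 : ℝ) = (ρ ^ (2 * d i))⁻¹ := by
      intro i
      rw [Real.rpow_neg (by positivity), mul_comm 2, pow_mul]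
      norm_num
    rw [Finset.prod_congr rfl (fun i _ => h5 i), Finset.prod_inv_distrib,
      Finset.prod_pow_eq_pow_sum, ← Finset.mul_sum]
  rw [h4, pow_add ρ 8]
  have h6 : 0 < ρ ^ (2 * ∑ i, d i) := by positivity
  have h7 : (ρ ^ (2 * ∑ i, d i))⁻¹ * ((3 / 4 * Real.pi) ^ (m + 1) * Real.pi *
      (ρ ^ 8 * ρ ^ (2 * ∑ i, d i))) = (3 / 4 * Real.pi) ^ (m + 1) * Real.pi * ρ ^ 8 := by
    field_simp
  rw [h7]
  have h8 : 1 ≤ 3 / 4 * Real.pi := by
    have := Real.pi_gt_three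
    linarith
  have h9 : 1 ≤ (3 / 4 * Real.pi) ^ (m + 1) := one_le_pow₀ h8
  have h10 : 1 ≤ Real.pi := by
    have := Real.pi_gt_three
    linarith
  have h11 : 0 < ρ ^ 8 := by positivity
  have h12 : 1 ≤ (3 / 4 * Real.pi) ^ (m + 1) * Real.pi := by
    calc (1 : ℝ) = 1 * 1 := by norm_num
      _ ≤ _ := mul_le_mul h9 h10 zero_le_one (by positivity)
  nlinarith

/-- evaluation at a point of the singularity -/
private def evP (g : Fin m → P ℂ) (u : (Fin m → ℂ) × (Fin 2 → ℂ)) (hu : ∀ i, u.1 i ≠ 0) :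
    Rg g →+* ℂ := Ideal.Quotient.lift (rel g) (eval (pt g u)) (by
  have h : rel g ≤ RingHom.ker (eval (pt g u)) := by
    unfold rel
    rw [Ideal.span_le]
    rintro _ ⟨i, rfl⟩
    rw [SetLike.mem_coe, RingHom.mem_ker, map_sub, map_mul, eval_X, eval_X, eval_rename]
    have h1 : pt g u (Sum.inl i) = u.1 i := rfl
    have h2 : pt g u (Sum.inr (Sum.inl i)) = eval u.2 (g i) / u.1 i := rfl
    have h3 : (pt g u ∘ fun j => Sum.inr (Sum.inr j)) = u.2 := rfl
    rw [h1, h2, h3, mul_div_cancel₀ _ (hu i), sub_self]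
  intro a ha
  exact h ha)

private theorem sum_pos_pt (g G : Fin m → P ℂ) (d : Fin m → ℕ) (h : Semi g G d) (j : ℕ)
    (hj : 1 ≤ j) (Γ : Finset (MvPolynomial (Vr m) ℂ))
    (hΓ : Ideal.span (Ideal.Quotient.mk (rel g) '' (Γ : Set (MvPolynomial (Vr m) ℂ))) =
      aw g G d h j) (u : (Fin m → ℂ) × (Fin 2 → ℂ)) (hu : ∀ i, u.1 i ≠ 0) (hz : u.2 0 ≠ 0) :
    0 < ∑ a ∈ Γ, ‖eval (pt g u) a‖ ^ 2 := by
  refine lt_of_le_of_ne (Finset.sum_nonneg fun _ _ => by positivity) fun h0 => ?_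
  have h1 : ∀ a ∈ Γ, eval (pt g u) a = 0 := by
    intro a ha
    have h2 := (Finset.sum_eq_zero_iff_of_nonneg (fun a _ => by positivity)).mp h0.symm a ha
    exact norm_eq_zero.mp (pow_eq_zero_iff two_ne_zero |>.mp h2)
  have h3 : aw g G d h j ≤ RingHom.ker (evP g u hu) := by
    rw [← hΓ, Ideal.span_le]
    rintro _ ⟨a, ha, rfl⟩
    exact h1 a ha
  obtain ⟨-, M, hM⟩ := aw_prim g G d h j hj
  have h4 : Ideal.Quotient.mk (rel g) (X (Sum.inr (Sum.inr 0))) ∈ mX g :=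
    Ideal.subset_span ⟨Sum.inr (Sum.inr 0), rfl⟩
  have h5 := h3 (hM (Ideal.pow_mem_pow h4 M))
  rw [RingHom.mem_ker, map_pow] at h5
  have h6 : evP g u hu (Ideal.Quotient.mk (rel g) (X (Sum.inr (Sum.inr 0)))) = u.2 0 := by
    show eval (pt g u) (X (Sum.inr (Sum.inr 0))) = u.2 0
    rw [eval_X]
    rfl
  rw [h6] at h5
  exact pow_ne_zero M hz h5

theorem lct_aw (g G : Fin m → P ℂ) (d : Fin m → ℕ) (h : Semi g G d) (j : ℕ) (hj : 1 ≤ j) :
    lct g (aw g G d h j) ≤ 4 / j := by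
  have hjR : (0 : ℝ) < j := by exact_mod_cast (show 0 < j by omega)
  refine Real.sSup_le ?_ (by positivity)
  rintro t ⟨ht, Γ, hΓ, ρ', hρ', hint⟩
  by_contra hlt
  push Not at hlt
  rw [div_lt_iff₀ hjR] at hlt
  -- the bound for the generators
  have hb : ∃ C : ℝ, 0 < C ∧ ∀ ρ : ℝ, 0 < ρ → ρ ≤ 1 → ∀ u ∈ Sh d ρ,
      ∑ a ∈ Γ, ‖eval (pt g u) a‖ ^ 2 ≤ C * ρ ^ (2 * j) := by
    have h1 : ∀ a : MvPolynomial (Vr m) ℂ, ∃ C : ℝ, 0 < C ∧ (a ∈ Γ → ∀ ρ : ℝ, 0 < ρ → ρ ≤ 1 →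
        ∀ u ∈ Sh d ρ, ‖eval (pt g u) a‖ ≤ C * ρ ^ j) := by
      intro a
      by_cases ha : a ∈ Γ
      · have h2 : Ideal.Quotient.mk (rel g) a ∈ aw g G d h j := by
          rw [← hΓ]
          exact Ideal.subset_span ⟨a, ha, rfl⟩
        obtain ⟨C, hC, h3⟩ := bound_Sh g d j a (mem_aw.mp h2)
        exact ⟨C, hC, fun _ => h3⟩
      · exact ⟨1, one_pos, fun h' => absurd h' ha⟩
    choose C hC h2 using h1
    refine ⟨∑ a ∈ Γ, C a ^ 2 + 1, ?_, fun ρ hρ hρ1 u hu => ?_⟩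
    · have := Finset.sum_nonneg fun a (_ : a ∈ Γ) => sq_nonneg (C a)
      linarith
    · have h3 : ∑ a ∈ Γ, ‖eval (pt g u) a‖ ^ 2 ≤ ∑ a ∈ Γ, C a ^ 2 * ρ ^ (2 * j) := by
        refine Finset.sum_le_sum fun a ha => ?_
        have h4 := pow_le_pow_left₀ (norm_nonneg _) (h2 a ha ρ hρ hρ1 u hu) 2
        rw [mul_pow, ← pow_mul, mul_comm j 2] at h4
        exact h4
      rw [← Finset.sum_mul] at h3
      have h5 : 0 < ρ ^ (2 * j) := by positivity
      nlinarith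
  obtain ⟨C, hC, hCb⟩ := hb
  obtain ⟨ρ₀, hρ₀, hρ₀1, hsub⟩ := Sh_subset g G d h ρ' hρ'
  set F : (Fin m → ℂ) × (Fin 2 → ℂ) → ℝ := fun u => (∏ i, ‖u.1 i‖ ^ (-2 : ℝ)) *
      (∑ h ∈ Γ, ‖eval (pt g u) h‖ ^ 2) ^ (-t) with hF
  have key : ∀ ρ : ℝ, 0 < ρ → ρ ≤ ρ₀ →
      ENNReal.ofReal (C ^ (-t)) ≤ ∫⁻ u in Sh d ρ, ENNReal.ofReal (F u) := by
    intro ρ hρ hρ1
    have hρ11 : ρ ≤ 1 := hρ1.trans hρ₀1
    have h0 : 0 ≤ (C * ρ ^ (2 * j)) ^ (-t) := by positivity
    calc ENNReal.ofReal (C ^ (-t)) ≤ ENNReal.ofReal ((C * ρ ^ (2 * j)) ^ (-t) * ρ ^ 8) := by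
          apply ENNReal.ofReal_le_ofReal
          rw [Real.mul_rpow hC.le (by positivity), ← Real.rpow_natCast ρ (2 * j),
            ← Real.rpow_mul hρ.le, ← Real.rpow_natCast ρ 8, mul_assoc, ← Real.rpow_add hρ]
          have h1 : 1 ≤ ρ ^ (((2 * j : ℕ) : ℝ) * -t + ((8 : ℕ) : ℝ)) := by
            apply Real.one_le_rpow_of_pos_of_le_one_of_nonpos hρ hρ11
            push_cast
            nlinarith
          have h2 : 0 < C ^ (-t) := by positivity
          nlinarith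
      _ = ENNReal.ofReal ((C * ρ ^ (2 * j)) ^ (-t)) * ENNReal.ofReal (ρ ^ 8) :=
          ENNReal.ofReal_mul h0
      _ ≤ ENNReal.ofReal ((C * ρ ^ (2 * j)) ^ (-t)) *
          ∫⁻ u in Sh d ρ, ENNReal.ofReal (∏ i, ‖u.1 i‖ ^ (-2 : ℝ)) := by
          gcongr
          exact int_Sh d ρ hρ
      _ = ∫⁻ u in Sh d ρ, ENNReal.ofReal ((C * ρ ^ (2 * j)) ^ (-t)) *
          ENNReal.ofReal (∏ i, ‖u.1 i‖ ^ (-2 : ℝ)) :=
          (lintegral_const_mul' _ _ ENNReal.ofReal_ne_top).symm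
      _ ≤ _ := by
          refine setLIntegral_mono' (meas_Sh d ρ) fun u hu => ?_
          rw [← ENNReal.ofReal_mul h0]
          apply ENNReal.ofReal_le_ofReal
          have h3 : ∀ i, u.1 i ≠ 0 := by
            intro i
            have h4 := (hu.1 i).1
            have h5 : 0 < ρ ^ d i := by positivity
            exact norm_pos_iff.mp (by linarith)
          have h4 : u.2 0 ≠ 0 := by
            have h5 := hu.2.1
            have h6 : 0 < ρ ^ 2 := by positivity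
            exact norm_pos_iff.mp (by linarith)
          have h5 := sum_pos_pt g G d h j hj Γ hΓ u h3 h4
          have h6 := Real.rpow_le_rpow_of_nonpos h5 (hCb ρ hρ hρ11 u hu)
            (show -t ≤ 0 by linarith)
          rw [hF, mul_comm]
          exact mul_le_mul_of_nonneg_left h6
            (Finset.prod_nonneg fun i _ => Real.rpow_nonneg (norm_nonneg _) _)
  set r : ℕ → ℝ := fun n => ρ₀ * (1 / 2) ^ n with hr
  have hrpos : ∀ n, 0 < r n := fun n => by positivity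
  have hrle : ∀ n, r n ≤ ρ₀ := by
    intro n
    have : ((1 : ℝ) / 2) ^ n ≤ 1 := pow_le_one₀ (by norm_num) (by norm_num)
    calc ρ₀ * (1 / 2) ^ n ≤ ρ₀ * 1 := by gcongr
      _ = ρ₀ := mul_one _
  have hdis : Pairwise (Function.onFun Disjoint fun n => Sh d (r n)) := by
    have h1 : ∀ a b : ℕ, a < b → Disjoint (Sh d (r a)) (Sh d (r b)) := by
      intro a b hab
      rw [Set.disjoint_left]
      intro u hu hu'
      have h2 := hu.2.1
      have h3 := hu'.2.2.1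
      have h4 : r b ≤ r a / 2 := by
        have h5 : ((1 : ℝ) / 2) ^ b ≤ (1 / 2) ^ (a + 1) :=
          pow_le_pow_of_le_one (by norm_num) (by norm_num) hab
        calc r b = ρ₀ * (1 / 2) ^ b := rfl
          _ ≤ ρ₀ * (1 / 2) ^ (a + 1) := by gcongr
          _ = r a / 2 := by
            rw [hr]
            ring
      have h6 : r b ^ 2 ≤ (r a / 2) ^ 2 := pow_le_pow_left₀ (hrpos b).le h4 2
      have h7 : 0 < r a ^ 2 := by
        have := hrpos a
        positivity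
      nlinarith
    intro a b hab
    rcases lt_or_gt_of_ne hab with h' | h'
    · exact h1 a b h'
    · exact (h1 b a h').symm
  have hinf : ∫⁻ u in ⋃ n, Sh d (r n), ENNReal.ofReal (F u) = ⊤ := by
    rw [lintegral_iUnion (fun n => meas_Sh d (r n)) hdis]
    rw [eq_top_iff]
    have hC0 : ENNReal.ofReal (C ^ (-t)) ≠ 0 := by
      rw [ne_eq, ENNReal.ofReal_eq_zero, not_le]
      positivity
    calc (⊤ : ENNReal) = ∑' _ : ℕ, ENNReal.ofReal (C ^ (-t)) :=
          (ENNReal.tsum_const_eq_top_of_ne_zero hC0).symm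
      _ ≤ _ := ENNReal.tsum_le_tsum fun n => key (r n) (hrpos n) (hrle n)
  have hfin : ∫⁻ u in nbh g ρ', ENNReal.ofReal (F u) < ⊤ := hint.lintegral_lt_top
  have hle : ∫⁻ u in ⋃ n, Sh d (r n), ENNReal.ofReal (F u) ≤
      ∫⁻ u in nbh g ρ', ENNReal.ofReal (F u) :=
    lintegral_mono_set (Set.iUnion_subset fun n => hsub (r n) (hrpos n) (hrle n))
  rw [hinf] at hle
  exact absurd hfin (not_lt.mpr hle)

end CX
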