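import Pool.Agent.Lib.MP_9e8926_ag_CX.WtX

set_option autoImplicit false

noncomputable section

namespace CX

open MvPolynomial

variable {k : Type*} [Field k] {m : ℕ}

private theorem abs_eq' (a : ℤ) : |a| = 2 * ((-a).toNat : ℤ) + a := by
  rcases le_total 0 a with h | h
  · rw [abs_of_nonneg h]
    omega
  · rw [abs_of_nonpos h]
    omega

private theorem abs_eq'' (a : ℤ) : |a| = (a.toNat : ℤ) + ((-a).toNat : ℤ) := by
  rcases le_total 0 a with h | h
  · rw [abs_of_nonneg h]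
    omega
  · rw [abs_of_nonpos h]
    omega

private theorem gam_isInit (g G : Fin m → P k) (d : Fin m → ℕ) (h : Semi g G d) (ν : Fin m → ℤ) :
    FV.IsInit 1 1 (gam g ν) (∑ i, (-(ν i)).toNat * d i) (∏ i, G i ^ (-(ν i)).toNat) :=
  FV.IsInit.prod Finset.univ fun i _ => (h i).2.1.pow _

private theorem wt_one (μ : Fin 2 →₀ ℕ) : FV.wt 1 1 μ = μ 0 + μ 1 := by
  unfold FV.wt
  ring

private theorem sum_eq (d : Fin m → ℕ) (ν : Fin m → ℤ) :
    ∑ i, |ν i| * (d i : ℤ) =
      2 * ((∑ i, (-(ν i)).toNat * d i : ℕ) : ℤ) + ∑ i, ν i * (d i : ℤ) := by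
  push_cast
  rw [Finset.mul_sum, ← Finset.sum_add_distrib]
  refine Finset.sum_congr rfl fun i _ => ?_
  rw [abs_eq']
  ring

/-- The monomials of the expansion of an element of large weight have large weight. -/
theorem expand_wt (g G : Fin m → P k) (d : Fin m → ℕ) (h : Semi g G d) (M : ℕ) (r : Rg g)
    (hr : r ∈ aw g G d h M) :
    ∃ (s : Finset ((Fin 2 →₀ ℕ) × (Fin m → ℤ))) (c : (Fin 2 →₀ ℕ) × (Fin m → ℤ) → k),
      (∀ x ∈ s, (M : ℤ) ≤ 2 * ((x.1 0 : ℤ) + (x.1 1 : ℤ)) + ∑ i, |x.2 i| * (d i : ℤ)) ∧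
      r = ∑ x ∈ s, ci g (monomial x.1 (c x)) * E g x.2 := by
  classical
  set s₀ := (cf_finite g r).toFinset with hs₀
  obtain ⟨δ, hδ, hr'⟩ := expand g (fun i => h.ne_zero i) r s₀ (by
    intro ν hν
    by_contra hc
    exact hν ((Set.Finite.mem_toFinset _).2 hc))
  let em : (Σ _ : (Fin m → ℤ), (Fin 2 →₀ ℕ)) ↪ (Fin 2 →₀ ℕ) × (Fin m → ℤ) :=
    ⟨fun x => (x.2, x.1), by
      rintro ⟨a, b⟩ ⟨a', b'⟩ hx
      simp only [Prod.mk.injEq] at hx
      obtain ⟨rfl, rfl⟩ := hx
      rfl⟩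
  refine ⟨(s₀.sigma fun ν => (δ ν).support).map em, fun x => coeff x.1 (δ x.2), ?_, ?_⟩
  · intro x hx
    obtain ⟨⟨ν, μ⟩, hy, rfl⟩ := Finset.mem_map.1 hx
    rw [Finset.mem_sigma] at hy
    obtain ⟨_, hμ⟩ := hy
    simp only at hμ
    change (M : ℤ) ≤ 2 * ((μ 0 : ℤ) + (μ 1 : ℤ)) + ∑ i, |ν i| * (d i : ℤ)
    have hne : δ ν ≠ 0 := by
      rintro h0
      rw [h0] at hμ
      simp at hμ
    obtain ⟨e, H, hH⟩ := FV.exists_isInit 1 1 hne
    obtain ⟨μ', hμ', hw⟩ := ((gam_isInit g G d h ν).mul hH).exists_mem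
    rw [← hδ] at hμ'
    have h1 := (mem_aw.1 hr) ν μ' hμ'
    have h2 := hH.ge μ hμ
    rw [wt_one] at hw h2
    rw [sum_eq]
    have h3 : ((μ' 0 : ℕ) : ℤ) + ((μ' 1 : ℕ) : ℤ) =
        ((∑ i, (-(ν i)).toNat * d i : ℕ) : ℤ) + (e : ℤ) := by exact_mod_cast hw
    have h4 : (e : ℤ) ≤ (μ 0 : ℤ) + (μ 1 : ℤ) := by exact_mod_cast h2
    linarith
  · rw [Finset.sum_map, Finset.sum_sigma]
    conv_lhs => rw [hr']
    refine Finset.sum_congr rfl fun ν _ => ?_
    change ci g (δ ν) * E g ν = ∑ μ ∈ (δ ν).support, ci g (monomial μ (coeff μ (δ ν))) * E g ν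
    rw [← Finset.sum_mul]
    congr 1
    conv_lhs => rw [← support_sum_monomial_coeff (δ ν)]
    unfold ci
    rw [map_sum, map_sum]

private theorem aw_anti (g G : Fin m → P k) (d : Fin m → ℕ) (h : Semi g G d) {i j : ℕ}
    (hij : i ≤ j) : aw g G d h j ≤ aw g G d h i := by
  intro r hr ν μ hμ
  have h1 := (mem_aw.1 hr) ν μ hμ
  have h2 : (i : ℤ) ≤ j := by exact_mod_cast hij
  exact h2.trans h1

private theorem list_mem (g G : Fin m → P k) (d : Fin m → ℕ) (h : Semi g G d)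
    (l : List (Rg g × ℕ)) (hl : ∀ x ∈ l, x.1 ∈ aw g G d h x.2) :
    (l.map Prod.fst).prod ∈ aw g G d h (l.map Prod.snd).sum := by
  induction l with
  | nil => exact mem_aw.2 (WGe.zero g G d h _)
  | cons x l ih =>
    have e1 : ((x :: l).map Prod.fst).prod = x.1 * (l.map Prod.fst).prod := by simp
    have e2 : ((x :: l).map Prod.snd).sum = x.2 + (l.map Prod.snd).sum := by simp
    rw [e1, e2]
    exact aw_mul g G d h _ _ (Ideal.mul_mem_mul (hl x List.mem_cons_self)
      (ih fun y hy => hl y (List.mem_cons_of_mem _ hy)))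

private theorem split (D : ℕ) {α : Type*} (l : List (α × ℕ)) (hl : ∀ x ∈ l, x.2 ≤ D) :
    ∀ j : ℕ, j ≤ (l.map Prod.snd).sum → ∃ l1 l2, l = l1 ++ l2 ∧ j ≤ (l1.map Prod.snd).sum ∧
      (l1.map Prod.snd).sum ≤ j + D := by
  induction l with
  | nil =>
    intro j hj
    exact ⟨[], [], rfl, hj, by simp⟩
  | cons x l ih =>
    intro j hj
    have hx := hl x List.mem_cons_self
    rw [List.map_cons, List.sum_cons] at hj
    by_cases hjx : j ≤ x.2
    · exact ⟨[x], l, rfl, by simpa using hjx, by simp; omega⟩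
    · obtain ⟨l1, l2, h1, h2, h3⟩ := ih (fun y hy => hl y (List.mem_cons_of_mem _ hy))
        (j - x.2) (by omega)
      refine ⟨x :: l1, l2, by rw [h1]; rfl, ?_, ?_⟩
      · rw [List.map_cons, List.sum_cons]
        omega
      · rw [List.map_cons, List.sum_cons]
        omega

/-- A product of elements of small weight and large total weight. -/
theorem prod_mem (g G : Fin m → P k) (d : Fin m → ℕ) (h : Semi g G d) (j N D : ℕ)
    (l : List (Rg g × ℕ)) (hl : ∀ x ∈ l, x.1 ∈ aw g G d h x.2 ∧ x.2 ≤ D)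
    (hN : (j + D) * N ≤ (l.map Prod.snd).sum) :
    (l.map Prod.fst).prod ∈ aw g G d h j ^ N := by
  induction N generalizing l with
  | zero =>
    have e := pow_zero (aw g G d h j)
    rw [e, Ideal.one_eq_top]
    trivial
  | succ N ih =>
    have h0 : j ≤ (l.map Prod.snd).sum := by
      refine le_trans ?_ hN
      nlinarith
    obtain ⟨l1, l2, rfl, h1, h2⟩ := split D l (fun x hx => (hl x hx).2) j h0
    rw [List.map_append, List.sum_append] at hN
    have e := pow_succ' (aw g G d h j) N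
    rw [e, List.map_append, List.prod_append]
    refine Ideal.mul_mem_mul ?_ ?_
    · exact aw_anti g G d h h1 (list_mem g G d h l1 fun x hx =>
        (hl x (List.mem_append_left _ hx)).1)
    · refine ih l2 (fun x hx => hl x (List.mem_append_right _ hx)) ?_
      have h3 : (j + D) * (N + 1) = (j + D) * N + (j + D) := by ring
      omega

/-- products of elements of weights at most `D`, total weight `w` -/
private def Good (g G : Fin m → P k) (d : Fin m → ℕ) (h : Semi g G d) (D : ℕ) (a : Rg g)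
    (w : ℕ) : Prop :=
  ∃ l : List (Rg g × ℕ), (∀ x ∈ l, x.1 ∈ aw g G d h x.2 ∧ x.2 ≤ D) ∧ (l.map Prod.snd).sum = w ∧
    (l.map Prod.fst).prod = a

section good

variable {g G : Fin m → P k} {d : Fin m → ℕ} {h : Semi g G d} {D : ℕ}

private theorem Good.one : Good g G d h D 1 0 := ⟨[], by simp, rfl, rfl⟩

private theorem Good.single {a : Rg g} {w : ℕ} (ha : a ∈ aw g G d h w) (hw : w ≤ D) :
    Good g G d h D a w := ⟨[(a, w)], by simpa using ⟨ha, hw⟩, by simp, by simp⟩

private theorem Good.mul {a b : Rg g} {w v : ℕ} (ha : Good g G d h D a w)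
    (hb : Good g G d h D b v) : Good g G d h D (a * b) (w + v) := by
  obtain ⟨l, h1, rfl, rfl⟩ := ha
  obtain ⟨l', h1', rfl, rfl⟩ := hb
  refine ⟨l ++ l', fun x hx => ?_, by simp, by simp⟩
  rcases List.mem_append.1 hx with h2 | h2
  · exact h1 x h2
  · exact h1' x h2

private theorem Good.pow {a : Rg g} {w : ℕ} (ha : Good g G d h D a w) (n : ℕ) :
    Good g G d h D (a ^ n) (n * w) := by
  induction n with
  | zero =>
    rw [pow_zero, zero_mul]
    exact Good.one
  | succ n ih =>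
    rw [pow_succ, Nat.succ_mul]
    exact ih.mul ha

private theorem Good.prod {ι : Type*} (s : Finset ι) {a : ι → Rg g} {w : ι → ℕ}
    (ha : ∀ i ∈ s, Good g G d h D (a i) (w i)) :
    Good g G d h D (∏ i ∈ s, a i) (∑ i ∈ s, w i) := by
  classical
  induction s using Finset.induction_on with
  | empty => exact Good.one
  | insert i s hi ih =>
    rw [Finset.prod_insert hi, Finset.sum_insert hi]
    exact (ha i (Finset.mem_insert_self i s)).mul
      (ih fun j hj => ha j (Finset.mem_insert_of_mem hj))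

end good

private theorem E_mem (g G : Fin m → P k) (d : Fin m → ℕ) (h : Semi g G d) (ν : Fin m → ℤ)
    (w : ℕ) (hw : (w : ℤ) ≤ ∑ i, |ν i| * (d i : ℤ)) : E g ν ∈ aw g G d h w := by
  rw [mem_aw]
  intro ν' μ hμ
  rw [cf_E] at hμ
  split_ifs at hμ with h1
  · subst h1
    have h2 := (gam_isInit g G d h ν').ge μ hμ
    rw [wt_one] at h2
    have h3 : ((∑ i, (-(ν' i)).toNat * d i : ℕ) : ℤ) ≤ (μ 0 : ℤ) + (μ 1 : ℤ) := by
      exact_mod_cast h2
    rw [sum_eq] at hw
    linarith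
  · simp at hμ

private theorem E_x (g : Fin m → P k) (i : Fin m) :
    E g (Pi.single i 1) = Ideal.Quotient.mk (rel g) (X (Sum.inl i)) := by
  classical
  unfold E
  rw [Finset.prod_eq_single i]
  · simp
  · intro j _ hj
    simp [Pi.single_eq_of_ne hj]
  · intro hi
    exact absurd (Finset.mem_univ i) hi

private theorem E_y (g : Fin m → P k) (i : Fin m) :
    E g (Pi.single i (-1)) = Ideal.Quotient.mk (rel g) (X (Sum.inr (Sum.inl i))) := by
  classical
  unfold E
  rw [Finset.prod_eq_single i]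
  · simp
  · intro j _ hj
    simp [Pi.single_eq_of_ne hj]
  · intro hi
    exact absurd (Finset.mem_univ i) hi

private theorem sum_single (d : Fin m → ℕ) (i : Fin m) (a : ℤ) :
    ∑ j, |(Pi.single i a : Fin m → ℤ) j| * (d j : ℤ) = |a| * (d i : ℤ) := by
  classical
  rw [Finset.sum_eq_single i]
  · simp
  · intro j _ hj
    simp [Pi.single_eq_of_ne hj]
  · intro hi
    exact absurd (Finset.mem_univ i) hi

private theorem x_mem (g G : Fin m → P k) (d : Fin m → ℕ) (h : Semi g G d) (i : Fin m) :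
    Ideal.Quotient.mk (rel g) (X (Sum.inl i)) ∈ aw g G d h (d i) := by
  rw [← E_x]
  exact E_mem g G d h _ _ (by rw [sum_single]; simp)

private theorem y_mem (g G : Fin m → P k) (d : Fin m → ℕ) (h : Semi g G d) (i : Fin m) :
    Ideal.Quotient.mk (rel g) (X (Sum.inr (Sum.inl i))) ∈ aw g G d h (d i) := by
  rw [← E_y]
  exact E_mem g G d h _ _ (by rw [sum_single]; simp)

private theorem z_mem (g G : Fin m → P k) (d : Fin m → ℕ) (h : Semi g G d) (j : Fin 2) :
    ci g (X j) ∈ aw g G d h 2 := by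
  rw [mem_aw]
  intro ν μ hμ
  have e : ci g (X j) = ci g (X j) * 1 := (mul_one _).symm
  rw [e, cf_ci_mul, cf_one] at hμ
  split_ifs at hμ with h1
  · subst h1
    rw [mul_one, support_X, Finset.mem_singleton] at hμ
    subst hμ
    fin_cases j <;> simp
  · simp at hμ

theorem aw_le_pow (g G : Fin m → P k) (d : Fin m → ℕ) (h : Semi g G d) (j N : ℕ) :
    aw g G d h ((j + (2 + ∑ i, d i)) * N) ≤ aw g G d h j ^ N := by
  intro r hr
  obtain ⟨s, c, hs, hr'⟩ := expand_wt g G d h _ r hr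
  rw [hr']
  refine Ideal.sum_mem _ fun x hx => ?_
  have h1 := hs x hx
  obtain ⟨μ, ν⟩ := x
  simp only at h1
  change ci g (monomial μ (c (μ, ν))) * E g ν ∈ _
  have hD : ∀ i, d i ≤ 2 + ∑ i, d i := fun i =>
    (Finset.single_le_sum (f := d) (fun _ _ => Nat.zero_le _) (Finset.mem_univ i)).trans
      (Nat.le_add_left _ _)
  have hz : Good g G d h (2 + ∑ i, d i) (∏ j : Fin 2, ci g (X j) ^ μ j)
      (∑ j : Fin 2, μ j * 2) :=
    Good.prod _ fun j _ => (Good.single (z_mem g G d h j) (Nat.le_add_right _ _)).pow _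
  have hE : Good g G d h (2 + ∑ i, d i)
      (∏ i, (Ideal.Quotient.mk (rel g) (X (Sum.inl i)) ^ (ν i).toNat *
        Ideal.Quotient.mk (rel g) (X (Sum.inr (Sum.inl i))) ^ (-(ν i)).toNat))
      (∑ i, ((ν i).toNat * d i + (-(ν i)).toNat * d i)) :=
    Good.prod _ fun i _ => ((Good.single (x_mem g G d h i) (hD i)).pow _).mul
      ((Good.single (y_mem g G d h i) (hD i)).pow _)
  obtain ⟨l, hl1, hl2, hl3⟩ := hz.mul hE
  have hmem := prod_mem g G d h j N (2 + ∑ i, d i) l hl1 (by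
    rw [hl2]
    have h2 : ((∑ j : Fin 2, μ j * 2 + ∑ i, ((ν i).toNat * d i + (-(ν i)).toNat * d i) : ℕ) : ℤ) =
        2 * ((μ 0 : ℤ) + (μ 1 : ℤ)) + ∑ i, |ν i| * (d i : ℤ) := by
      push_cast
      rw [Fin.sum_univ_two]
      have h3 : ∀ i, |ν i| * (d i : ℤ) =
          ((ν i).toNat : ℤ) * (d i : ℤ) + ((-(ν i)).toNat : ℤ) * (d i : ℤ) := by
        intro i
        rw [abs_eq'']
        ring
      simp only [h3]
      ring
    have h4 : (((j + (2 + ∑ i, d i)) * N : ℕ) : ℤ) ≤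
        ((∑ j : Fin 2, μ j * 2 + ∑ i, ((ν i).toNat * d i + (-(ν i)).toNat * d i) : ℕ) : ℤ) := by
      rw [h2]
      exact h1
    exact_mod_cast h4)
  rw [hl3] at hmem
  have he : ci g (monomial μ (c (μ, ν))) * E g ν = ci g (C (c (μ, ν))) *
      ((∏ j : Fin 2, ci g (X j) ^ μ j) *
      ∏ i, (Ideal.Quotient.mk (rel g) (X (Sum.inl i)) ^ (ν i).toNat *
        Ideal.Quotient.mk (rel g) (X (Sum.inr (Sum.inl i))) ^ (-(ν i)).toNat)) := by
    rw [← mul_assoc]
    congr 1
    · rw [monomial_eq, Finsupp.prod_fintype _ _ (fun i => pow_zero _)]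
      unfold ci
      simp only [map_mul, map_prod, map_pow]
    · unfold E
      simp only [map_mul, map_prod, map_pow]
  rw [he]
  exact Ideal.mul_mem_left _ _ hmem

end CX
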