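import Pool.Agent.Lib.MP_9e8926_ag_CX.Cf
import Pool.Agent.Lib.MP_9e8926_ag_CX.PairL

set_option autoImplicit false

noncomputable section

namespace CX

open MvPolynomial

variable {k : Type*} [Field k] {m : ℕ}

namespace WtX

/-- All monomials of `f` have degree at least `n`. -/
def Og (n : ℕ) (f : P k) : Prop := ∀ μ ∈ f.support, n ≤ μ 0 + μ 1

theorem Og.zero (f : P k) : Og 0 f := fun _ _ => Nat.zero_le _

theorem Og.mul {a b : ℕ} {f h : P k} (hf : Og a f) (hh : Og b h) : Og (a + b) (f * h) := by
  classical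
  intro μ hμ
  have h1 := MvPolynomial.support_mul f h hμ
  rw [Finset.mem_add] at h1
  obtain ⟨x, hx, y, hy, rfl⟩ := h1
  have h2 := hf x hx
  have h3 := hh y hy
  rw [Finsupp.add_apply, Finsupp.add_apply]
  omega

theorem Og.pow {a : ℕ} {f : P k} (hf : Og a f) (n : ℕ) : Og (n * a) (f ^ n) := by
  induction n with
  | zero => rw [Nat.zero_mul]; exact Og.zero _
  | succ n ih =>
    rw [pow_succ, Nat.succ_mul]
    exact ih.mul hf

theorem Og.prod {ι : Type*} (s : Finset ι) (a : ι → ℕ) (f : ι → P k) (h : ∀ i, Og (a i) (f i)) :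
    Og (∑ i ∈ s, a i) (∏ i ∈ s, f i) := by
  classical
  induction s using Finset.induction_on with
  | empty => rw [Finset.sum_empty]; exact Og.zero _
  | insert i s hi ih =>
    rw [Finset.prod_insert hi, Finset.sum_insert hi]
    exact (h i).mul ih

theorem Og.of_init {f G : P k} {d : ℕ} (h : FV.IsInit 1 1 f d G) : Og d f := by
  classical
  intro μ hμ
  have h1 : f = G + (f - G) := by ring
  rw [h1] at hμ
  have h2 := MvPolynomial.support_add hμ
  rw [Finset.mem_union] at h2
  rcases h2 with h2 | h2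
  · have := h.2.1 μ h2
    unfold FV.wt at this
    omega
  · have := h.2.2 μ h2
    unfold FV.wt at this
    omega

theorem og_gam {g G : Fin m → P k} {d : Fin m → ℕ} (h : Semi g G d) (ν : Fin m → ℤ) :
    Og (∑ i, (-(ν i)).toNat * d i) (gam g ν) :=
  Og.prod _ _ _ fun i => (Og.of_init (h i).2.1).pow _

theorem cf_X (g : Fin m → P k) (ν μ : Fin m → ℤ) (v : Vr m) (a : P k)
    (h : Th g (X v) = AddMonoidAlgebra.single μ a) :
    cf g ν (Ideal.Quotient.mk (rel g) (X v)) = if μ = ν then a else 0 := by
  classical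
  have h1 : cf g ν (Ideal.Quotient.mk (rel g) (X v)) = (Th g (X v)).coeff ν := rfl
  rw [h1, h, AddMonoidAlgebra.coeff_single, Finsupp.single_apply]

end WtX

/-- All terms `z^μ x^ν` of `r` have weight at least `j`, where `z, w` have weight `2` and `x_i` has
weight `d_i`. -/
def WGe (g : Fin m → P k) (d : Fin m → ℕ) (j : ℤ) (r : Rg g) : Prop :=
  ∀ (ν : Fin m → ℤ), ∀ μ ∈ (cf g ν r).support,
    j ≤ 2 * ((μ 0 : ℤ) + (μ 1 : ℤ)) + ∑ i, ν i * (d i : ℤ)

theorem WGe.zero (g G : Fin m → P k) (d : Fin m → ℕ) (h : Semi g G d) (r : Rg g) :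
    WGe g d 0 r := by
  intro ν μ hμ
  obtain ⟨s, hs⟩ := gam_dvd_cf g ν r
  have h1 := (WtX.og_gam h ν).mul (WtX.Og.zero s)
  rw [← hs] at h1
  have h2 := h1 μ hμ
  rw [add_zero] at h2
  have h3 : ((∑ i, (-(ν i)).toNat * d i : ℕ) : ℤ) ≤ (μ 0 : ℤ) + (μ 1 : ℤ) := by exact_mod_cast h2
  have h4 : 0 ≤ 2 * ((∑ i, (-(ν i)).toNat * d i : ℕ) : ℤ) + ∑ i, ν i * (d i : ℤ) := by
    push_cast
    rw [Finset.mul_sum, ← Finset.sum_add_distrib]
    refine Finset.sum_nonneg fun i _ => ?_
    have h5 : 2 * (((-(ν i)).toNat : ℤ) * (d i : ℤ)) + ν i * (d i : ℤ) =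
        (2 * ((-(ν i)).toNat : ℤ) + ν i) * (d i : ℤ) := by ring
    have h6 : 0 ≤ (2 * ((-(ν i)).toNat : ℤ) + ν i) * (d i : ℤ) := by
      refine mul_nonneg ?_ (Int.natCast_nonneg _)
      omega
    rw [← h5] at h6
    simpa using h6
  linarith

theorem WGe.mul {g : Fin m → P k} {d : Fin m → ℕ} {j j' : ℤ} {r s : Rg g} (h : WGe g d j r)
    (h' : WGe g d j' s) : WGe g d (j + j') (r * s) := by
  classical
  intro ν κ hκ
  rw [cf_mul g r s (cf_finite g r).toFinset (fun μ hμ => by
    by_contra hne
    exact hμ ((Set.Finite.mem_toFinset _).2 hne)) ν] at hκ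
  have h1 := MvPolynomial.support_sum hκ
  rw [Finset.mem_biUnion] at h1
  obtain ⟨μ, _, h2⟩ := h1
  have h3 := MvPolynomial.support_mul _ _ h2
  rw [Finset.mem_add] at h3
  obtain ⟨x, hx, y, hy, rfl⟩ := h3
  have h4 := h μ x hx
  have h5 := h' (ν - μ) y hy
  have h6 : ∑ i, ν i * (d i : ℤ) = ∑ i, μ i * (d i : ℤ) + ∑ i, (ν - μ) i * (d i : ℤ) := by
    rw [← Finset.sum_add_distrib]
    refine Finset.sum_congr rfl fun i _ => ?_
    rw [Pi.sub_apply]
    ring
  rw [h6, Finsupp.add_apply, Finsupp.add_apply]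
  push_cast
  linarith

theorem WGe.add {g : Fin m → P k} {d : Fin m → ℕ} {j : ℤ} {r s : Rg g} (h : WGe g d j r)
    (h' : WGe g d j s) : WGe g d j (r + s) := by
  classical
  intro ν μ hμ
  rw [map_add] at hμ
  have h1 := MvPolynomial.support_add hμ
  rw [Finset.mem_union] at h1
  rcases h1 with h1 | h1
  · exact h ν μ h1
  · exact h' ν μ h1

/-- The ideal of the elements of weight at least `j`. -/
def aw (g G : Fin m → P k) (d : Fin m → ℕ) (h : Semi g G d) (j : ℕ) : Ideal (Rg g) where
  carrier := {r | WGe g d j r}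
  zero_mem' := by
    intro ν μ hμ
    rw [map_zero] at hμ
    simp at hμ
  add_mem' := fun ha hb => ha.add hb
  smul_mem' := by
    intro c r hr
    have := (WGe.zero g G d h c).mul hr
    rw [zero_add] at this
    exact this

theorem mem_aw {g G : Fin m → P k} {d : Fin m → ℕ} {h : Semi g G d} {j : ℕ} {r : Rg g} :
    r ∈ aw g G d h j ↔ WGe g d j r := Iff.rfl

theorem aw_mul (g G : Fin m → P k) (d : Fin m → ℕ) (h : Semi g G d) (i j : ℕ) :
    aw g G d h i * aw g G d h j ≤ aw g G d h (i + j) := by
  refine Ideal.mul_le.2 fun r hr s hs => ?_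
  rw [mem_aw] at hr hs ⊢
  have := hr.mul hs
  push_cast
  exact this

theorem aw_pow (g G : Fin m → P k) (d : Fin m → ℕ) (h : Semi g G d) (j N : ℕ) :
    aw g G d h j ^ N ≤ aw g G d h (j * N) := by
  induction N with
  | zero =>
    intro r _
    rw [mem_aw, Nat.mul_zero]
    exact WGe.zero g G d h r
  | succ N ih =>
    have h1 : aw g G d h j ^ (N + 1) = aw g G d h j ^ N * aw g G d h j :=
      Submodule.pow_succ _
    rw [h1, Nat.mul_succ]
    exact (Ideal.mul_mono_left ih).trans (aw_mul g G d h _ _)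

theorem aw_prim (g G : Fin m → P k) (d : Fin m → ℕ) (h : Semi g G d) (j : ℕ) (hj : 1 ≤ j) :
    IsPrim (mX g) (aw g G d h j) := by
  classical
  refine ⟨fun r hr => ?_, j, ?_⟩
  · rw [mem_mX g (fun i => h.const i)]
    by_contra hne
    rw [MvPolynomial.constantCoeff_eq] at hne
    have h1 := hr 0 0 (MvPolynomial.mem_support_iff.2 hne)
    simp only [Finsupp.coe_zero, Pi.zero_apply, Nat.cast_zero, add_zero, mul_zero, zero_mul,
      Finset.sum_const_zero] at h1
    omega
  · have h1 : mX g ≤ aw g G d h 1 := by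
      unfold mX
      rw [Ideal.span_le]
      rintro _ ⟨v, rfl⟩
      rw [SetLike.mem_coe, mem_aw]
      rcases v with i | i | l
      · have e : Th g (X (Sum.inl i)) = AddMonoidAlgebra.single (Pi.single i 1) 1 := by
          rw [Th, aeval_X, Sum.elim_inl]
        intro ν μ hμ
        rw [WtX.cf_X g ν _ _ _ e] at hμ
        split_ifs at hμ with hν
        · subst hν
          have hd := (h i).1
          have hs : ∑ l, (Pi.single i (1 : ℤ) : Fin m → ℤ) l * (d l : ℤ) = d i := by
            rw [Finset.sum_eq_single i]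
            · simp
            · intro b _ hb
              rw [Pi.single_eq_of_ne hb, zero_mul]
            · intro hi
              exact absurd (Finset.mem_univ i) hi
          rw [hs]
          push_cast
          omega
        · simp at hμ
      · have e : Th g (X (Sum.inr (Sum.inl i))) =
            AddMonoidAlgebra.single (Pi.single i (-1)) (g i) := by
          rw [Th, aeval_X, Sum.elim_inr, Sum.elim_inl]
        intro ν μ hμ
        rw [WtX.cf_X g ν _ _ _ e] at hμ
        split_ifs at hμ with hν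
        · subst hν
          have hd := (h i).1
          have ho := WtX.Og.of_init (h i).2.1 μ hμ
          have hs : ∑ l, (Pi.single i (-1 : ℤ) : Fin m → ℤ) l * (d l : ℤ) = -(d i : ℤ) := by
            rw [Finset.sum_eq_single i]
            · simp
            · intro b _ hb
              rw [Pi.single_eq_of_ne hb, zero_mul]
            · intro hi
              exact absurd (Finset.mem_univ i) hi
          rw [hs]
          push_cast
          omega
        · simp at hμ
      · have e : Th g (X (Sum.inr (Sum.inr l))) = AddMonoidAlgebra.single 0 (X l) := by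
          rw [Th, aeval_X, Sum.elim_inr, Sum.elim_inr]
        intro ν μ hμ
        rw [WtX.cf_X g ν _ _ _ e] at hμ
        split_ifs at hμ with hν
        · subst hν
          rw [MvPolynomial.support_X, Finset.mem_singleton] at hμ
          subst hμ
          have hl : l = 0 ∨ l = 1 := by omega
          rcases hl with rfl | rfl
          · simp
          · simp
        · simp at hμ
    refine (Ideal.pow_right_mono h1 j).trans ((aw_pow g G d h 1 j).trans ?_)
    rw [one_mul]

end CX
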